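import Mathlib

/-!
# Fewer than `N` forms in `N` variables over an algebraically closed field have a common zero
-/

set_option autoImplicit false

namespace MP7Z.Tsen

open MvPolynomial

section
variable {𝕜 : Type} [Field 𝕜]

/-- Set the first `k` variables to zero. -/
noncomputable def zSub (𝕜 : Type) [Field 𝕜] (N k : ℕ) :
    MvPolynomial (Fin N) 𝕜 →+* MvPolynomial (Fin N) 𝕜 :=
  (aeval (fun i : Fin N => if (i : ℕ) < k then (0 : MvPolynomial (Fin N) 𝕜) else X i)).toRingHom

lemma zSub_X (N k : ℕ) (i : Fin N) :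
    zSub 𝕜 N k (X i) = if (i : ℕ) < k then (0 : MvPolynomial (Fin N) 𝕜) else X i := by
  simp [zSub]

/-- the prime ideal of the polynomials vanishing when the first `k` variables are zero -/
noncomputable def zP (𝕜 : Type) [Field 𝕜] (N k : ℕ) : Ideal (MvPolynomial (Fin N) 𝕜) :=
  RingHom.ker (zSub 𝕜 N k)

instance zP_prime (N k : ℕ) : (zP 𝕜 N k).IsPrime := RingHom.ker_isPrime _

lemma zSub_comp (N k : ℕ) : (zSub 𝕜 N (k + 1)).comp (zSub 𝕜 N k) = zSub 𝕜 N (k + 1) := by
  apply MvPolynomial.ringHom_ext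
  · intro r
    simp [zSub]
  · intro i
    rw [RingHom.comp_apply, zSub_X N k]
    by_cases h : (i : ℕ) < k
    · rw [if_pos h, map_zero, zSub_X, if_pos (by omega)]
    · rw [if_neg h]

lemma zP_lt (N k : ℕ) (hk : k < N) : zP 𝕜 N k < zP 𝕜 N (k + 1) := by
  refine lt_of_le_of_ne ?_ ?_
  · intro f hf
    have : zSub 𝕜 N (k + 1) (zSub 𝕜 N k f) = zSub 𝕜 N (k + 1) f := by
      rw [← RingHom.comp_apply, zSub_comp]
    rw [zP, RingHom.mem_ker] at *
    rw [← this, hf, map_zero]
  · intro h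
    have h1 : (X (⟨k, hk⟩ : Fin N) : MvPolynomial (Fin N) 𝕜) ∈ zP 𝕜 N (k + 1) := by
      rw [zP, RingHom.mem_ker, zSub_X, if_pos (by simp)]
    rw [← h, zP, RingHom.mem_ker, zSub_X, if_neg (by simp)] at h1
    exact X_ne_zero _ h1

lemma zP_height (N k : ℕ) (hk : k ≤ N) : (k : ℕ∞) ≤ (zP 𝕜 N k).height := by
  induction k with
  | zero => simp
  | succ k ih =>
    have h := Ideal.height_add_one_le_of_lt_of_isPrime (zP_lt (𝕜 := 𝕜) N k (by omega))
    calc ((k + 1 : ℕ) : ℕ∞) = (k : ℕ∞) + 1 := by push_cast; rfl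
      _ ≤ (zP 𝕜 N k).height + 1 := by gcongr; exact ih (by omega)
      _ ≤ _ := h

lemma mem_zP (N : ℕ) (f : MvPolynomial (Fin N) 𝕜) : f ∈ zP 𝕜 N N ↔ eval 0 f = 0 := by
  have : zSub 𝕜 N N = (C : 𝕜 →+* MvPolynomial (Fin N) 𝕜).comp (eval (0 : Fin N → 𝕜)) := by
    apply MvPolynomial.ringHom_ext
    · intro r
      simp [zSub]
    · intro i
      rw [zSub_X, if_pos i.2]
      simp
  rw [zP, RingHom.mem_ker, this, RingHom.comp_apply, C_eq_zero]

lemma eval_zero_of_hom {ι : Type} (F : MvPolynomial ι 𝕜) (m : ℕ) (hm : 0 < m)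
    (hF : F.IsHomogeneous m) : eval 0 F = 0 := by
  have h : eval (0 : ι → 𝕜) F = constantCoeff F := by
    have h1 : (eval (0 : ι → 𝕜)) = (constantCoeff : MvPolynomial ι 𝕜 →+* 𝕜) := by
      apply MvPolynomial.ringHom_ext
      · intro r; simp
      · intro i; simp
    rw [h1]
  rw [h, constantCoeff_eq]
  exact hF.coeff_eq_zero (by simp; omega)

/-- `r < N` forms of positive degree in `N` variables over an algebraically closed field have a
common nontrivial zero (Krull's height theorem and the Nullstellensatz). -/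
theorem common_zero_fin [IsAlgClosed 𝕜] (N r : ℕ) (hr : r < N)
    (F : Fin r → MvPolynomial (Fin N) 𝕜) (d : Fin r → ℕ) (hd : ∀ j, 0 < d j)
    (hF : ∀ j, (F j).IsHomogeneous (d j)) :
    ∃ c : Fin N → 𝕜, c ≠ 0 ∧ ∀ j, eval c (F j) = 0 := by
  classical
  by_contra hcon
  push Not at hcon
  set S : Finset (MvPolynomial (Fin N) 𝕜) := Finset.univ.image F with hS
  set I : Ideal (MvPolynomial (Fin N) 𝕜) := Ideal.span (S : Set _) with hI
  have hIm : I ≤ zP 𝕜 N N := by
    rw [hI, Ideal.span_le]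
    intro f hf
    rw [hS, Finset.coe_image] at hf
    obtain ⟨j, -, rfl⟩ := hf
    exact (mem_zP N _).2 (eval_zero_of_hom _ _ (hd j) (hF j))
  have hz : zeroLocus 𝕜 I ⊆ {(0 : Fin N → 𝕜)} := by
    intro p hp
    rw [mem_zeroLocus_iff] at hp
    by_contra hp0
    obtain ⟨j, hj⟩ := hcon p (by simpa using hp0)
    apply hj
    have := hp (F j) (Ideal.subset_span (by
      rw [hS, Finset.coe_image]; exact ⟨j, by simp, rfl⟩))
    simpa using this
  have hrad : zP 𝕜 N N ≤ I.radical := by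
    rw [← vanishingIdeal_zeroLocus_eq_radical (K := 𝕜)]
    intro f hf
    rw [mem_vanishingIdeal_iff]
    intro x hx
    have := hz hx
    rw [Set.mem_singleton_iff] at this
    subst this
    simpa using (mem_zP N f).1 hf
  have hmin : zP 𝕜 N N ∈ I.minimalPrimes := by
    refine ⟨⟨inferInstance, hIm⟩, ?_⟩
    rintro J ⟨hJ, hIJ⟩ _
    exact hrad.trans (hJ.radical_le_iff.2 hIJ)
  have h3 := Ideal.height_le_card_of_mem_minimalPrimes_span_finset hmin
  have h4 : (S.card : ℕ∞) ≤ r := by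
    exact_mod_cast (Finset.card_image_le).trans (by simp)
  have h5 := (zP_height (𝕜 := 𝕜) N N le_rfl).trans (h3.trans h4)
  have h6 : N ≤ r := by exact_mod_cast h5
  omega

theorem common_zero [IsAlgClosed 𝕜] {ι κ : Type} [Fintype ι] [Fintype κ]
    (hr : Fintype.card κ < Fintype.card ι)
    (F : κ → MvPolynomial ι 𝕜) (d : ℕ) (hd : 0 < d) (hF : ∀ j, (F j).IsHomogeneous d) :
    ∃ c : ι → 𝕜, c ≠ 0 ∧ ∀ j, eval c (F j) = 0 := by
  classical
  let e := Fintype.equivFin ι
  let e' := Fintype.equivFin κ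
  obtain ⟨c, hc, h⟩ := common_zero_fin (𝕜 := 𝕜) (Fintype.card ι) (Fintype.card κ) hr
    (fun j => rename e (F (e'.symm j))) (fun _ => d) (fun _ => hd)
    (fun j => (hF _).rename_isHomogeneous)
  refine ⟨c ∘ e, ?_, ?_⟩
  · intro h0
    apply hc
    funext i
    have := congrFun h0 (e.symm i)
    simpa using this
  · intro j
    have := h (e' j)
    rw [eval_rename] at this
    simpa using this

end

end MP7Z.Tsen
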