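import Pool.Agent.Lib.MP_7f581e_Z.InterfaceFF
import Pool.Agent.Lib.MP_7f581e_Z.FF.Zero

/-!
# Tsen's theorem: forms, norms
-/

set_option autoImplicit false

namespace MP7Z.Tsen

open MvPolynomial

/-- A field over which every form in more variables than its degree has a nontrivial zero. -/
def C1 (K : Type) [Field K] : Prop :=
  ∀ (ι : Type) [Fintype ι] (d : ℕ) (P : MvPolynomial ι K), 0 < d → d < Fintype.card ι →
    P.IsHomogeneous d → ∃ c : ι → K, c ≠ 0 ∧ eval c P = 0

section mapCoeff
variable {𝕜 R ι : Type} [Field 𝕜] [CommRing R] [Algebra 𝕜 R]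

/-- Apply a linear form to the coefficients. -/
noncomputable def mapCoeff (l : R →ₗ[𝕜] 𝕜) (P : MvPolynomial ι R) : MvPolynomial ι 𝕜 :=
  ∑ m ∈ P.support, monomial m (l (P.coeff m))

lemma mapCoeff_hom (l : R →ₗ[𝕜] 𝕜) (P : MvPolynomial ι R) (d : ℕ) (hP : P.IsHomogeneous d) :
    (mapCoeff l P).IsHomogeneous d := by
  unfold mapCoeff
  refine IsHomogeneous.sum _ _ _ fun m hm => isHomogeneous_monomial _ ?_
  by_contra hne
  exact (mem_support_iff.1 hm) (hP.coeff_eq_zero hne)

lemma eval_mapCoeff (l : R →ₗ[𝕜] 𝕜) (P : MvPolynomial ι R) (c : ι → 𝕜) :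
    eval c (mapCoeff l P) = l (eval (fun i => algebraMap 𝕜 R (c i)) P) := by
  unfold mapCoeff
  rw [map_sum, eval_eq, map_sum]
  refine Finset.sum_congr rfl fun m _ => ?_
  rw [eval_monomial, Finsupp.prod]
  have : (∏ i ∈ m.support, (algebraMap 𝕜 R (c i)) ^ m i)
      = algebraMap 𝕜 R (∏ i ∈ m.support, c i ^ m i) := by
    rw [map_prod]
    exact Finset.prod_congr rfl fun i _ => by rw [map_pow]
  rw [this, mul_comm (coeff m P), ← Algebra.smul_def, map_smul, smul_eq_mul, mul_comm]

end mapCoeff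

/-- A form over a `𝕜`-algebra with values in a space of small dimension has a zero over `𝕜`. -/
theorem zero_of_small {𝕜 R ι : Type} [Field 𝕜] [IsAlgClosed 𝕜] [CommRing R] [Algebra 𝕜 R]
    [Fintype ι] (P : MvPolynomial ι R) (d : ℕ) (hd : 0 < d) (hP : P.IsHomogeneous d)
    (V : Submodule 𝕜 R) [Module.Finite 𝕜 V] (hV : Module.finrank 𝕜 V < Fintype.card ι)
    (hval : ∀ c : ι → 𝕜, eval (fun i => algebraMap 𝕜 R (c i)) P ∈ V) :
    ∃ c : ι → 𝕜, c ≠ 0 ∧ eval (fun i => algebraMap 𝕜 R (c i)) P = 0 := by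
  classical
  obtain ⟨W, hW⟩ := Submodule.exists_isCompl V
  let π : R →ₗ[𝕜] V := V.projectionOnto W hW
  let b := Module.finBasis 𝕜 V
  obtain ⟨c, hc, h⟩ := common_zero (𝕜 := 𝕜) (ι := ι) (κ := Fin (Module.finrank 𝕜 V))
    (by simpa using hV) (fun j => mapCoeff ((b.coord j).comp π) P) d hd
    (fun j => mapCoeff_hom _ P d hP)
  refine ⟨c, hc, ?_⟩
  have h1 : ∀ j, b.coord j (π (eval (fun i => algebraMap 𝕜 R (c i)) P)) = 0 := by
    intro j
    have := h j
    rw [eval_mapCoeff] at this
    exact this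
  have h2 : π (eval (fun i => algebraMap 𝕜 R (c i)) P) = 0 := by
    apply b.ext_elem
    intro j
    have := h1 j
    rw [Module.Basis.coord_apply] at this
    rw [this]
    simp
  have h3 : π ((⟨_, hval c⟩ : V) : R) = ⟨_, hval c⟩ := Submodule.projectionOnto_apply_left hW _
  have h4 : (⟨_, hval c⟩ : V) = 0 := h3.symm.trans h2
  exact congrArg Subtype.val h4

/-- the generic linear substitution. -/
noncomputable def gsub {ι κ R : Type} [CommRing R] [Fintype κ] (u : κ → R)
    (P : MvPolynomial ι R) : MvPolynomial (ι × κ) R :=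
  aeval (fun i => ∑ j, C (u j) * (X (i, j) : MvPolynomial (ι × κ) R)) P

lemma gsub_hom {ι κ R : Type} [CommRing R] [Fintype κ] (u : κ → R)
    (P : MvPolynomial ι R) (d : ℕ) (hP : P.IsHomogeneous d) : (gsub u P).IsHomogeneous d := by
  have := IsHomogeneous.aeval (n := 1) hP
    (fun i : ι => ∑ j, C (u j) * (X (i, j) : MvPolynomial (ι × κ) R))
    (fun i => IsHomogeneous.sum _ _ _ fun j _ => isHomogeneous_C_mul_X _ _)
  rwa [one_mul] at this

lemma eval_gsub {ι κ R : Type} [CommRing R] [Fintype κ] (u : κ → R)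
    (P : MvPolynomial ι R) (c : ι × κ → R) :
    eval c (gsub u P) = eval (fun i => ∑ j, u j * c (i, j)) P := by
  have h : (eval c).comp (aeval (fun i => ∑ j, C (u j) *
      (X (i, j) : MvPolynomial (ι × κ) R)) : MvPolynomial ι R →ₐ[R] _).toRingHom
      = eval (fun i => ∑ j, u j * c (i, j)) := by
    apply MvPolynomial.ringHom_ext
    · intro r
      simp
    · intro i
      simp
  have := congrArg (fun f => f P) h
  simpa [gsub] using this

/-- Polynomials: forms over `𝕜[X]` in more variables than the degree have nontrivial zeros. -/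
theorem poly_zero {𝕜 ι : Type} [Field 𝕜] [IsAlgClosed 𝕜] [Fintype ι]
    (P : MvPolynomial ι (Polynomial 𝕜)) (d : ℕ) (hd : 0 < d) (hι : d < Fintype.card ι)
    (hP : P.IsHomogeneous d) : ∃ c : ι → Polynomial 𝕜, c ≠ 0 ∧ eval c P = 0 := by
  classical
  set m : ℕ := P.support.sup (fun s => (P.coeff s).natDegree) with hm
  have hcoef : ∀ s, (P.coeff s).natDegree ≤ m := by
    intro s
    by_cases hs : s ∈ P.support
    · exact Finset.le_sup (f := fun s => (P.coeff s).natDegree) hs
    · rw [notMem_support_iff.1 hs]; simp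
  have hval : ∀ c : ι × Fin (m + 1) → 𝕜,
      eval (fun i => algebraMap 𝕜 (Polynomial 𝕜) (c i))
        (gsub (fun j : Fin (m + 1) => (Polynomial.X : Polynomial 𝕜) ^ (j : ℕ)) P) ∈
        Polynomial.degreeLT 𝕜 (d * m + m + 1) := by
    intro c
    rw [eval_gsub, eval_eq]
    refine Submodule.sum_mem _ fun s hs => ?_
    rw [Polynomial.mem_degreeLT]
    have hsd : ∑ i ∈ s.support, s i = d := by
      by_contra hne
      exact (mem_support_iff.1 hs) (hP.coeff_eq_zero hne)
    refine lt_of_le_of_lt Polynomial.degree_le_natDegree ?_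
    have h1 : (P.coeff s * ∏ i ∈ s.support, (∑ j : Fin (m + 1),
        (Polynomial.X : Polynomial 𝕜) ^ (j : ℕ) * algebraMap 𝕜 (Polynomial 𝕜) (c (i, j)))
          ^ s i).natDegree ≤ m + d * m := by
      refine (Polynomial.natDegree_mul_le).trans (add_le_add (hcoef s) ?_)
      refine (Polynomial.natDegree_prod_le _ _).trans ?_
      rw [← hsd, Finset.sum_mul]
      refine Finset.sum_le_sum fun i _ => ?_
      refine (Polynomial.natDegree_pow_le).trans (Nat.mul_le_mul_left _ ?_)
      refine Polynomial.natDegree_sum_le_of_forall_le _ _ fun j _ => ?_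
      refine (Polynomial.natDegree_mul_le).trans ?_
      rw [Polynomial.natDegree_X_pow]
      have : (algebraMap 𝕜 (Polynomial 𝕜) (c (i, j))).natDegree = 0 :=
        Polynomial.natDegree_C _
      rw [this]
      omega
    have h2 : m + d * m < d * m + m + 1 := by omega
    exact_mod_cast lt_of_le_of_lt h1 h2
  haveI : Module.Finite 𝕜 (Polynomial.degreeLT 𝕜 (d * m + m + 1)) :=
    Module.Finite.equiv (Polynomial.degreeLTEquiv 𝕜 (d * m + m + 1)).symm
  have hfin : Module.finrank 𝕜 (Polynomial.degreeLT 𝕜 (d * m + m + 1)) = d * m + m + 1 := by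
    rw [(Polynomial.degreeLTEquiv 𝕜 (d * m + m + 1)).finrank_eq]
    simp
  obtain ⟨c, hc, h⟩ := zero_of_small (𝕜 := 𝕜)
    (gsub (fun j : Fin (m + 1) => (Polynomial.X : Polynomial 𝕜) ^ (j : ℕ)) P) d hd
    (gsub_hom _ P d hP) (Polynomial.degreeLT 𝕜 (d * m + m + 1))
    (by
      rw [hfin, Fintype.card_prod, Fintype.card_fin]
      calc d * m + m + 1 < (d + 1) * (m + 1) := by nlinarith
        _ ≤ _ := Nat.mul_le_mul_right _ hι) hval
  rw [eval_gsub] at h
  refine ⟨_, ?_, h⟩
  intro h0
  apply hc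
  funext ⟨i, j⟩
  have h1 := congrArg (fun q : Polynomial 𝕜 => q.coeff (j : ℕ)) (congrFun h0 i)
  simp only [Pi.zero_apply, Polynomial.coeff_zero, Polynomial.finsetSum_coeff] at h1
  rw [Finset.sum_eq_single j] at h1
  · have h2 : ((Polynomial.X : Polynomial 𝕜) ^ (j : ℕ) *
        algebraMap 𝕜 (Polynomial 𝕜) (c (i, j))).coeff (j : ℕ) = c (i, j) := by
      rw [Polynomial.algebraMap_eq, mul_comm, Polynomial.coeff_C_mul, Polynomial.coeff_X_pow]
      simp
    rw [h2] at h1
    exact h1
  · intro k _ hk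
    rw [Polynomial.algebraMap_eq, mul_comm, Polynomial.coeff_C_mul, Polynomial.coeff_X_pow,
      if_neg (fun h => hk (Fin.ext h.symm)), mul_zero]
  · intro h; exact absurd (Finset.mem_univ j) h

/-- The field of rational functions is `C1`. -/
theorem c1_of_gen {𝕜 K : Type} [Field 𝕜] [IsAlgClosed 𝕜] [Field K] [Algebra 𝕜 K] (t : K)
    (ht : Transcendental 𝕜 t)
    (hK : ∀ a : K, ∃ p q : Polynomial 𝕜, a = Polynomial.aeval t p / Polynomial.aeval t q) :
    C1 K := by
  classical
  intro ι _ d P hd hι hP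
  have hinj : Function.Injective (Polynomial.aeval t : Polynomial 𝕜 →ₐ[𝕜] K) :=
    transcendental_iff_injective.1 ht
  have hK' : ∀ a : K, ∃ p q : Polynomial 𝕜, q ≠ 0 ∧
      Polynomial.aeval t q * a = Polynomial.aeval t p := by
    intro a
    obtain ⟨p, q, h⟩ := hK a
    by_cases hq : q = 0
    · refine ⟨0, 1, one_ne_zero, ?_⟩
      rw [h, hq]; simp
    · refine ⟨p, q, hq, ?_⟩
      have : Polynomial.aeval t q ≠ 0 := fun h0 => hq (hinj (by rw [h0, map_zero]))
      rw [h, mul_div_cancel₀ _ this]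
  choose p q hq hpq using hK'
  set Q : Polynomial 𝕜 := ∏ s ∈ P.support, q (P.coeff s) with hQ
  have hQ0 : Q ≠ 0 := Finset.prod_ne_zero_iff.2 fun s _ => hq _
  set P' : MvPolynomial ι (Polynomial 𝕜) := ∑ s ∈ P.support,
    monomial s (p (P.coeff s) * ∏ s' ∈ P.support.erase s, q (P.coeff s')) with hP'
  have hP'h : P'.IsHomogeneous d := by
    refine IsHomogeneous.sum _ _ _ fun m hm => isHomogeneous_monomial _ ?_
    by_contra hne
    exact (mem_support_iff.1 hm) (hP.coeff_eq_zero hne)
  have hmap : map (Polynomial.aeval t : Polynomial 𝕜 →ₐ[𝕜] K).toRingHom P'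
      = C (Polynomial.aeval t Q) * P := by
    rw [hP', map_sum]
    conv_rhs => rw [P.as_sum, Finset.mul_sum]
    refine Finset.sum_congr rfl fun s hs => ?_
    rw [map_monomial, C_mul_monomial]
    congr 1
    rw [hQ, ← Finset.mul_prod_erase _ _ hs]
    change Polynomial.aeval t _ = _
    rw [map_mul, map_mul, ← hpq]
    ring
  obtain ⟨c, hc, h⟩ := poly_zero P' d hd hι hP'h
  refine ⟨fun i => Polynomial.aeval t (c i), ?_, ?_⟩
  · intro h0
    apply hc
    funext i
    have := congrFun h0 i
    exact hinj (by simpa using this)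
  · have h1 : eval (fun i => Polynomial.aeval t (c i))
        (map (Polynomial.aeval t : Polynomial 𝕜 →ₐ[𝕜] K).toRingHom P') = 0 := by
      rw [eval_map]
      have h2 := eval₂_comp_left (Polynomial.aeval t : Polynomial 𝕜 →ₐ[𝕜] K).toRingHom
        (RingHom.id _) c P'
      have h3 : eval₂ (RingHom.id (Polynomial 𝕜)) c P' = 0 := h
      rw [h3, map_zero] at h2
      exact h2.symm
    rw [hmap, map_mul, eval_C] at h1
    rcases mul_eq_zero.1 h1 with h3 | h3
    · exact absurd (hinj (by rw [h3, map_zero])) hQ0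
    · exact h3

/-- The norm form of a finite extension. -/
theorem exists_normForm {K L κ : Type} [Field K] [Field L] [Algebra K L] [Fintype κ]
    (b : Module.Basis κ K L) :
    ∃ F : MvPolynomial κ K,
      F.IsHomogeneous (Fintype.card κ) ∧
      ∀ c, eval c F = Algebra.norm K (∑ i, c i • b i) := by
  classical
  haveI : Module.Finite K L := Module.Finite.of_basis b
  refine ⟨(-1) ^ (Module.finrank K L) * (LinearMap.polyCharpoly (LinearMap.mul K L) b).coeff 0,
    ?_, ?_⟩
  · have h1 := LinearMap.polyCharpoly_coeff_isHomogeneous (LinearMap.mul K L) b 0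
      (Fintype.card κ) (by rw [zero_add, Module.finrank_eq_card_basis b])
    have h2 : ((-1 : MvPolynomial κ K) ^ (Module.finrank K L)).IsHomogeneous 0 := by
      have : ((-1 : MvPolynomial κ K) ^ (Module.finrank K L))
          = C ((-1) ^ (Module.finrank K L)) := by simp
      rw [this]
      exact isHomogeneous_C _ _
    simpa using h2.mul h1
  · intro c
    have h1 := LinearMap.polyCharpoly_coeff_eval (LinearMap.mul K L) b
      (∑ i, c i • b i) 0
    have h2 : ⇑(b.repr (∑ i, c i • b i)) = c := b.repr_sum_self c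
    rw [h2] at h1
    rw [map_mul, h1, map_pow, map_neg, map_one, Algebra.norm_apply,
      LinearMap.det_eq_sign_charpoly_coeff]
    rfl

/-- Finite extensions of `C1` fields are `C1`. -/
theorem C1.finite_basis {K L κ : Type} [Field K] [Field L] [Algebra K L] [Fintype κ] [Nonempty κ]
    (b : Module.Basis κ K L) (hK : C1 K) : C1 L := by
  classical
  intro ι _ d P hd hι hP
  obtain ⟨F, hFh, hF⟩ := exists_normForm b
  have hr0 : 0 < Fintype.card κ := Fintype.card_pos
  have hQh : (aeval (fun l => mapCoeff (b.coord l) (gsub b P)) F :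
      MvPolynomial (ι × κ) K).IsHomogeneous (d * Fintype.card κ) :=
    hFh.aeval _ fun l => mapCoeff_hom _ _ d (gsub_hom _ P d hP)
  obtain ⟨c, hc, h⟩ := hK (ι × κ) (d * Fintype.card κ) _ (Nat.mul_pos hd hr0)
    (by
      rw [Fintype.card_prod]
      exact Nat.mul_lt_mul_of_pos_right hι hr0) hQh
  haveI : Module.Finite K L := Module.Finite.of_basis b
  have h1 : eval c (aeval (fun l => mapCoeff (b.coord l) (gsub b P)) F)
      = Algebra.norm K (eval (fun i => ∑ j, b j * algebraMap K L (c (i, j))) P) := by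
    have h2 : (eval c).comp (aeval (fun l => mapCoeff (b.coord l) (gsub b P)) :
        MvPolynomial κ K →ₐ[K] _).toRingHom
        = eval (fun l => eval c (mapCoeff (b.coord l) (gsub b P))) := by
      apply MvPolynomial.ringHom_ext
      · intro x; simp
      · intro i; simp
    have h3 := congrArg (fun f => f F) h2
    have h4 : eval c (aeval (fun l => mapCoeff (b.coord l) (gsub b P)) F)
        = eval (fun l => eval c (mapCoeff (b.coord l) (gsub b P))) F := h3
    rw [h4, hF]
    congr 1
    have h5 : ∀ l, eval c (mapCoeff (b.coord l) (gsub b P))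
        = b.repr (eval (fun i => ∑ j, b j * algebraMap K L (c (i, j))) P) l := by
      intro l
      rw [eval_mapCoeff, eval_gsub, Module.Basis.coord_apply]
    simp_rw [h5]
    exact b.sum_repr _
  rw [h1, Algebra.norm_eq_zero_iff] at h
  refine ⟨_, ?_, h⟩
  intro h0
  apply hc
  funext ⟨i, j⟩
  have h6 : ∑ j, c (i, j) • b j = 0 := by
    have := congrFun h0 i
    rw [Pi.zero_apply] at this
    rw [← this]
    exact Finset.sum_congr rfl fun j _ => by rw [Algebra.smul_def, mul_comm]
  exact (Fintype.linearIndependent_iff.1 b.linearIndependent _ h6) j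

theorem C1.finite {K L : Type} [Field K] [Field L] [Algebra K L] [Module.Finite K L]
    (hK : C1 K) : C1 L := by
  haveI : Nonempty (Fin (Module.finrank K L)) := ⟨⟨0, Module.finrank_pos⟩⟩
  exact C1.finite_basis (Module.finBasis K L) hK

/-- Norms are surjective onto a `C1` field. -/
theorem C1.norm_surj_basis {K L κ : Type} [Field K] [Field L] [Algebra K L] [Fintype κ]
    [Nonempty κ] (b : Module.Basis κ K L) (hK : C1 K) (f : K) :
    ∃ t : L, Algebra.norm K t = f := by
  classical
  obtain ⟨F, hFh, hF⟩ := exists_normForm b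
  have hn0 : 0 < Fintype.card κ := Fintype.card_pos
  haveI : Module.Finite K L := Module.Finite.of_basis b
  have hPh : (rename Sum.inl F - C f * X (Sum.inr ()) ^ (Fintype.card κ) :
      MvPolynomial (κ ⊕ Unit) K).IsHomogeneous (Fintype.card κ) := by
    refine IsHomogeneous.sub hFh.rename_isHomogeneous ?_
    exact isHomogeneous_C_mul_X_pow _ _ _
  obtain ⟨c, hc, h⟩ := hK (κ ⊕ Unit) (Fintype.card κ) _ hn0 (by simp) hPh
  have h1 : Algebra.norm K (∑ i, c (Sum.inl i) • b i)
      = f * (c (Sum.inr ())) ^ (Fintype.card κ) := by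
    rw [map_sub, eval_rename, map_mul, map_pow, eval_C, eval_X, sub_eq_zero] at h
    rw [← h]
    exact (hF (c ∘ Sum.inl)).symm
  have hs0 : c (Sum.inr ()) ≠ 0 := by
    intro hs0
    rw [hs0, zero_pow hn0.ne', mul_zero, Algebra.norm_eq_zero_iff] at h1
    apply hc
    funext i
    rcases i with i | i
    · exact (Fintype.linearIndependent_iff.1 b.linearIndependent _ h1) i
    · exact hs0
  refine ⟨(∑ i, c (Sum.inl i) • b i) * (algebraMap K L (c (Sum.inr ())))⁻¹, ?_⟩
  have h2 : Algebra.norm K ((algebraMap K L (c (Sum.inr ())))⁻¹)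
      = ((c (Sum.inr ())) ^ (Fintype.card κ))⁻¹ := by
    rw [← map_inv₀, Algebra.norm_algebraMap, inv_pow, Module.finrank_eq_card_basis b]
  rw [map_mul, h2, h1, mul_assoc, mul_inv_cancel₀ (pow_ne_zero _ hs0), mul_one]

theorem C1.norm_surj {K L : Type} [Field K] [Field L] [Algebra K L] [Module.Finite K L]
    (hK : C1 K) (f : K) : ∃ t : L, Algebra.norm K t = f := by
  haveI : Nonempty (Fin (Module.finrank K L)) := ⟨⟨0, Module.finrank_pos⟩⟩
  exact C1.norm_surj_basis (Module.finBasis K L) hK f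

/-- Curve fields over an algebraically closed field are `C1`. -/
theorem c1_curve (𝕜 k : Type) [Field 𝕜] [IsAlgClosed 𝕜] [Field k] [Algebra 𝕜 k]
    [IsCurveField 𝕜 k] : C1 k := by
  obtain ⟨t, ht, hfin⟩ := IsCurveField.exists_gen (𝕜 := 𝕜) (E := k)
  haveI := hfin
  have h0 : C1 (IntermediateField.adjoin 𝕜 {t}) := by
    refine c1_of_gen (𝕜 := 𝕜) ⟨t, IntermediateField.mem_adjoin_simple_self 𝕜 t⟩ ?_ ?_
    · intro halg
      apply ht
      exact halg.algebraMap (A := k)
    · rintro ⟨a, ha⟩
      obtain ⟨p, q, h⟩ := (IntermediateField.mem_adjoin_simple_iff 𝕜 a).1 ha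
      refine ⟨p, q, ?_⟩
      apply Subtype.ext
      change a = _
      rw [h]
      push_cast
      rw [← IntermediateField.algebraMap_apply, ← IntermediateField.algebraMap_apply,
        ← Polynomial.aeval_algebraMap_apply, ← Polynomial.aeval_algebraMap_apply]
      rfl
  exact h0.finite

/-- **Tsen**: the exported statement. -/
theorem tsen : TsenStmt := by
  intro 𝕜 k E _ _ _ _ _ _ _ _ _ _ _ x _ _ _ f
  exact (c1_curve 𝕜 k).norm_surj f

end MP7Z.Tsen
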