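import Pool.Agent.Lib.MP_7f581e_Z.FF.Spec

/-!
# Pow: powers of a Frobenius
-/

set_option autoImplicit false

namespace MP7Z

theorem tPow : FStmtPow := by
  intro 𝕜 E _ _ _ _ q φ hφ M hM
  refine ⟨hφ.primePow.pow hM.ne', ?_, ?_, ?_, ?_⟩
  · push_cast
    rw [hφ.card, zero_pow hM.ne']
  · intro c
    clear hM
    induction M with
    | zero => simp
    | succ M ih =>
      rw [pow_succ', RingAut.mul_apply, ih, hφ.frob, ← pow_mul, pow_succ]
  · intro f
    obtain ⟨n, hn, h⟩ := hφ.fin f
    refine ⟨n, hn, ?_⟩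
    rw [← pow_mul, mul_comm, pow_mul]
    clear hM
    induction M with
    | zero => simp
    | succ M ih => rw [pow_succ, RingAut.mul_apply, h, ih]
  · obtain ⟨x, hx, h1, h2⟩ := hφ.sep
    refine ⟨x, ?_, h1, h2⟩
    clear hM
    induction M with
    | zero => simp
    | succ M ih => rw [pow_succ, RingAut.mul_apply, hx, ih]

end MP7Z
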