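import Pool.Agent.Lib.MP_7f581e_Z.FF.Spec

/-!
# BadDisj: bad places and their translates
-/

set_option autoImplicit false

namespace MP7Z

theorem BadDisjM.pow_pos {𝕜 E : Type} [Field 𝕜] [Field E] [Algebra 𝕜 E] (v : Place 𝕜 E) (y : E)
    (hy : 0 < v.ord (y - 1)) (n : ℕ) : 0 < v.ord (y ^ n - 1) := by
  have h1 : 0 ≤ v.ord y := by
    have h2 : y = (y - 1) + 1 := by ring
    rw [h2]
    refine le_trans (le_min hy.le ?_) (v.ord.map_add _ _)
    rw [AddValuation.map_one]
  have h3 : y ^ n - 1 = (y - 1) * ∑ i ∈ Finset.range n, y ^ i := by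
    rw [mul_comm, geom_sum_mul]
  rw [h3, AddValuation.map_mul]
  have h4 : 0 ≤ v.ord (∑ i ∈ Finset.range n, y ^ i) := by
    apply AddValuation.map_le_sum
    intro i _
    rw [AddValuation.map_pow]
    exact nsmul_nonneg h1 i
  exact lt_of_lt_of_le hy (le_add_of_nonneg_right h4)

theorem tBadDisj : FStmtBadDisj := by
  classical
  intro 𝕜 E _ _ _ _ _ ℓ hℓ ζ hζ x σ hσ v hv hv'
  rcases hv with hv | ⟨m, hm, hmc, hv⟩
  · exact hv
  · exfalso
    have hζ0 : ζ ≠ 0 := hζ.ne_zero hℓ.ne_zero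
    have hx0 : v.ord x = 0 := by
      have h1 : v.ord (x ^ m) = 0 := by
        have h2 : x ^ m = (x ^ m - 1) + 1 := by ring
        rw [h2, AddValuation.map_add_eq_of_lt_right v.ord (by
          rw [AddValuation.map_one]; exact hv)]
        exact AddValuation.map_one v.ord
      rw [AddValuation.map_pow] at h1
      have hx : x ≠ 0 := by
        rintro rfl
        rw [AddValuation.map_zero] at h1
        obtain ⟨k, rfl⟩ : ∃ k, m = k + 1 := ⟨m - 1, by omega⟩
        rw [succ_nsmul, WithTop.add_top] at h1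
        exact WithTop.top_ne_zero h1
      rw [v.ord_eq_pord hx] at h1 ⊢
      have h3 : (m : ℤ) * v.pord x = 0 := by
        have h4 : m • ((v.pord x : ℤ) : WithTop ℤ) = (((m : ℤ) * v.pord x : ℤ) : WithTop ℤ) := by
          rw [← nsmul_eq_mul]
          exact (WithTop.coe_nsmul _ _).symm
        rw [h4] at h1
        exact_mod_cast h1
      have h5 : v.pord x = 0 := by
        rcases mul_eq_zero.1 h3 with h6 | h6
        · omega
        · exact h6
      rw [h5]; rfl
    rcases hv' with hv' | ⟨m', hm', hmc', hv'⟩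
    · rw [Place.comap_ord] at hv'
      have h1 : ((σ : E ≃+* E)) x = algebraMap 𝕜 E ζ * x := hσ
      rw [h1, AddValuation.map_mul, v.ord_const hζ0, hx0] at hv'
      simp at hv'
    · rw [Place.comap_ord] at hv'
      have h1 : ((σ : E ≃+* E)) (x ^ m' - 1) = (algebraMap 𝕜 E ζ * x) ^ m' - 1 := by
        rw [map_sub, map_pow, map_one]
        have h1 : ((σ : E ≃+* E)) x = algebraMap 𝕜 E ζ * x := hσ
        rw [h1]
      rw [h1] at hv'
      have h2 := BadDisjM.pow_pos v _ hv m'
      have h3 := BadDisjM.pow_pos v _ hv' m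
      rw [← pow_mul] at h2 h3
      -- ζ^(m m') - 1
      have h4 : algebraMap 𝕜 E (ζ ^ (m' * m) - 1)
          = ((algebraMap 𝕜 E ζ * x) ^ (m' * m) - 1)
            - algebraMap 𝕜 E (ζ ^ (m' * m)) * (x ^ (m * m') - 1) := by
        rw [map_sub, map_one, map_pow, mul_pow, mul_comm m m']
        ring
      have h5 : 0 < v.ord (algebraMap 𝕜 E (ζ ^ (m' * m) - 1)) := by
        rw [h4]
        refine lt_of_lt_of_le (lt_min h3 ?_) (v.ord.map_sub _ _)
        rw [AddValuation.map_mul, v.ord_const (pow_ne_zero _ hζ0), zero_add]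
        exact h2
      have h6 : ζ ^ (m' * m) - 1 = 0 := by
        by_contra hne
        rw [v.ord_const hne] at h5
        exact lt_irrefl _ h5
      have h7 := (hζ.pow_eq_one_iff_dvd _).1 (sub_eq_zero.1 h6)
      rcases (Nat.Prime.dvd_mul hℓ).1 h7 with h8 | h8
      · exact hℓ.one_lt.ne' (Nat.Coprime.eq_one_of_dvd hmc'.symm h8)
      · exact hℓ.one_lt.ne' (Nat.Coprime.eq_one_of_dvd hmc.symm h8)

end MP7Z
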