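import Pool.Agent.Lib.MP_7f581e_Z.Crv.Frob

/-!
# Riemann-Roch spaces: finite dimensionality and the step D -> D + v (port of MP_966ccb_ag/Curve/RRaux)
-/

namespace MP7Z

variable {𝕜 E : Type} [Field 𝕜] [IsAlgClosed 𝕜] [Field E] [Algebra 𝕜 E]

theorem exists_int_ord (v : Place 𝕜 E) {f : E} (hf : f ≠ 0) :
    ∃ n : ℤ, v.ord f = ((n : ℤ) : WithTop ℤ) := by
  obtain ⟨n, hn⟩ := WithTop.ne_top_iff_exists.mp ((AddValuation.ne_top_iff v.ord).mpr hf)
  exact ⟨n, hn.symm⟩

theorem ord_inv_of {v : Place 𝕜 E} {f : E} {n : ℤ} (h : v.ord f = ((n : ℤ) : WithTop ℤ)) :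
    v.ord f⁻¹ = ((-n : ℤ) : WithTop ℤ) := by
  have hf : f ≠ 0 := by
    rintro rfl
    rw [AddValuation.map_zero] at h
    exact WithTop.coe_ne_top h.symm
  obtain ⟨m, hm⟩ := exists_int_ord v (inv_ne_zero hf)
  have h1 : v.ord (f * f⁻¹) = v.ord 1 := by rw [mul_inv_cancel₀ hf]
  rw [AddValuation.map_mul, h, hm, AddValuation.map_one] at h1
  have h2 : n + m = 0 := by exact_mod_cast h1
  rw [hm]
  have h3 : m = -n := by omega
  rw [h3]

theorem le_ord_mul {v : Place 𝕜 E} {f g : E} {a b c : ℤ} (hf : ((a : ℤ) : WithTop ℤ) ≤ v.ord f)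
    (hg : ((b : ℤ) : WithTop ℤ) ≤ v.ord g) (hc : c ≤ a + b) :
    ((c : ℤ) : WithTop ℤ) ≤ v.ord (f * g) := by
  rw [AddValuation.map_mul]
  calc ((c : ℤ) : WithTop ℤ) ≤ ((a + b : ℤ) : WithTop ℤ) := by exact_mod_cast hc
    _ = ((a : ℤ) : WithTop ℤ) + ((b : ℤ) : WithTop ℤ) := by push_cast; rfl
    _ ≤ _ := add_le_add hf hg

theorem ord_mul_eq {v : Place 𝕜 E} {f g : E} {a b c : ℤ} (hf : v.ord f = ((a : ℤ) : WithTop ℤ))
    (hg : v.ord g = ((b : ℤ) : WithTop ℤ)) (hc : c = a + b) :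
    v.ord (f * g) = ((c : ℤ) : WithTop ℤ) := by
  rw [AddValuation.map_mul, hf, hg, hc]
  push_cast
  rfl

theorem ord_zpow {v : Place 𝕜 E} {z : E} (hz : v.ord z = 1) (n : ℤ) :
    v.ord (z ^ n) = ((n : ℤ) : WithTop ℤ) := by
  have hz1 : v.ord z = (((1 : ℤ)) : WithTop ℤ) := by rw [hz]; rfl
  have hnat : ∀ m : ℕ, v.ord (z ^ m) = (((m : ℤ)) : WithTop ℤ) := by
    intro m
    induction m with
    | zero => simp
    | succ m ih =>
      rw [pow_succ]
      exact ord_mul_eq ih hz1 (by push_cast; ring)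
  obtain ⟨m, rfl | rfl⟩ := n.eq_nat_or_neg
  · rw [zpow_natCast]
    exact hnat m
  · rw [zpow_neg, zpow_natCast]
    exact ord_inv_of (hnat m)

theorem lt_coe_succ {x : WithTop ℤ} {n : ℤ} (h : ((n : ℤ) : WithTop ℤ) < x) :
    ((n + 1 : ℤ) : WithTop ℤ) ≤ x := by
  rcases eq_or_ne x ⊤ with rfl | hx
  · exact le_top
  · obtain ⟨m, rfl⟩ := WithTop.ne_top_iff_exists.mp hx
    have h1 : n < m := by exact_mod_cast h
    have h2 : n + 1 ≤ m := by omega
    exact_mod_cast h2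

theorem Lsp_mono {D D' : Place 𝕜 E → ℤ} (h : ∀ v, D v ≤ D' v) : Lsp D ≤ Lsp D' := by
  intro f hf v
  refine le_trans ?_ (hf v)
  have := neg_le_neg (h v)
  exact_mod_cast this

theorem ord_of_step {D D' : Place 𝕜 E → ℤ} {v : Place 𝕜 E} (hv : D' v = D v + 1)
    (h : ∀ w, w ≠ v → D' w = D w) {g : E} (hg : g ∈ Lsp D') (hg' : g ∉ Lsp D) :
    v.ord g = ((-D v - 1 : ℤ) : WithTop ℤ) := by
  have h0 : g ≠ 0 := by
    rintro rfl
    exact hg' (Submodule.zero_mem _)
  obtain ⟨n, hn⟩ := exists_int_ord v h0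
  have h1 := hg v
  rw [hn, hv] at h1
  have h1' : -(D v + 1) ≤ n := by exact_mod_cast h1
  by_contra hne
  apply hg'
  intro w
  by_cases hw : w = v
  · subst hw
    rw [hn]
    have : n ≠ -D w - 1 := by
      rintro rfl
      exact hne hn
    have h2 : -D w ≤ n := by omega
    exact_mod_cast h2
  · have := hg w
    rwa [h w hw] at this

variable [IsCurveField 𝕜 E]

theorem step_sup {D D' : Place 𝕜 E → ℤ} {v : Place 𝕜 E} (hv : D' v = D v + 1)
    (h : ∀ w, w ≠ v → D' w = D w) {g : E} (hg : g ∈ Lsp D') (hg' : g ∉ Lsp D) :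
    Lsp D' = Lsp D ⊔ Submodule.span 𝕜 {g} := by
  have hvg := ord_of_step hv h hg hg'
  have h0 : g ≠ 0 := by
    rintro rfl
    exact hg' (Submodule.zero_mem _)
  apply le_antisymm
  · intro f hf
    have h1 : ((0 : ℤ) : WithTop ℤ) ≤ v.ord (f * g⁻¹) := by
      refine le_ord_mul (hf v) (ord_inv_of hvg).ge ?_
      rw [hv]; omega
    obtain ⟨c, hc⟩ := exists_const v h1
    have h2 : f - c • g ∈ Lsp D := by
      intro w
      by_cases hw : w = v
      · subst hw
        have h3 : f - c • g = (f * g⁻¹ - algebraMap 𝕜 E c) * g := by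
          rw [sub_mul, mul_assoc, inv_mul_cancel₀ h0, mul_one, Algebra.smul_def]
        rw [h3]
        have h4 : ((0 + 1 : ℤ) : WithTop ℤ) ≤ w.ord (f * g⁻¹ - algebraMap 𝕜 E c) := lt_coe_succ hc
        exact le_ord_mul h4 hvg.ge (by omega)
      · have h5 : f - c • g ∈ Lsp D' := Submodule.sub_mem _ hf (Submodule.smul_mem _ _ hg)
        have := h5 w
        rwa [h w hw] at this
    rw [Submodule.mem_sup]
    exact ⟨f - c • g, h2, c • g, Submodule.smul_mem _ _ (Submodule.mem_span_singleton_self g),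
      by ring⟩
  · refine sup_le ?_ ?_
    · apply Lsp_mono
      intro w
      by_cases hw : w = v
      · subst hw; rw [hv]; omega
      · rw [h w hw]
    · rw [Submodule.span_le]
      rintro x rfl
      exact hg

omit [IsCurveField 𝕜 E] in
theorem step_cases {D D' : Place 𝕜 E → ℤ} {v : Place 𝕜 E} (hv : D' v = D v + 1)
    (h : ∀ w, w ≠ v → D' w = D w) :
    Lsp D' = Lsp D ∨ ∃ g ∈ Lsp D', g ∉ Lsp D := by
  by_cases h1 : ∃ g ∈ Lsp D', g ∉ Lsp D
  · exact Or.inr h1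
  · left
    push Not at h1
    apply le_antisymm h1
    apply Lsp_mono
    intro w
    by_cases hw : w = v
    · subst hw; rw [hv]; omega
    · rw [h w hw]

theorem step_finite {D D' : Place 𝕜 E → ℤ} {v : Place 𝕜 E} (hv : D' v = D v + 1)
    (h : ∀ w, w ≠ v → D' w = D w) (hf : Module.Finite 𝕜 (Lsp D)) : Module.Finite 𝕜 (Lsp D') := by
  rcases step_cases hv h with h1 | ⟨g, hg, hg'⟩
  · rw [h1]; exact hf
  · rw [step_sup hv h hg hg']
    exact Submodule.finite_sup _ _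

theorem step_finrank {D D' : Place 𝕜 E → ℤ} {v : Place 𝕜 E} (hv : D' v = D v + 1)
    (h : ∀ w, w ≠ v → D' w = D w) (hf : Module.Finite 𝕜 (Lsp D)) {g : E} (hg : g ∈ Lsp D')
    (hg' : g ∉ Lsp D) : Module.finrank 𝕜 (Lsp D') = Module.finrank 𝕜 (Lsp D) + 1 := by
  rw [step_sup hv h hg hg']
  have h1 := Submodule.finrank_sup_add_finrank_inf_eq (Lsp D) (Submodule.span 𝕜 {g})
  have h0 : g ≠ 0 := by
    rintro rfl
    exact hg' (Submodule.zero_mem _)
  have h2 : Lsp D ⊓ Submodule.span 𝕜 {g} = ⊥ := by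
    rw [eq_bot_iff]
    rintro x ⟨hx1, hx2⟩
    obtain ⟨c, rfl⟩ := Submodule.mem_span_singleton.mp hx2
    rcases eq_or_ne c 0 with rfl | hc
    · simp
    · exfalso
      apply hg'
      have := Submodule.smul_mem (Lsp D) c⁻¹ hx1
      rwa [smul_smul, inv_mul_cancel₀ hc, one_smul] at this
  rw [h2, finrank_bot, finrank_span_singleton h0] at h1
  omega

theorem Lsp_zero_le {D : Place 𝕜 E → ℤ} (hD : ∀ v, D v ≤ 0) :
    Lsp D ≤ Submodule.span 𝕜 {(1 : E)} := by
  intro f hf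
  obtain ⟨c, hc⟩ := exists_const_of_nonneg (f := f) (fun v => by
    refine le_trans ?_ (hf v)
    have : (0 : ℤ) ≤ -D v := by have := hD v; omega
    exact_mod_cast this)
  rw [hc, Algebra.algebraMap_eq_smul_one]
  exact Submodule.smul_mem _ _ (Submodule.mem_span_singleton_self _)

theorem Lsp_zero : Lsp (fun _ : Place 𝕜 E => (0 : ℤ)) = Submodule.span 𝕜 {(1 : E)} := by
  apply le_antisymm (Lsp_zero_le fun v => le_refl _)
  rw [Submodule.span_le]
  rintro x rfl v
  simp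

theorem finrank_Lsp_zero : Module.finrank 𝕜 (Lsp (fun _ : Place 𝕜 E => (0 : ℤ))) = 1 := by
  rw [Lsp_zero, finrank_span_singleton one_ne_zero]

theorem finite_Lsp_multiset (M : Multiset (Place 𝕜 E)) :
    open Classical in Module.Finite 𝕜 (Lsp (fun v => (M.count v : ℤ))) := by
  classical
  induction M using Multiset.induction with
  | empty =>
    have h0 : (fun v : Place 𝕜 E => ((Multiset.count v (0 : Multiset (Place 𝕜 E)) : ℕ) : ℤ)) =
        fun _ => 0 := by
      funext v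
      simp
    rw [h0, Lsp_zero]
    infer_instance
  | cons v M ih =>
    refine step_finite (D := fun v => (M.count v : ℤ)) (v := v) ?_ ?_ ih
    · simp
    · intro w hw
      simp [Multiset.count_cons_of_ne hw]

omit [IsCurveField 𝕜 E] in
theorem finite_of_le {D D' : Place 𝕜 E → ℤ} (h : ∀ v, D v ≤ D' v) (hf : Module.Finite 𝕜 (Lsp D')) :
    Module.Finite 𝕜 (Lsp D) := by
  have h1 := Lsp_mono h
  exact Submodule.finiteDimensional_of_le h1

theorem finite_Lsp_aux (D : Place 𝕜 E →₀ ℤ) : Module.Finite 𝕜 (Lsp (D : Place 𝕜 E → ℤ)) := by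
  classical
  have h1 := finite_Lsp_multiset (Finsupp.toMultiset (D.mapRange Int.toNat (by simp)))
  refine finite_of_le ?_ h1
  intro v
  rw [Finsupp.count_toMultiset]
  simp only [Finsupp.mapRange_apply]
  exact Int.self_le_toNat _

end MP7Z
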