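import Pool.Agent.Lib.MP_7f581e_Z.FF.Spec

/-!
# Card: the number of fixed vectors
-/

set_option autoImplicit false

namespace MP7Z

theorem tCard (h0 : FStmtSpan) (h1 : FStmtFixCard) : FStmtCard := by
  classical
  intro 𝕜 E _ _ _ _ q φ hφ W hW hst
  have hspan := h0 𝕜 E q φ hφ W hst
  obtain ⟨b, hbS, hbspan, hbli⟩ := exists_linearIndependent 𝕜 {w : E | w ∈ W ∧ φ w = w}
  have hWb : Submodule.span 𝕜 b = W := by
    apply le_antisymm
    · rw [Submodule.span_le]
      intro x hx
      exact (hbS hx).1
    · rw [hbspan]; exact hspan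
  have hfin : Finite b := by
    have h2 : LinearIndependent 𝕜 (fun x : b => (⟨x.1, (hbS x.2).1⟩ : W)) := by
      apply LinearIndependent.of_comp W.subtype
      exact hbli
    exact h2.finite
  haveI : Fintype b := Fintype.ofFinite b
  have hrank : Module.finrank 𝕜 W = Fintype.card b := by
    have := finrank_span_set_eq_card hbli
    rw [hWb] at this
    rw [this, Set.toFinset_card]
  have hφs : ∀ c : b → 𝕜, φ (∑ i, c i • (i : E)) = ∑ i, (c i) ^ q • (i : E) := by
    intro c
    rw [map_sum]
    refine Finset.sum_congr rfl fun i _ => ?_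
    rw [Algebra.smul_def, map_mul, hφ.frob, (hbS i.2).2, ← Algebra.smul_def]
  have hli := Fintype.linearIndependent_iff.1 hbli
  have huniq : ∀ c d : b → 𝕜, ∑ i, c i • (i : E) = ∑ i, d i • (i : E) → c = d := by
    intro c d h
    have h2 : ∑ i, (c i - d i) • (i : E) = 0 := by
      simp_rw [sub_smul]
      rw [Finset.sum_sub_distrib, h, sub_self]
    funext i
    exact sub_eq_zero.1 (hli _ h2 i)
  let F : (b → {c : 𝕜 // c ^ q = c}) → {w : E // w ∈ W ∧ φ w = w} := fun c =>
    ⟨∑ i, (c i : 𝕜) • (i : E), W.sum_mem fun i _ => W.smul_mem _ (hbS i.2).1, by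
      rw [hφs]
      exact Finset.sum_congr rfl fun i _ => by rw [(c i).2]⟩
  have hF : Function.Bijective F := by
    constructor
    · intro c d h
      have h2 := congrArg Subtype.val h
      have h3 := huniq (fun i => (c i : 𝕜)) (fun i => (d i : 𝕜)) h2
      funext i
      exact Subtype.ext (congrFun h3 i)
    · rintro ⟨w, hw, hw'⟩
      rw [← hWb, ← Subtype.range_coe (s := b), Submodule.mem_span_range_iff_exists_fun] at hw
      obtain ⟨c, hc⟩ := hw
      have h2 : (fun i => (c i) ^ q) = c := by
        apply huniq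
        rw [← hφs]
        have h3 : ∑ i, c i • (i : E) = w := hc
        rw [h3]
        exact hw'
      refine ⟨fun i => ⟨c i, congrFun h2 i⟩, Subtype.ext hc⟩
  rw [← Nat.card_congr (Equiv.ofBijective F hF), Nat.card_fun,
    h1 𝕜 q hφ.primePow.one_lt hφ.card, Nat.card_eq_fintype_card, hrank]

end MP7Z
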