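import Pool.Agent.Lib.MP_7f581e_Z.FF.Spec

/-!
# Package FF: the class group of degree zero is finite
-/

set_option autoImplicit false

namespace MP7Z

namespace ClFinM

variable {𝕜 E : Type} [Field 𝕜] [IsAlgClosed 𝕜] [Field E] [Algebra 𝕜 E]

omit [IsAlgClosed 𝕜] in
/-- sums of coefficients of an effective divisor -/
theorem sum_le_dg {A : Place 𝕜 E →₀ ℤ} (hA : ∀ v, 0 ≤ A v) (T : Finset (Place 𝕜 E)) :
    ∑ v ∈ T, A v ≤ dg A := by
  classical
  rw [dg_eq, Finsupp.sum]
  calc ∑ v ∈ T, A v ≤ ∑ v ∈ T ∪ A.support, A v :=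
        Finset.sum_le_sum_of_subset_of_nonneg Finset.subset_union_left fun v _ _ => hA v
    _ = ∑ v ∈ A.support, A v := by
        symm
        refine Finset.sum_subset Finset.subset_union_right fun v _ hv => ?_
        exact Finsupp.notMem_support_iff.1 hv

theorem inv_pow {φ : E ≃+* E} {A : Place 𝕜 E →₀ ℤ} (hA : ∀ v : Place 𝕜 E, A (v.comap φ) = A v)
    (v : Place 𝕜 E) (i : ℕ) : A (v.comap (φ ^ i)) = A v := by
  induction i with
  | zero => rw [pow_zero, Place.comap_one]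
  | succ i ih => rw [pow_succ, Place.comap_mul, hA, ih]

/-- a multiple of a period is a period -/
theorem comap_pow_mul {φ : E ≃+* E} {v : Place 𝕜 E} {k : ℕ} (h : v.comap (φ ^ k) = v) (l : ℕ) :
    v.comap (φ ^ (k * l)) = v := by
  induction l with
  | zero => rw [mul_zero, pow_zero, Place.comap_one]
  | succ l ih => rw [mul_add, mul_one, pow_add, Place.comap_mul, ih, h]

/-- the places in the support of an effective invariant divisor of degree `b` have small orbits -/
theorem period {φ : E ≃+* E} {A : Place 𝕜 E →₀ ℤ} (hA : ∀ v : Place 𝕜 E, A (v.comap φ) = A v)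
    (h0 : ∀ v, 0 ≤ A v) {b : ℕ} (hb : dg A = b) {v : Place 𝕜 E} (hv : 0 < A v) :
    v.comap (φ ^ b.factorial) = v := by
  classical
  obtain ⟨i, hi, j, hj, hij, he⟩ : ∃ i ∈ Finset.range (b + 1), ∃ j ∈ Finset.range (b + 1), i < j ∧
      v.comap (φ ^ i) = v.comap (φ ^ j) := by
    by_contra hcon
    push Not at hcon
    have hinj : Set.InjOn (fun i : ℕ => v.comap (φ ^ i)) (Finset.range (b + 1) : Set ℕ) := by
      intro i hi j hj hij
      rcases lt_trichotomy i j with h | h | h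
      · exact absurd hij (hcon i hi j hj h)
      · exact h
      · exact absurd hij.symm (hcon j hj i hi h)
    have h1 := sum_le_dg h0 ((Finset.range (b + 1)).image fun i : ℕ => v.comap (φ ^ i))
    rw [Finset.sum_image hinj, hb] at h1
    have h2 : ∑ i ∈ Finset.range (b + 1), A (v.comap (φ ^ i)) = (b + 1 : ℤ) * A v := by
      rw [Finset.sum_congr rfl fun i _ => inv_pow hA v i, Finset.sum_const, Finset.card_range,
        nsmul_eq_mul]
      push_cast
      ring
    rw [h2] at h1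
    nlinarith
  have hk : v.comap (φ ^ (j - i)) = v := by
    have h1 : φ ^ j = φ ^ i * φ ^ (j - i) := by
      rw [← pow_add]
      congr 1
      omega
    have h2 : φ ^ j = φ ^ (j - i) * φ ^ i := by
      rw [← pow_add]
      congr 1
      omega
    have h3 : (v.comap (φ ^ (j - i))).comap (φ ^ i) = v.comap (φ ^ i) := by
      rw [← Place.comap_mul, ← h2, ← he]
    exact (comapEquiv 𝕜 (φ ^ i)).injective h3
  obtain ⟨l, hl⟩ : (j - i) ∣ b.factorial :=
    Nat.dvd_factorial (by omega) (by have := Finset.mem_range.1 hj; omega)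
  rw [hl]
  exact comap_pow_mul hk l

end ClFinM

open ClFinM in
theorem tClFin (h0 : RiemannStmt) (h1 : FStmtSpan) (h2 : FStmtFin) : FStmtClFin := by
  intro 𝕜 E _ _ _ _ _ q φ hφ
  classical
  obtain ⟨x, hx, hxt, hxs⟩ := hφ.sep
  obtain ⟨hfin, hprin, g, N, hRR⟩ := h0 𝕜 E x hxt hxs
  have hprin' : ∀ f : E, f ≠ 0 → dg (dv 𝕜 f) = 0 := fun f hf => hprin f hf _ fun v => rfl
  -- the divisor of poles
  set B : Place 𝕜 E →₀ ℤ := pol 𝕜 x with hB
  have hBinv : ∀ v : Place 𝕜 E, B (v.comap φ) = B v := by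
    intro v
    rw [hB, pol_apply, pol_apply, Place.comap_pord, hx]
  have hB0 : ∀ v, 0 ≤ B v := fun v => by rw [hB, pol_apply]; exact le_max_right _ _
  have hx0 : x ≠ 0 := by
    rintro rfl
    exact hxt isAlgebraic_zero
  have hBpos : 1 ≤ dg B := by
    obtain ⟨v, hv⟩ : ∃ v : Place 𝕜 E, v.ord x < 0 := by
      by_contra hcon
      push Not at hcon
      obtain ⟨c, hc⟩ := exists_const_of_nonneg (𝕜 := 𝕜) (f := x) hcon
      rw [hc] at hxt
      exact hxt (isAlgebraic_algebraMap c)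
    have h3 : v.pord x < 0 := by
      rw [v.ord_eq_pord hx0] at hv
      exact_mod_cast hv
    have h4 := sum_le_dg hB0 {v}
    rw [Finset.sum_singleton] at h4
    have h5 : B v = -v.pord x := by
      rw [hB, pol_apply, max_eq_left]
      omega
    omega
  obtain ⟨m, hm1, hm2⟩ : ∃ m : ℕ, N ≤ m * dg B ∧ (g : ℤ) ≤ m * dg B := by
    refine ⟨N.toNat + g, ?_, ?_⟩
    · have h3 := Int.self_le_toNat N
      push_cast
      nlinarith [mul_nonneg (show (0 : ℤ) ≤ (N.toNat : ℤ) + g by positivity)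
        (show (0 : ℤ) ≤ dg B - 1 by omega)]
    · push_cast
      nlinarith [mul_nonneg (show (0 : ℤ) ≤ (N.toNat : ℤ) + g by positivity)
        (show (0 : ℤ) ≤ dg B - 1 by omega), Int.natCast_nonneg N.toNat]
  have hb0 : 0 ≤ (m : ℤ) * dg B := by positivity
  obtain ⟨b, hb⟩ := Int.eq_ofNat_of_zero_le hb0
  have hdgmB : dg (m • B) = b := by
    rw [map_nsmul, nsmul_eq_mul, hb]
  have hmBinv : ∀ v : Place 𝕜 E, (m • B) (v.comap φ) = (m • B) v := by
    intro v
    rw [Finsupp.smul_apply, Finsupp.smul_apply, hBinv]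
  -- effective invariant divisors of degree `b`
  let S : Set (Place 𝕜 E →₀ ℤ) := {A | (∀ v, 0 ≤ A v) ∧ (∀ v : Place 𝕜 E, A (v.comap φ) = A v) ∧
    dg A = b}
  have hSfin : S.Finite := by
    have hT : {v : Place 𝕜 E | v.comap (φ ^ b.factorial) = v}.Finite :=
      (h2 𝕜 E q φ hφ).1 _ (Nat.factorial_pos b)
    refine (Finset.finite_toSet (hT.toFinset.finsupp fun _ => Finset.Icc (0 : ℤ) b)).subset ?_
    rintro A ⟨hA0, hAinv, hAb⟩
    rw [Finset.mem_coe, Finset.mem_finsupp_iff]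
    refine ⟨fun v hv => ?_, fun v _ => ?_⟩
    · rw [Set.Finite.mem_toFinset]
      have h3 : A v ≠ 0 := Finsupp.mem_support_iff.1 hv
      exact period hAinv hA0 hAb (lt_of_le_of_ne (hA0 v) h3.symm)
    · rw [Finset.mem_Icc]
      refine ⟨hA0 v, ?_⟩
      have h3 := sum_le_dg hA0 {v}
      rw [Finset.sum_singleton, hAb] at h3
      exact h3
  haveI : Finite S := hSfin
  have hmem : ∀ A ∈ S, A - m • B ∈ Inv0 𝕜 φ := by
    rintro A ⟨-, hAinv, hAb⟩
    refine ⟨?_, ?_⟩
    · rw [← inv_iff]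
      intro v
      rw [Finsupp.sub_apply, Finsupp.sub_apply, hAinv, hmBinv]
    · rw [map_sub, hAb, hdgmB, sub_self]
  let F : S → Cl0 𝕜 φ := fun A => QuotientAddGroup.mk ⟨A.1 - m • B, hmem A.1 A.2⟩
  refine Finite.of_surjective F ?_
  intro c
  obtain ⟨⟨D, hD1, hD2⟩, rfl⟩ := QuotientAddGroup.mk_surjective c
  have hDinv : ∀ v : Place 𝕜 E, D (v.comap φ) = D v := (inv_iff φ D).2 hD1
  set D' := D + m • B with hD'
  have hD'inv : ∀ v : Place 𝕜 E, D' (v.comap φ) = D' v := by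
    intro v
    rw [hD', Finsupp.add_apply, Finsupp.add_apply, hDinv, hmBinv]
  have hD'dg : dg D' = b := by rw [hD', map_add, hD2, hdgmB, zero_add]
  have hell := hRR D' (by
    rw [← dg_eq, hD'dg, ← hb]
    exact hm1)
  rw [← dg_eq, hD'dg] at hell
  -- a nonzero fixed element of `L(D')`
  obtain ⟨w, hw, hwφ, hw0⟩ : ∃ w ∈ Lsp (D' : Place 𝕜 E → ℤ), φ w = w ∧ w ≠ 0 := by
    by_contra hcon
    push Not at hcon
    have h3 := h1 𝕜 E q φ hφ (Lsp (D' : Place 𝕜 E → ℤ)) (by
      intro f hf v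
      have h4 := hf (v.comap φ)
      rw [hD'inv, Place.comap_ord] at h4
      exact h4)
    have h5 : Submodule.span 𝕜 {w | w ∈ Lsp (D' : Place 𝕜 E → ℤ) ∧ φ w = w} = ⊥ := by
      rw [Submodule.span_eq_bot]
      rintro w ⟨hw1, hw2⟩
      exact hcon w hw1 hw2
    rw [h5, le_bot_iff] at h3
    rw [h3, finrank_bot] at hell
    omega
  have hA : D' + dv 𝕜 w ∈ S := by
    refine ⟨fun v => ?_, fun v => ?_, ?_⟩
    · rw [Finsupp.add_apply, dv_apply]
      have h3 := hw v
      rw [v.ord_eq_pord hw0] at h3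
      have h4 : -D' v ≤ v.pord w := by exact_mod_cast h3
      omega
    · have h3 : dv 𝕜 w (v.comap φ) = dv 𝕜 w v := by
        rw [dv_apply, dv_apply, Place.comap_pord, hwφ]
      rw [Finsupp.add_apply D', Finsupp.add_apply D', h3, hD'inv]
    · rw [map_add, hD'dg, hprin' w hw0, add_zero]
  refine ⟨⟨D' + dv 𝕜 w, hA⟩, ?_⟩
  rw [QuotientAddGroup.eq, AddSubgroup.mem_addSubgroupOf]
  refine ⟨w⁻¹, inv_ne_zero hw0, by rw [map_inv₀, hwφ], ?_⟩
  rw [dv_inv hw0]
  change -(D' + dv 𝕜 w - m • B) + D = -dv 𝕜 w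
  rw [hD']
  abel

end MP7Z
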