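import Pool.Agent.Lib.MP_7f581e_Z.FF.Spec

/-!
# Clear: clearing poles with polynomials in `x`
-/

set_option autoImplicit false

namespace MP7Z

open Polynomial in
theorem tClear : FStmtClear := by
  classical
  intro 𝕜 E _ _ _ _ _ x hx z
  rcases eq_or_ne z 0 with rfl | hz
  · refine ⟨1, one_ne_zero, fun v hv => ?_⟩
    rw [zero_mul, Place.pord_zero] at hv
    exact absurd hv (lt_irrefl _)
  have hinj : Function.Injective (Polynomial.aeval x : 𝕜[X] →ₐ[𝕜] E) :=
    transcendental_iff_injective.1 hx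
  have hx0 : x ≠ 0 := by
    rintro rfl
    exact hx isAlgebraic_zero
  -- the poles of z that are not poles of x
  have hfin : {v : Place 𝕜 E | v.pord z < 0 ∧ ¬ v.pord x < 0}.Finite :=
    (finite_pord_ne z).subset fun v hv => hv.1.ne
  set S := hfin.toFinset with hS
  have hmemS : ∀ v, v ∈ S ↔ (v.pord z < 0 ∧ ¬ v.pord x < 0) := by
    intro v; rw [hS, Set.Finite.mem_toFinset]; rfl
  have hres : ∀ v : Place 𝕜 E, ∃ a : 𝕜, ¬ v.pord x < 0 → 0 < v.ord (x - algebraMap 𝕜 E a) := by
    intro v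
    by_cases h : v.pord x < 0
    · exact ⟨0, fun h' => absurd h h'⟩
    · have h1 : 0 ≤ v.ord x := by
        rw [v.ord_eq_pord hx0]
        push Not at h
        exact_mod_cast h
      obtain ⟨a, ha⟩ := exists_const v h1
      exact ⟨a, fun _ => ha⟩
  choose a ha using hres
  set d : 𝕜[X] := ∏ v ∈ S, (X - C (a v)) ^ (-v.pord z).toNat with hd
  have hd0 : d ≠ 0 := Finset.prod_ne_zero_iff.2 fun v _ => pow_ne_zero _ (X_sub_C_ne_zero _)
  have had0 : Polynomial.aeval x d ≠ 0 := fun h => hd0 (hinj (by rw [h, map_zero]))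
  refine ⟨d, hd0, fun v hv => ?_⟩
  by_contra hvx
  have hx1 : 0 ≤ v.ord x := by
    rw [v.ord_eq_pord hx0]
    push Not at hvx
    exact_mod_cast hvx
  rw [v.pord_mul hz had0] at hv
  have h1 : 0 ≤ v.pord (Polynomial.aeval x d) := by
    rw [v.le_pord_iff had0]
    exact_mod_cast v.ord_aeval_nonneg hx1 d
  by_cases hvS : v ∈ S
  · have h2 : d = (X - C (a v)) ^ (-v.pord z).toNat *
        ∏ w ∈ S.erase v, (X - C (a w)) ^ (-w.pord z).toNat := by
      rw [hd]
      exact (Finset.mul_prod_erase S (fun w => (X - C (a w)) ^ (-w.pord z).toNat) hvS).symm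
    set e : 𝕜[X] := ∏ w ∈ S.erase v, (X - C (a w)) ^ (-w.pord z).toNat with he
    have he0 : Polynomial.aeval x e ≠ 0 := by
      intro h
      rw [h2, map_mul, h, mul_zero] at had0
      exact had0 rfl
    have h3 : Polynomial.aeval x d
        = (x - algebraMap 𝕜 E (a v)) ^ (-v.pord z).toNat * Polynomial.aeval x e := by
      rw [h2, map_mul, map_pow, map_sub, aeval_X, aeval_C]
    have hxa0 : x - algebraMap 𝕜 E (a v) ≠ 0 := by
      intro h
      apply hx
      rw [sub_eq_zero.1 h]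
      exact isAlgebraic_algebraMap _
    have h4 : 0 ≤ v.pord (Polynomial.aeval x e) := by
      rw [v.le_pord_iff he0]
      exact_mod_cast v.ord_aeval_nonneg hx1 e
    have h5 : 1 ≤ v.pord (x - algebraMap 𝕜 E (a v)) := by
      have h6 := ha v hvx
      rw [v.ord_eq_pord hxa0] at h6
      have h7 : 0 < v.pord (x - algebraMap 𝕜 E (a v)) := by exact_mod_cast h6
      omega
    have h6 : v.pord (Polynomial.aeval x d) = ((-v.pord z).toNat : ℤ) *
        v.pord (x - algebraMap 𝕜 E (a v)) + v.pord (Polynomial.aeval x e) := by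
      rw [h3, v.pord_mul (pow_ne_zero _ hxa0) he0, v.pord_pow hxa0]
    have h7 : ((-v.pord z).toNat : ℤ) ≤ ((-v.pord z).toNat : ℤ) *
        v.pord (x - algebraMap 𝕜 E (a v)) := by
      have : (0 : ℤ) ≤ ((-v.pord z).toNat : ℤ) := by positivity
      nlinarith
    have h8 := Int.self_le_toNat (-v.pord z)
    omega
  · have h2 : ¬ v.pord z < 0 := fun h => hvS ((hmemS v).2 ⟨h, hvx⟩)
    omega

end MP7Z
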