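import Pool.Agent.Lib.MP_7f581e_Z.FF.Spec

/-!
# Const: a constant multiple is fixed by `φ`
-/

set_option autoImplicit false

namespace MP7Z

theorem tConst : FStmtConst := by
  classical
  intro 𝕜 E _ _ _ _ _ q φ hφ f hf h
  have hφf : φ f ≠ 0 := (map_ne_zero_iff φ φ.injective).2 hf
  have h1 : dv 𝕜 (φ f * f⁻¹) = 0 := by
    rw [dv_mul hφf (inv_ne_zero hf), dv_inv hf]
    ext v
    simp [h v]
  obtain ⟨a, ha, hae⟩ := exists_const_of_dv_eq_zero (mul_ne_zero hφf (inv_ne_zero hf)) h1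
  have hq : 1 < q := hφ.primePow.one_lt
  obtain ⟨c, hc⟩ := IsAlgClosed.exists_pow_nat_eq (a⁻¹) (n := q - 1) (by omega)
  have hc0 : c ≠ 0 := by
    rintro rfl
    rw [zero_pow (by omega)] at hc
    exact inv_ne_zero ha hc.symm
  refine ⟨c, hc0, ?_⟩
  have h2 : φ f = algebraMap 𝕜 E a * f := by
    rw [← hae, mul_assoc, inv_mul_cancel₀ hf, mul_one]
  have h3 : c ^ q * a = c := by
    have : c ^ q = c ^ (q - 1) * c := by
      rw [← pow_succ]
      congr 1
      omega
    rw [this, hc, mul_right_comm, inv_mul_cancel₀ ha, one_mul]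
  rw [map_mul, hφ.frob, h2, ← mul_assoc, ← map_mul, h3]

end MP7Z
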