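import Pool.Agent.Lib.MP_7f581e_Z.FF.Base

/-!
# Package FF: divisors, degrees, pullback of divisors under automorphisms, orbits

(see `FF/Spec.lean` for the statements and their proofs)
-/

namespace MP7Z

section Div

variable {𝕜 E : Type} [Field 𝕜] [IsAlgClosed 𝕜] [Field E] [Algebra 𝕜 E]

omit [IsAlgClosed 𝕜] in
/-- The degree of a divisor (all residue degrees are one). -/
noncomputable def dg : (Place 𝕜 E →₀ ℤ) →+ ℤ := Finsupp.liftAddHom fun _ => AddMonoidHom.id ℤ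

omit [IsAlgClosed 𝕜] in
theorem dg_eq (D : Place 𝕜 E →₀ ℤ) : dg D = D.sum fun _ n => n := rfl

omit [IsAlgClosed 𝕜] in
@[simp] theorem dg_single (v : Place 𝕜 E) (n : ℤ) : dg (Finsupp.single v n) = n := by
  rw [dg_eq, Finsupp.sum_single_index rfl]

omit [IsAlgClosed 𝕜] in
/-- `l(D) = dim L(D)`. -/
noncomputable def ell (D : Place 𝕜 E →₀ ℤ) : ℕ := Module.finrank 𝕜 (Lsp (D : Place 𝕜 E → ℤ))

omit [IsAlgClosed 𝕜] in
@[simp] theorem Place.pord_zero (v : Place 𝕜 E) : v.pord (0 : E) = 0 := by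
  rw [Place.pord, AddValuation.map_zero]; rfl

theorem finite_pord_ne [IsCurveField 𝕜 E] (f : E) : {v : Place 𝕜 E | v.pord f ≠ 0}.Finite := by
  rcases eq_or_ne f 0 with rfl | hf
  · have : {v : Place 𝕜 E | v.pord (0 : E) ≠ 0} = ∅ := by
      ext v; simp
    rw [this]; exact Set.finite_empty
  · refine (finite_ord_ne (𝕜 := 𝕜) hf).subset fun v hv h => hv ?_
    rw [v.ord_eq_pord hf] at h
    exact_mod_cast h

variable (𝕜) in
/-- The divisor of a function (`0` for the function `0`). -/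
noncomputable def dv [IsCurveField 𝕜 E] (f : E) : Place 𝕜 E →₀ ℤ :=
  Finsupp.ofSupportFinite (fun v => v.pord f) (finite_pord_ne f)

variable [IsCurveField 𝕜 E]

@[simp] theorem dv_apply (f : E) (v : Place 𝕜 E) : dv 𝕜 f v = v.pord f := rfl

@[simp] theorem dv_one : dv 𝕜 (1 : E) = 0 := by
  ext v; simp [Place.pord_one]

theorem dv_mul {f g : E} (hf : f ≠ 0) (hg : g ≠ 0) : dv 𝕜 (f * g) = dv 𝕜 f + dv 𝕜 g := by
  ext v; simp [Place.pord_mul v hf hg]

theorem dv_inv {f : E} (hf : f ≠ 0) : dv 𝕜 f⁻¹ = - dv 𝕜 f := by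
  ext v; simp [Place.pord_inv v hf]

theorem dv_pow {f : E} (hf : f ≠ 0) (n : ℕ) : dv 𝕜 (f ^ n) = n • dv 𝕜 f := by
  ext v; simp [Place.pord_pow v hf]

theorem dv_const (c : 𝕜) : dv 𝕜 (algebraMap 𝕜 E c) = 0 := by
  ext v; simp [Place.pord_const v c]

/-- A function without zeros and poles is constant. -/
theorem exists_const_of_dv_eq_zero {f : E} (hf : f ≠ 0) (h : dv 𝕜 f = 0) :
    ∃ c : 𝕜, c ≠ 0 ∧ f = algebraMap 𝕜 E c := by
  obtain ⟨c, hc⟩ := exists_const_of_nonneg (𝕜 := 𝕜) (f := f) (fun v => by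
    rw [v.ord_eq_pord hf, ← dv_apply (𝕜 := 𝕜) f v, h]
    simp)
  refine ⟨c, ?_, hc⟩
  rintro rfl
  exact hf (by rw [hc, map_zero])

end Div

section Comap

variable {𝕜 E : Type} [Field 𝕜] [IsAlgClosed 𝕜] [Field E] [Algebra 𝕜 E]

variable (𝕜) in
/-- `v ↦ v.comap σ` as a permutation of the places. -/
noncomputable def comapEquiv (σ : E ≃+* E) : Place 𝕜 E ≃ Place 𝕜 E where
  toFun v := v.comap σ
  invFun v := v.comap σ⁻¹
  left_inv v := by
    change (v.comap σ).comap σ⁻¹ = v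
    rw [← Place.comap_mul, mul_inv_cancel, Place.comap_one]
  right_inv v := by
    change (v.comap σ⁻¹).comap σ = v
    rw [← Place.comap_mul, inv_mul_cancel, Place.comap_one]

/-- Pullback of divisors: `(cm σ D) v = D (v.comap σ)`. -/
noncomputable def cm (σ : E ≃+* E) : (Place 𝕜 E →₀ ℤ) ≃+ (Place 𝕜 E →₀ ℤ) :=
  Finsupp.domCongr (comapEquiv 𝕜 σ).symm

@[simp] theorem cm_apply (σ : E ≃+* E) (D : Place 𝕜 E →₀ ℤ) (v : Place 𝕜 E) :
    cm σ D v = D (v.comap σ) := rfl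

@[simp] theorem cm_one (D : Place 𝕜 E →₀ ℤ) : cm (1 : E ≃+* E) D = D := by
  ext v; simp

theorem cm_mul (σ τ : E ≃+* E) (D : Place 𝕜 E →₀ ℤ) : cm (σ * τ) D = cm σ (cm τ D) := by
  ext v; simp [Place.comap_mul]

@[simp] theorem dg_cm (σ : E ≃+* E) (D : Place 𝕜 E →₀ ℤ) : dg (cm σ D) = dg D := by
  rw [dg_eq, dg_eq]
  exact Finsupp.sum_equivMapDomain (comapEquiv 𝕜 σ).symm D (fun _ n => n)

@[simp] theorem cm_dv [IsCurveField 𝕜 E] (σ : E ≃+* E) (f : E) : cm σ (dv 𝕜 f) = dv 𝕜 (σ f) := by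
  ext v; simp

/-- `D` is invariant under `φ`. -/
def Inv (φ : E ≃+* E) (D : Place 𝕜 E →₀ ℤ) : Prop := ∀ v : Place 𝕜 E, D (v.comap φ) = D v

theorem inv_iff (φ : E ≃+* E) (D : Place 𝕜 E →₀ ℤ) : Inv φ D ↔ cm φ D = D :=
  ⟨fun h => by ext v; exact h v, fun h v => by rw [← cm_apply, h]⟩

variable (𝕜) in
/-- Two places are equivalent if they are in one orbit under the powers of `φ`. -/
def orbSetoid (φ : E ≃+* E) : Setoid (Place 𝕜 E) where
  r v w := ∃ n : ℤ, w = v.comap (φ ^ n)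
  iseqv :=
    { refl := fun v => ⟨0, by rw [zpow_zero, Place.comap_one]⟩
      symm := by
        rintro v w ⟨n, rfl⟩
        exact ⟨-n, by rw [← Place.comap_mul, ← zpow_add, add_neg_cancel, zpow_zero, Place.comap_one]⟩
      trans := by
        rintro v w u ⟨n, rfl⟩ ⟨m, rfl⟩
        exact ⟨n + m, by rw [← Place.comap_mul, ← zpow_add]⟩ }

variable (𝕜) in
/-- The `φ`-orbits of places. -/
abbrev Orb (φ : E ≃+* E) : Type := Quotient (orbSetoid 𝕜 φ)

/-- The orbit of a place. -/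
def orb (φ : E ≃+* E) (v : Place 𝕜 E) : Orb 𝕜 φ := Quotient.mk (orbSetoid 𝕜 φ) v

theorem orb_eq_iff {φ : E ≃+* E} {v w : Place 𝕜 E} :
    orb φ v = orb φ w ↔ ∃ n : ℤ, w = v.comap (φ ^ n) := Quotient.eq (r := orbSetoid 𝕜 φ)

theorem orb_surjective (φ : E ≃+* E) : Function.Surjective (orb (𝕜 := 𝕜) φ) :=
  Quotient.mk_surjective

/-- The number of places in an orbit. -/
noncomputable def orbDeg (φ : E ≃+* E) (p : Orb 𝕜 φ) : ℕ :=
  Nat.card {v : Place 𝕜 E // orb φ v = p}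

/-- The divisors (on orbits) of the functions fixed by `φ`. -/
def PrinOrb (𝕜 : Type) {E : Type} [Field 𝕜] [IsAlgClosed 𝕜] [Field E] [Algebra 𝕜 E]
    (φ : E ≃+* E) : AddSubgroup (Orb 𝕜 φ →₀ ℤ) where
  carrier := {A | ∃ f : E, f ≠ 0 ∧ φ f = f ∧ ∀ v : Place 𝕜 E, A (orb φ v) = v.pord f}
  zero_mem' := ⟨1, one_ne_zero, map_one φ, fun v => by simp [Place.pord_one]⟩
  add_mem' := by
    rintro A B ⟨f, hf, hf', hA⟩ ⟨g, hg, hg', hB⟩
    exact ⟨f * g, mul_ne_zero hf hg, by rw [map_mul, hf', hg'], fun v => by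
      rw [Finsupp.add_apply, hA, hB, v.pord_mul hf hg]⟩
  neg_mem' := by
    rintro A ⟨f, hf, hf', hA⟩
    exact ⟨f⁻¹, inv_ne_zero hf, by rw [map_inv₀, hf'], fun v => by
      rw [Finsupp.neg_apply, hA, v.pord_inv hf]⟩

end Comap

end MP7Z
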