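import Pool.Agent.Lib.MP_7f581e_Z.FF.Spec

/-!
# Places fixed by powers of the Frobenius automorphism
-/

namespace MP7Z.FinM

open scoped IntermediateField

variable {𝕜 E : Type} [Field 𝕜] [IsAlgClosed 𝕜] [Field E] [Algebra 𝕜 E]

theorem pow_fix {φ : E ≃+* E} {x : E} (hx : φ x = x) (n : ℕ) : (φ ^ n) x = x := by
  induction n with
  | zero => rfl
  | succ n ih => rw [pow_succ, RingAut.mul_apply, hx, ih]

theorem comap_injective (σ : E ≃+* E) :
    Function.Injective (fun v : Place 𝕜 E => v.comap σ) := (comapEquiv 𝕜 σ).injective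

theorem const_eq {v : Place 𝕜 E} {x : E} {a b : 𝕜} (ha : 0 < v.ord (x - algebraMap 𝕜 E a))
    (hb : 0 < v.ord (x - algebraMap 𝕜 E b)) : a = b := by
  by_contra hne
  have h1 : v.ord (algebraMap 𝕜 E (b - a)) = 0 := v.ord_const (sub_ne_zero.2 (Ne.symm hne))
  have h2 : algebraMap 𝕜 E (b - a) = (x - algebraMap 𝕜 E a) - (x - algebraMap 𝕜 E b) := by
    rw [map_sub]; ring
  have h3 : 0 < v.ord (algebraMap 𝕜 E (b - a)) := by
    rw [h2]
    exact lt_of_lt_of_le (lt_min ha hb) (AddValuation.map_sub v.ord _ _)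
  rw [h1] at h3
  exact lt_irrefl _ h3

theorem sub_ne_zero' {x : E} (hx : Transcendental 𝕜 x) (a : 𝕜) : x - algebraMap 𝕜 E a ≠ 0 := by
  intro h
  apply hx
  rw [sub_eq_zero.1 h]
  exact isAlgebraic_algebraMap a

theorem periodic_of_fixed [IsCurveField 𝕜 E] {φ : E ≃+* E} {y : E} (hy : y ≠ 0) {n : ℕ}
    (hn : 0 < n) (hφ : (φ ^ n) y = y) {v : Place 𝕜 E} (hv : v.ord y ≠ 0) :
    ∃ m : ℕ, 0 < m ∧ v.comap (φ ^ m) = v := by
  have hfin := finite_ord_ne (𝕜 := 𝕜) hy
  have hmem : ∀ k : ℕ, v.comap ((φ ^ n) ^ k) ∈ {w : Place 𝕜 E | w.ord y ≠ 0} := by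
    intro k
    have h1 : ((φ ^ n) ^ k) y = y := pow_fix hφ k
    simp only [Set.mem_ofPred_eq, Place.comap_ord, h1]
    exact hv
  have hni : ¬ Function.Injective (fun k : ℕ => (⟨v.comap ((φ ^ n) ^ k), hmem k⟩ :
      {w : Place 𝕜 E | w.ord y ≠ 0})) := by
    intro h
    have : Finite {w : Place 𝕜 E | w.ord y ≠ 0} := hfin
    exact not_injective_infinite_finite _ h
  have hex : ∃ i j : ℕ, i < j ∧ v.comap ((φ ^ n) ^ i) = v.comap ((φ ^ n) ^ j) := by
    by_contra hcon
    push Not at hcon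
    apply hni
    intro i j hij
    have hij' : v.comap ((φ ^ n) ^ i) = v.comap ((φ ^ n) ^ j) := congrArg Subtype.val hij
    rcases lt_trichotomy i j with h | h | h
    · exact absurd hij' (hcon i j h)
    · exact h
    · exact absurd hij'.symm (hcon j i h)
  obtain ⟨i, j, hlt, heq⟩ := hex
  refine ⟨n * (j - i), Nat.mul_pos hn (by omega), ?_⟩
  have h1 : (φ ^ n) ^ j = φ ^ (n * (j - i)) * (φ ^ n) ^ i := by
    rw [← pow_mul, ← pow_mul, ← pow_add, ← mul_add, Nat.sub_add_cancel hlt.le]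
  rw [h1, Place.comap_mul] at heq
  exact (comap_injective _ heq).symm

end MP7Z.FinM

namespace MP7Z

open FinM
open scoped IntermediateField

theorem tFFin (h0 : FStmtFixCard) (h1 : FStmtPow) : FStmtFin := by
  intro 𝕜 E _ _ _ _ _ q φ hφ
  obtain ⟨x, hx, hxt, hxs⟩ := hφ.sep
  have hx0 : x ≠ 0 := by
    rintro rfl
    exact hxt isAlgebraic_zero
  refine ⟨?_, ?_, ?_⟩
  · intro n hn
    have hF := h1 𝕜 E q φ hφ n hn
    have hq : 1 < q ^ n := by
      have := hφ.primePow.one_lt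
      exact Nat.one_lt_pow hn.ne' this
    have hcard := h0 𝕜 (q ^ n) hq (by rw [Nat.cast_pow, hφ.card, zero_pow hn.ne'])
    have hfin : Finite {c : 𝕜 // c ^ (q ^ n) = c} := by
      apply Nat.finite_of_card_ne_zero
      rw [hcard]
      omega
    have hfin' : {c : 𝕜 | c ^ (q ^ n) = c}.Finite := hfin
    refine ((finite_ord_ne (𝕜 := 𝕜) hx0).union (hfin'.biUnion (fun a _ =>
      finite_ord_ne (𝕜 := 𝕜) (sub_ne_zero' hxt a)))).subset ?_
    intro v hv
    by_cases hvx : v.ord x ≠ 0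
    · exact Or.inl hvx
    · push Not at hvx
      right
      obtain ⟨a, ha⟩ := exists_const v (f := x) hvx.ge
      simp only [Set.mem_iUnion]
      refine ⟨a, ?_, ?_⟩
      · have h2 : 0 < v.ord (x - algebraMap 𝕜 E (a ^ q ^ n)) := by
          have h3 : (v.comap (φ ^ n)).ord (x - algebraMap 𝕜 E a) =
              v.ord (x - algebraMap 𝕜 E (a ^ q ^ n)) := by
            rw [Place.comap_ord, map_sub, pow_fix hx, hF.frob]
          rw [← h3, show v.comap (φ ^ n) = v from hv]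
          exact ha
        exact const_eq h2 ha
      · exact ha.ne'
  · intro v
    by_cases hvx : 0 ≤ v.ord x
    · obtain ⟨a, ha⟩ := exists_const v (f := x) hvx
      obtain ⟨n, hn, hna⟩ := hφ.fin (algebraMap 𝕜 E a)
      exact periodic_of_fixed (sub_ne_zero' hxt a) hn
        (by rw [map_sub, pow_fix hx, hna]) ha.ne'
    · exact periodic_of_fixed hx0 one_pos (by rw [pow_one, hx]) (fun h => hvx h.ge)
  · have hinf : Infinite 𝕜 := IsAlgClosed.instInfinite
    have hc : ∀ a : 𝕜, ∃ v : Place 𝕜 E, 0 < v.ord (x - algebraMap 𝕜 E a) :=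
      fun a => exists_ord_pos hxt a
    choose w hw using hc
    refine Infinite.of_injective w ?_
    intro a b hab
    have h2 := hw b
    rw [← hab] at h2
    exact const_eq (hw a) h2

end MP7Z
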