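import Pool.Agent.Lib.MP_7f581e_Z.FF.Spec

/-!
# FixCard: `x ^ q = x` has `q` solutions
-/

set_option autoImplicit false

namespace MP7Z

open Polynomial in
theorem tFixCard : FStmtFixCard := by
  classical
  intro 𝕜 _ _ q hq hq0
  have hsep : (X ^ q - X : 𝕜[X]).Separable :=
    galois_poly_separable (ringChar 𝕜) q ((ringChar.spec 𝕜 q).1 hq0)
  have hdeg : (X ^ q - X : 𝕜[X]).natDegree = q := FiniteField.X_pow_card_sub_X_natDegree_eq 𝕜 hq
  have hne : (X ^ q - X : 𝕜[X]) ≠ 0 := FiniteField.X_pow_card_sub_X_ne_zero 𝕜 hq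
  have hcard : (X ^ q - X : 𝕜[X]).roots.toFinset.card = q := by
    rw [Multiset.toFinset_card_of_nodup (nodup_roots hsep)]
    have h := (IsAlgClosed.splits (X ^ q - X : 𝕜[X])).natDegree_eq_card_roots
    rw [← h, hdeg]
  have h1 : Nat.card {c : 𝕜 // c ^ q = c} = Nat.card ((X ^ q - X : 𝕜[X]).roots.toFinset) := by
    refine Nat.card_congr (Equiv.subtypeEquivRight fun c => ?_)
    rw [Multiset.mem_toFinset, mem_roots hne, IsRoot.def, eval_sub, eval_pow, eval_X, sub_eq_zero]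
  rw [h1, Nat.card_eq_fintype_card, Fintype.card_coe, hcard]

end MP7Z
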