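import Pool.Agent.Lib.MP_7f581e_Z.FF.Spec

/-!
# FF/Grow: the growth of the spaces L(m B)
-/

namespace MP7Z

open scoped IntermediateField

namespace GrowM

variable {𝕜 E : Type} [Field 𝕜] [IsAlgClosed 𝕜] [Field E] [Algebra 𝕜 E]

omit [IsAlgClosed 𝕜] in
theorem gen_transcendental {x : E} (hx : Transcendental 𝕜 x) :
    Transcendental 𝕜 (IntermediateField.AdjoinSimple.gen 𝕜 x) := by
  intro h
  apply hx
  have h1 := h.algHom (IntermediateField.val 𝕜⟮x⟯)
  simpa using h1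

omit [IsAlgClosed 𝕜] in
theorem linInd_pow {K : Type} [Field K] [Algebra 𝕜 K] {y : K} (hy : Transcendental 𝕜 y) (m : ℕ) :
    LinearIndependent 𝕜 (fun i : Fin (m + 1) => y ^ (i : ℕ)) := by
  have h1 : Function.Injective (Polynomial.aeval (R := 𝕜) y) :=
    transcendental_iff_injective.1 hy
  have h2 := (Polynomial.basisMonomials 𝕜).linearIndependent.map' (Polynomial.aeval y).toLinearMap
    (LinearMap.ker_eq_bot.2 h1)
  have h3 := h2.comp (fun i : Fin (m + 1) => (i : ℕ)) Fin.val_injective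
  have h4 : (fun i : Fin (m + 1) => y ^ (i : ℕ))
      = ((⇑(Polynomial.aeval y).toLinearMap ∘ ⇑(Polynomial.basisMonomials 𝕜)) ∘
        fun i : Fin (m + 1) => (i : ℕ)) := by
    funext i
    simp
  rw [h4]
  exact h3

omit [IsAlgClosed 𝕜] in
theorem exists_basis {x : E} (hx : Transcendental 𝕜 x) [Module.Finite 𝕜⟮x⟯ E]
    (P : E → Prop) (hP : ∀ z : E, ∃ d : Polynomial 𝕜, d ≠ 0 ∧ P (z * Polynomial.aeval x d)) :
    ∃ z : Fin (Module.finrank 𝕜⟮x⟯ E) → E, LinearIndependent 𝕜⟮x⟯ z ∧ ∀ j, P (z j) := by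
  let b := Module.finBasis 𝕜⟮x⟯ E
  choose d hd hdP using hP
  have haev : ∀ p : Polynomial 𝕜, ∀ hp : p ≠ 0, Polynomial.aeval (R := 𝕜)
      (IntermediateField.AdjoinSimple.gen 𝕜 x) p ≠ 0 := by
    intro p hp h
    exact gen_transcendental hx ⟨p, hp, h⟩
  let u : Fin (Module.finrank 𝕜⟮x⟯ E) → (𝕜⟮x⟯)ˣ := fun j =>
    Units.mk0 (Polynomial.aeval (IntermediateField.AdjoinSimple.gen 𝕜 x) (d (b j)))
      (haev _ (hd (b j)))
  refine ⟨fun j => b j * Polynomial.aeval x (d (b j)), ?_, fun j => hdP (b j)⟩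
  have h1 := b.linearIndependent.units_smul u
  convert h1 using 1
  funext j
  change b j * Polynomial.aeval x (d (b j))
    = (Polynomial.aeval (IntermediateField.AdjoinSimple.gen 𝕜 x) (d (b j)) : 𝕜⟮x⟯) • b j
  rw [Algebra.smul_def, mul_comm]
  congr 1
  have h2 := Polynomial.aeval_algebraMap_apply E (IntermediateField.AdjoinSimple.gen 𝕜 x) (d (b j))
  rw [IntermediateField.AdjoinSimple.algebraMap_gen] at h2
  exact h2

end GrowM

open GrowM in
/-- **RGrow** The growth of the spaces L(m B). -/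
theorem tGrow (h0 : FStmtClear) : FStmtGrow := by
  intro 𝕜 E _ _ _ _ _ x hx
  classical
  have hfin : Module.Finite 𝕜⟮x⟯ E := finite_adjoin hx
  have hx0 : x ≠ 0 := by
    rintro rfl
    exact hx isAlgebraic_zero
  obtain ⟨z, hz, hzP⟩ := exists_basis hx
    (fun y => ∀ v : Place 𝕜 E, v.pord y < 0 → v.pord x < 0) (h0 𝕜 E x hx)
  have hz0 : ∀ j, z j ≠ 0 := fun j => hz.ne_zero j
  let c : ℕ := ∑ j, ∑ w ∈ (dv 𝕜 (z j)).support, (dv 𝕜 (z j) w).natAbs
  have hc : ∀ j, ∀ v : Place 𝕜 E, -(v.pord (z j)) ≤ c * pol 𝕜 x v := by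
    intro j v
    have hpol0 : 0 ≤ pol 𝕜 x v := by
      rw [pol_apply]
      exact le_max_right _ _
    rcases lt_or_ge (v.pord (z j)) 0 with h | h
    · have h1 := hzP j v h
      have h2 : 1 ≤ pol 𝕜 x v := by
        rw [pol_apply]
        have := le_max_left (-v.pord x) 0
        omega
      have h3 : v ∈ (dv 𝕜 (z j)).support := by
        rw [Finsupp.mem_support_iff, dv_apply]
        omega
      have h4 : (dv 𝕜 (z j) v).natAbs ≤ ∑ w ∈ (dv 𝕜 (z j)).support, (dv 𝕜 (z j) w).natAbs :=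
        Finset.single_le_sum (f := fun w => (dv 𝕜 (z j) w).natAbs) (fun _ _ => Nat.zero_le _) h3
      have h5 : ∑ w ∈ (dv 𝕜 (z j)).support, (dv 𝕜 (z j) w).natAbs ≤ c :=
        Finset.single_le_sum
          (f := fun j => ∑ w ∈ (dv 𝕜 (z j)).support, (dv 𝕜 (z j) w).natAbs)
          (fun _ _ => Nat.zero_le _) (Finset.mem_univ j)
      have h6 : (c : ℤ) * 1 ≤ c * pol 𝕜 x v := mul_le_mul_of_nonneg_left h2 (by positivity)
      rw [dv_apply] at h4
      omega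
    · have h6 : 0 ≤ (c : ℤ) * pol 𝕜 x v := mul_nonneg (by positivity) hpol0
      omega
  refine ⟨c, ?_⟩
  intro m
  have hlin : LinearIndependent 𝕜
      fun p : Fin (m + 1) × Fin (Module.finrank 𝕜⟮x⟯ E) =>
        ((IntermediateField.AdjoinSimple.gen 𝕜 x) ^ (p.1 : ℕ)) • z p.2 :=
    linearIndependent_smul (linInd_pow (gen_transcendental hx) m) hz
  have hval : ∀ p : Fin (m + 1) × Fin (Module.finrank 𝕜⟮x⟯ E),
      ((IntermediateField.AdjoinSimple.gen 𝕜 x) ^ (p.1 : ℕ)) • z p.2 = x ^ (p.1 : ℕ) * z p.2 := by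
    intro p
    rw [Algebra.smul_def, map_pow, IntermediateField.AdjoinSimple.algebraMap_gen]
  have hmem : ∀ p : Fin (m + 1) × Fin (Module.finrank 𝕜⟮x⟯ E),
      ((IntermediateField.AdjoinSimple.gen 𝕜 x) ^ (p.1 : ℕ)) • z p.2
        ∈ Lsp (((m + c) • pol 𝕜 x : Place 𝕜 E →₀ ℤ) : Place 𝕜 E → ℤ) := by
    intro p
    rw [hval]
    intro v
    rw [← v.le_pord_iff (mul_ne_zero (pow_ne_zero _ hx0) (hz0 _)),
      v.pord_mul (pow_ne_zero _ hx0) (hz0 _), v.pord_pow hx0]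
    have e1 : (((m + c) • pol 𝕜 x : Place 𝕜 E →₀ ℤ) : Place 𝕜 E → ℤ) v
        = ((m : ℤ) + c) * pol 𝕜 x v := by
      rw [Finsupp.coe_smul, Pi.smul_apply, nsmul_eq_mul]
      push_cast
      ring
    rw [e1]
    have h1 := hc p.2 v
    have hpol0 : 0 ≤ pol 𝕜 x v := by
      rw [pol_apply]
      exact le_max_right _ _
    have h2 : -(v.pord x) ≤ pol 𝕜 x v := by
      rw [pol_apply]
      exact le_max_left _ _
    have h3 : ((p.1 : ℕ) : ℤ) ≤ m := by
      have := p.1.2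
      omega
    have h4 : ((p.1 : ℕ) : ℤ) * (-(v.pord x)) ≤ ((p.1 : ℕ) : ℤ) * pol 𝕜 x v :=
      mul_le_mul_of_nonneg_left h2 (by positivity)
    have h5 : ((p.1 : ℕ) : ℤ) * pol 𝕜 x v ≤ (m : ℤ) * pol 𝕜 x v :=
      mul_le_mul_of_nonneg_right h3 hpol0
    nlinarith
  have hLfin : Module.Finite 𝕜 (Lsp (((m + c) • pol 𝕜 x : Place 𝕜 E →₀ ℤ) : Place 𝕜 E → ℤ)) :=
    finite_Lsp_aux _
  have hlin' : LinearIndependent 𝕜
      fun p : Fin (m + 1) × Fin (Module.finrank 𝕜⟮x⟯ E) =>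
        (⟨_, hmem p⟩ : Lsp (((m + c) • pol 𝕜 x : Place 𝕜 E →₀ ℤ) : Place 𝕜 E → ℤ)) := by
    apply LinearIndependent.of_comp
      (Lsp (((m + c) • pol 𝕜 x : Place 𝕜 E →₀ ℤ) : Place 𝕜 E → ℤ)).subtype
    exact hlin
  have hcard := hlin'.fintype_card_le_finrank
  rw [Fintype.card_prod, Fintype.card_fin, Fintype.card_fin] at hcard
  rw [mul_comm]
  exact hcard

end MP7Z
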