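import Pool.Agent.Lib.MP_7f581e_Z.FF.Spec

/-!
# `FStmtH90`
-/

namespace MP7Z

namespace H90M

variable {𝕜 E : Type} [Field 𝕜] [IsAlgClosed 𝕜] [Field E] [Algebra 𝕜 E]

theorem pow_const {q : ℕ} {φ : E ≃+* E} (hφ : IsFrob 𝕜 q φ) (n : ℕ) (c : 𝕜) :
    (φ ^ n) (algebraMap 𝕜 E c) = algebraMap 𝕜 E (c ^ q ^ n) := by
  induction n with
  | zero => simp
  | succ n ih =>
    rw [pow_succ', RingAut.mul_apply, ih, hφ.frob, pow_succ, pow_mul]

theorem prod_const {q : ℕ} {φ : E ≃+* E} (hφ : IsFrob 𝕜 q φ) (M : ℕ) (c : 𝕜) :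
    ∏ i ∈ Finset.range M, (φ ^ i) (algebraMap 𝕜 E c) =
      algebraMap 𝕜 E (c ^ (∑ i ∈ Finset.range M, q ^ i)) := by
  rw [← Finset.prod_pow_eq_pow_sum, map_prod]
  exact Finset.prod_congr rfl fun i _ => pow_const hφ i c

theorem phi_prod (φ : E ≃+* E) (M : ℕ) (h : E) :
    φ (∏ i ∈ Finset.range M, (φ ^ i) h) * h = (∏ i ∈ Finset.range M, (φ ^ i) h) * (φ ^ M) h := by
  rw [← Finset.prod_range_succ, Finset.prod_range_succ' _ M, map_prod]
  simp only [pow_zero, RingAut.one_apply]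
  congr 1
  refine Finset.prod_congr rfl fun i _ => ?_
  rw [pow_succ', RingAut.mul_apply]

/-- Hilbert 90 (product one). -/
theorem h90 (h0 : FStmtFixCard) {q : ℕ} {φ : E ≃+* E} (hφ : IsFrob 𝕜 q φ) {M : ℕ} (hM : 0 < M)
    {h : E} (hh : h ≠ 0) (hh' : (φ ^ M) h = h) (hprod : ∏ i ∈ Finset.range M, (φ ^ i) h = 1) :
    ∃ g : E, g ≠ 0 ∧ (φ ^ M) g = g ∧ h * g = φ g := by
  classical
  have hq : 1 < q := hφ.primePow.one_lt
  -- the partial products
  set b : ℕ → E := fun i => ∏ j ∈ Finset.range i, (φ ^ j) h with hb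
  have hb0 : b 0 = 1 := by simp [hb]
  have hbM : b M = 1 := hprod
  have hbne : ∀ i, b i ≠ 0 := fun i =>
    Finset.prod_ne_zero_iff.2 fun j _ => (map_ne_zero_iff _ (φ ^ j).injective).2 hh
  have hbφ : ∀ i, φ (b i) * h = b (i + 1) := by
    intro i
    rw [hb]
    simp only
    rw [phi_prod, ← Finset.prod_range_succ]
  -- distinct characters
  let K : Submonoid E :=
    { carrier := {u | (φ ^ M) u = u}
      one_mem' := map_one _
      mul_mem' := fun {a b} ha hb => by
        change (φ ^ M) (a * b) = a * b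
        rw [map_mul, ha, hb] }
  let χ : Fin M → (K →* E) := fun i => ((φ ^ (i : ℕ) : E ≃+* E) : E →* E).comp K.subtype
  have hχ : Function.Injective χ := by
    have key : ∀ i j : Fin M, (i : ℕ) < j → χ i ≠ χ j := by
      intro i j hij heq
      have h1 : ∀ c : 𝕜, c ^ q ^ M = c → c ^ q ^ (i : ℕ) = c ^ q ^ (j : ℕ) := by
        intro c hc
        have hcK : algebraMap 𝕜 E c ∈ K := by
          change (φ ^ M) _ = _
          rw [pow_const hφ, hc]
        have h2 := DFunLike.congr_fun heq ⟨algebraMap 𝕜 E c, hcK⟩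
        change (φ ^ (i : ℕ)) (algebraMap 𝕜 E c) = (φ ^ (j : ℕ)) (algebraMap 𝕜 E c) at h2
        rw [pow_const hφ, pow_const hφ] at h2
        exact (algebraMap 𝕜 E).injective h2
      -- too many roots
      let Q : Polynomial 𝕜 := Polynomial.X ^ q ^ (j : ℕ) - Polynomial.X ^ q ^ (i : ℕ)
      have hlt : q ^ (i : ℕ) < q ^ (j : ℕ) := Nat.pow_lt_pow_right hq hij
      have hQdeg : Q.natDegree = q ^ (j : ℕ) := by
        have := Polynomial.natDegree_sub_eq_left_of_natDegree_lt
          (p := (Polynomial.X ^ q ^ (j : ℕ) : Polynomial 𝕜)) (q := Polynomial.X ^ q ^ (i : ℕ))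
          (by simpa using hlt)
        rw [this, Polynomial.natDegree_X_pow]
      have hQ0 : Q ≠ 0 := by
        intro h
        rw [h, Polynomial.natDegree_zero] at hQdeg
        have : 0 < q ^ (j : ℕ) := Nat.pow_pos (by omega)
        omega
      have hcast : ((q ^ M : ℕ) : 𝕜) = 0 := by
        push_cast; rw [hφ.card, zero_pow hM.ne']
      have hcard := h0 𝕜 (q ^ M) (Nat.one_lt_pow hM.ne' hq) hcast
      have hfin : {c : 𝕜 | c ^ q ^ M = c} ⊆ (Q.roots.toFinset : Set 𝕜) := by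
        intro c hc
        rw [Finset.mem_coe, Multiset.mem_toFinset, Polynomial.mem_roots hQ0, Polynomial.IsRoot.def]
        simp only [Q, Polynomial.eval_sub, Polynomial.eval_pow, Polynomial.eval_X]
        rw [h1 c hc, sub_self]
      have h3 : q ^ M ≤ Q.roots.toFinset.card := by
        rw [← hcard]
        have h4 : Nat.card {c : 𝕜 // c ^ q ^ M = c} = Set.ncard {c : 𝕜 | c ^ q ^ M = c} := rfl
        rw [h4, ← Set.ncard_coe_finset]
        exact Set.ncard_le_ncard hfin (Finset.finite_toSet _)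
      have h5 : Q.roots.toFinset.card ≤ q ^ (j : ℕ) := by
        rw [← hQdeg]
        exact (Multiset.toFinset_card_le _).trans (Polynomial.card_roots' _)
      have h6 : q ^ (j : ℕ) < q ^ M := Nat.pow_lt_pow_right hq j.2
      omega
    intro i j hij
    rcases lt_trichotomy (i : ℕ) j with h | h | h
    · exact absurd hij (key i j h)
    · exact Fin.ext h
    · exact absurd hij.symm (key j i h)
  have hlin : LinearIndependent E (fun i : Fin M => (χ i : K → E)) :=
    (linearIndependent_monoidHom K E).comp χ hχ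
  -- a nonzero value
  have hex : ∃ u : K, ∑ i : Fin M, b i * (φ ^ (i : ℕ)) (u : E) ≠ 0 := by
    by_contra hcon
    push Not at hcon
    rw [Fintype.linearIndependent_iff] at hlin
    have h1 := hlin (fun i => b i) (by
      funext u
      simp only [Finset.sum_apply, Pi.smul_apply, smul_eq_mul, Pi.zero_apply]
      exact hcon u) ⟨0, hM⟩
    exact hbne _ h1
  obtain ⟨u, hu⟩ := hex
  have huK : (φ ^ M) (u : E) = u := u.2
  set y : E := ∑ i ∈ Finset.range M, b i * (φ ^ i) (u : E) with hy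
  have hy0 : y ≠ 0 := by
    rw [hy, ← Fin.sum_univ_eq_sum_range (fun i => b i * (φ ^ i) (u : E)) M]
    exact hu
  have hφy : φ y * h = y := by
    rw [hy, map_sum, Finset.sum_mul]
    have h1 : ∀ i, φ (b i * (φ ^ i) (u : E)) * h = b (i + 1) * (φ ^ (i + 1)) (u : E) := by
      intro i
      rw [map_mul, ← hbφ i, pow_succ', RingAut.mul_apply]
      ring
    rw [Finset.sum_congr rfl fun i _ => h1 i]
    have h2 := Finset.sum_range_succ (fun i => b i * (φ ^ i) (u : E)) M
    have h3 := Finset.sum_range_succ' (fun i => b i * (φ ^ i) (u : E)) M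
    rw [h2, hbM, huK, hb0] at h3
    simp only [pow_zero, RingAut.one_apply] at h3
    exact (add_right_cancel h3).symm
  have hbfix : ∀ i, (φ ^ M) (b i) = b i := by
    intro i
    rw [hb]
    simp only
    rw [map_prod]
    refine Finset.prod_congr rfl fun j _ => ?_
    rw [← RingAut.mul_apply, ← pow_add, add_comm, pow_add, RingAut.mul_apply, hh']
  have hyM : (φ ^ M) y = y := by
    rw [hy, map_sum]
    refine Finset.sum_congr rfl fun i _ => ?_
    rw [map_mul, hbfix, ← RingAut.mul_apply, ← pow_add, add_comm, pow_add, RingAut.mul_apply, huK]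
  refine ⟨y⁻¹, inv_ne_zero hy0, by rw [map_inv₀, hyM], ?_⟩
  have hφy0 : φ y ≠ 0 := (map_ne_zero_iff _ φ.injective).2 hy0
  rw [map_inv₀]
  field_simp
  rw [mul_comm]
  exact hφy

end H90M

open H90M in
theorem tH90 (h0 : FStmtFixCard) : FStmtH90 := by
  intro 𝕜 E _ _ _ _ q φ hφ M hM h hh hh' a hprod
  have hq : 1 < q := hφ.primePow.one_lt
  have ha : a ≠ 0 := by
    rintro rfl
    rw [map_zero, Finset.prod_eq_zero_iff] at hprod
    obtain ⟨i, -, hi⟩ := hprod
    exact hh ((map_eq_zero_iff _ (φ ^ i).injective).1 hi)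
  have haq : a ^ q = a := by
    have h1 := phi_prod φ M h
    rw [hprod, hh', hφ.frob] at h1
    exact (algebraMap 𝕜 E).injective (mul_right_cancel₀ hh h1)
  set s := ∑ i ∈ Finset.range M, q ^ i with hs
  have hs0 : 0 < s := by
    have : q ^ 0 ≤ s := Finset.single_le_sum (f := fun i => q ^ i) (fun i _ => Nat.zero_le _)
      (Finset.mem_range.2 hM)
    rw [pow_zero] at this
    omega
  obtain ⟨c, hc, hc1⟩ : ∃ c : 𝕜, c ^ s = a ∧ (a = 1 → c = 1) := by
    by_cases h1 : a = 1
    · exact ⟨1, by rw [one_pow, h1], fun _ => rfl⟩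
    · obtain ⟨c, hc⟩ := IsAlgClosed.exists_pow_nat_eq a hs0
      exact ⟨c, hc, fun h => absurd h h1⟩
  have hc0 : c ≠ 0 := by
    rintro rfl
    rw [zero_pow hs0.ne'] at hc
    exact ha hc.symm
  have hsq : s * (q - 1) + 1 = q ^ M := by
    have := Nat.geomSum_eq (m := q) hq M
    have h2 : (q - 1) * ∑ k ∈ Finset.range M, q ^ k = q ^ M - 1 := by
      rw [this]
      exact Nat.mul_div_cancel' (Nat.sub_one_dvd_pow_sub_one q M)
    have h3 : 1 ≤ q ^ M := Nat.one_le_pow _ _ (by omega)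
    rw [mul_comm s, hs, h2]
    omega
  have hcM : c ^ q ^ M = c := by
    rw [← hsq, pow_succ, pow_mul, hc]
    have h2 : a ^ (q - 1) = 1 := by
      have h3 : a ^ (q - 1) * a = 1 * a := by
        rw [← pow_succ, Nat.sub_add_cancel hq.le, haq, one_mul]
      exact mul_right_cancel₀ ha h3
    rw [h2, one_mul]
  have hcprod : ∏ i ∈ Finset.range M, (φ ^ i) (algebraMap 𝕜 E c) = algebraMap 𝕜 E a := by
    rw [prod_const hφ, ← hs, hc]
  have hcE : algebraMap 𝕜 E c ≠ 0 := (map_ne_zero _).2 hc0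
  have hcEM : (φ ^ M) (algebraMap 𝕜 E c) = algebraMap 𝕜 E c := by
    rw [pow_const hφ, hcM]
  obtain ⟨g, hg, hgM, hgφ⟩ := h90 h0 hφ hM (h := h / algebraMap 𝕜 E c) (div_ne_zero hh hcE)
    (by rw [map_div₀, hh', hcEM]) (by
      simp only [map_div₀]
      rw [Finset.prod_div_distrib, hprod, hcprod, div_self ((map_ne_zero _).2 ha)])
  refine ⟨c, g, hc0, hg, hcM, hgM, hc1, hcprod, ?_⟩
  rw [← hgφ]
  field_simp

end MP7Z
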