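import Pool.Agent.Lib.MP_7f581e_Z.FF.Spec

/-!
# Package FF, module HN: the Hasse norm theorem for constant field extensions
-/

namespace MP7Z

namespace HNM

variable {𝕜 E : Type} [Field 𝕜] [IsAlgClosed 𝕜] [Field E] [Algebra 𝕜 E]

theorem pow_fix {φ : E ≃+* E} {x : E} (hx : φ x = x) (n : ℕ) : (φ ^ n) x = x := by
  induction n with
  | zero => rfl
  | succ m ih =>
    rw [pow_succ]
    change (φ ^ m) (φ x) = x
    rw [hx, ih]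

theorem frob_pow {q : ℕ} {φ : E ≃+* E} (h : IsFrob 𝕜 q φ) (c : 𝕜) (i : ℕ) :
    (φ ^ i) (algebraMap 𝕜 E c) = algebraMap 𝕜 E (c ^ q ^ i) := by
  induction i with
  | zero => simp
  | succ m ih =>
    rw [pow_succ']
    change φ ((φ ^ m) (algebraMap 𝕜 E c)) = _
    rw [ih, h.frob, ← pow_mul, ← pow_succ]

theorem dg_dv [IsCurveField 𝕜 E] (hR : RiemannStmt) {q : ℕ} {φ : E ≃+* E} (h : IsFrob 𝕜 q φ)
    {f : E} (hf : f ≠ 0) : dg (dv 𝕜 f) = 0 := by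
  obtain ⟨x, -, hx, hs⟩ := h.sep
  rw [dg_eq]
  exact (hR 𝕜 E x hx hs).2.1 f hf (dv 𝕜 f) fun v => dv_apply f v

/-- `cm φ` on the invariant divisors of degree zero. -/
noncomputable def a0 (φ : E ≃+* E) (M : ℕ) : Inv0 𝕜 (φ ^ M) →+ Inv0 𝕜 (φ ^ M) where
  toFun D := ⟨cm φ D, by
    rw [← cm_mul, ← pow_succ, pow_succ', cm_mul, D.2.1], by rw [dg_cm, D.2.2]⟩
  map_zero' := Subtype.ext (map_zero (cm φ))
  map_add' A B := Subtype.ext (map_add (cm φ) (A : Place 𝕜 E →₀ ℤ) B)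

theorem a0_coe (φ : E ≃+* E) (M : ℕ) (D : Inv0 𝕜 (φ ^ M)) :
    ((a0 φ M D : Inv0 𝕜 (φ ^ M)) : Place 𝕜 E →₀ ℤ) = cm φ D := rfl

theorem a0_iter (φ : E ≃+* E) (M : ℕ) (D : Inv0 𝕜 (φ ^ M)) (i : ℕ) :
    (((a0 φ M)^[i] D : Inv0 𝕜 (φ ^ M)) : Place 𝕜 E →₀ ℤ) = cm (φ ^ i) D := by
  induction i with
  | zero => simp
  | succ m ih =>
    rw [Function.iterate_succ_apply', a0_coe, ih, ← cm_mul, ← pow_succ']

variable [IsCurveField 𝕜 E]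

theorem fix_of_fix {φ : E ≃+* E} {M : ℕ} {f : E} (hf : (φ ^ M) f = f) : (φ ^ M) (φ f) = φ f := by
  have h1 : (φ ^ M * φ) f = (φ * φ ^ M) f := by rw [← pow_succ, pow_succ']
  change (φ ^ M * φ) f = φ f
  rw [h1]
  change φ ((φ ^ M) f) = φ f
  rw [hf]

theorem a0_prn (φ : E ≃+* E) (M : ℕ) :
    (Prn 𝕜 (φ ^ M)).addSubgroupOf (Inv0 𝕜 (φ ^ M)) ≤
      ((Prn 𝕜 (φ ^ M)).addSubgroupOf (Inv0 𝕜 (φ ^ M))).comap (a0 φ M) := by
  intro D hD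
  obtain ⟨f, hf, hf', hD⟩ := AddSubgroup.mem_addSubgroupOf.1 hD
  refine AddSubgroup.mem_comap.2 (AddSubgroup.mem_addSubgroupOf.2 ⟨φ f, ?_, ?_, ?_⟩)
  · exact (map_ne_zero_iff φ φ.injective).2 hf
  · exact fix_of_fix hf'
  · rw [a0_coe, hD, cm_dv]

/-- The map on the class group of degree zero. -/
noncomputable def aa (φ : E ≃+* E) (M : ℕ) : Cl0 𝕜 (φ ^ M) →+ Cl0 𝕜 (φ ^ M) :=
  QuotientAddGroup.map _ _ (a0 φ M) (a0_prn φ M)

/-- The class of a divisor. -/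
noncomputable def cls (φ : E ≃+* E) (M : ℕ) : Inv0 𝕜 (φ ^ M) →+ Cl0 𝕜 (φ ^ M) :=
  QuotientAddGroup.mk' _

theorem cls_surj (φ : E ≃+* E) (M : ℕ) : Function.Surjective (cls (𝕜 := 𝕜) φ M) :=
  QuotientAddGroup.mk'_surjective _

theorem cls_eq_zero (φ : E ≃+* E) (M : ℕ) (D : Inv0 𝕜 (φ ^ M)) :
    cls φ M D = 0 ↔ ∃ f : E, f ≠ 0 ∧ (φ ^ M) f = f ∧ (D : Place 𝕜 E →₀ ℤ) = dv 𝕜 f := by
  rw [cls, QuotientAddGroup.mk'_apply, QuotientAddGroup.eq_zero_iff,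
    AddSubgroup.mem_addSubgroupOf]
  rfl

theorem aa_cls (φ : E ≃+* E) (M : ℕ) (D : Inv0 𝕜 (φ ^ M)) :
    aa φ M (cls φ M D) = cls φ M (a0 φ M D) := rfl

theorem aa_iter (φ : E ≃+* E) (M : ℕ) (D : Inv0 𝕜 (φ ^ M)) (i : ℕ) :
    (aa φ M)^[i] (cls φ M D) = cls φ M ((a0 φ M)^[i] D) := by
  induction i with
  | zero => rfl
  | succ m ih => rw [Function.iterate_succ_apply', ih, aa_cls, Function.iterate_succ_apply']

theorem sum_cls (φ : E ≃+* E) (M : ℕ) (D : Inv0 𝕜 (φ ^ M)) (n : ℕ) :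
    ∑ i ∈ Finset.range n, (aa φ M)^[i] (cls φ M D) =
      cls φ M (∑ i ∈ Finset.range n, (a0 φ M)^[i] D) := by
  rw [map_sum]
  exact Finset.sum_congr rfl fun i _ => aa_iter φ M D i

theorem sum_coe (φ : E ≃+* E) (M : ℕ) (D : Inv0 𝕜 (φ ^ M)) (n : ℕ) :
    ((∑ i ∈ Finset.range n, (a0 φ M)^[i] D : Inv0 𝕜 (φ ^ M)) : Place 𝕜 E →₀ ℤ) =
      ∑ i ∈ Finset.range n, cm (φ ^ i) D := by
  rw [AddSubgroup.val_finset_sum]
  exact Finset.sum_congr rfl fun i _ => a0_iter φ M D i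

theorem sum_dv (φ : E ≃+* E) {h : E} (hh : h ≠ 0) (n : ℕ) :
    ∑ i ∈ Finset.range n, cm (φ ^ i) (dv 𝕜 h) = dv 𝕜 (∏ i ∈ Finset.range n, (φ ^ i) h) ∧
      ∏ i ∈ Finset.range n, (φ ^ i) h ≠ 0 := by
  induction n with
  | zero => simp
  | succ n ih =>
    have h1 : (φ ^ n) h ≠ 0 := (map_ne_zero_iff (φ ^ n) (φ ^ n).injective).2 hh
    rw [Finset.sum_range_succ, Finset.prod_range_succ, ih.1, cm_dv, dv_mul ih.2 h1]
    exact ⟨rfl, mul_ne_zero ih.2 h1⟩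

end HNM

open HNM

theorem tHN (h0 : ZStmtHerb) (h1 : FStmtNSurj) (h2 : FStmtLocN) (h3 : FStmtClFin)
    (h4 : FStmtInvClass) (h5 : FStmtPow) (h6 : FStmtH90) (h7 : RiemannStmt) : FStmtHN := by
  intro 𝕜 E _ _ _ _ _ q φ hφ M hM f hf hφf hloc
  have hψ := h5 𝕜 E q φ hφ M hM
  have hfin : Finite (Cl0 𝕜 (φ ^ M)) := h3 𝕜 E (q ^ M) (φ ^ M) hψ
  have hdg : ∀ {g : E}, g ≠ 0 → dg (dv 𝕜 g) = 0 := fun hg => dg_dv h7 hφ hg
  -- Herbrand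
  have hherb := h0 (Cl0 𝕜 (φ ^ M)) (aa φ M) M (by
    intro g
    obtain ⟨D, rfl⟩ := cls_surj φ M g
    rw [aa_iter]
    congr 1
    apply Subtype.ext
    rw [a0_iter]
    exact D.2.1) (by
    intro g hg
    obtain ⟨D, rfl⟩ := cls_surj φ M g
    rw [aa_cls, ← sub_eq_zero, ← map_sub, cls_eq_zero] at hg
    obtain ⟨h, hh, hh', hD⟩ := hg
    have hD' : cm φ (D : Place 𝕜 E →₀ ℤ) - D = dv 𝕜 h := hD
    obtain ⟨g, hg, hg', hinv⟩ := h4 𝕜 E q φ hφ M hM D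
      ((inv_iff (φ ^ M) (D : Place 𝕜 E →₀ ℤ)).2 D.2.1) h hh hh' hD'
    obtain ⟨B, f', hf', hφf', hB, hB0, hsum⟩ := h1 𝕜 E q φ hφ M hM _ hinv (by
      rw [map_sub, D.2.2, hdg hg, sub_zero])
    refine ⟨cls φ M ⟨B, (inv_iff (φ ^ M) B).1 hB, hB0⟩, ?_⟩
    rw [sum_cls, ← sub_eq_zero, ← map_sub, cls_eq_zero]
    refine ⟨(g * f')⁻¹, inv_ne_zero (mul_ne_zero hg hf'), ?_, ?_⟩
    · rw [map_inv₀, map_mul, hg', pow_fix hφf']
    · rw [AddSubgroup.coe_sub, sum_coe, hsum, dv_inv (mul_ne_zero hg hf'), dv_mul hg hf']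
      abel)
  -- local norms
  obtain ⟨B, hB, hsum⟩ := h2 𝕜 E q φ hφ M hM (dv 𝕜 f)
    (fun v => by rw [dv_apply, dv_apply, Place.comap_pord, hφf]) (fun v => by
      rw [dv_apply]; exact hloc v)
  have hB0 : dg B = 0 := by
    have e1 := congrArg dg hsum
    rw [map_sum, hdg hf] at e1
    simp only [dg_cm, Finset.sum_const, Finset.card_range, nsmul_eq_mul] at e1
    rcases mul_eq_zero.1 e1 with e2 | e2
    · exact absurd e2 (by exact_mod_cast hM.ne')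
    · exact e2
  obtain ⟨g, hg⟩ := hherb (cls φ M ⟨B, (inv_iff (φ ^ M) B).1 hB, hB0⟩) (by
    rw [sum_cls, cls_eq_zero]
    refine ⟨f, hf, pow_fix hφf M, ?_⟩
    rw [sum_coe]
    exact hsum)
  obtain ⟨D, rfl⟩ := cls_surj φ M g
  rw [aa_cls, ← map_sub, ← sub_eq_zero, ← map_sub, cls_eq_zero] at hg
  obtain ⟨h, hh, hh', hD⟩ := hg
  have hD' : cm φ (D : Place 𝕜 E →₀ ℤ) - D - B = dv 𝕜 h := hD
  have hi : h⁻¹ ≠ 0 := inv_ne_zero hh
  have hBe : B = cm φ (D : Place 𝕜 E →₀ ℤ) - D + dv 𝕜 h⁻¹ := by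
    rw [dv_inv hh, ← hD']
    abel
  obtain ⟨hp1, hp2⟩ := sum_dv (𝕜 := 𝕜) φ hi M
  set Q := ∏ i ∈ Finset.range M, (φ ^ i) h⁻¹ with hQ
  have hdv : dv 𝕜 f = dv 𝕜 Q := by
    rw [← hsum, hBe]
    simp only [map_add, map_sub, Finset.sum_add_distrib, hp1]
    have e1 : ∀ i, cm (φ ^ i) (cm φ (D : Place 𝕜 E →₀ ℤ)) = cm (φ ^ (i + 1)) D := by
      intro i
      rw [pow_succ, cm_mul]
    simp only [e1]
    rw [Finset.sum_range_sub (fun i => cm (φ ^ i) (D : Place 𝕜 E →₀ ℤ)) M, pow_zero, cm_one,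
      D.2.1, sub_self, zero_add]
  obtain ⟨c, hc, hcf⟩ := exists_const_of_dv_eq_zero (𝕜 := 𝕜) (f := f * Q⁻¹)
    (mul_ne_zero hf (inv_ne_zero hp2)) (by
      rw [dv_mul hf (inv_ne_zero hp2), dv_inv hp2, hdv, add_neg_cancel])
  have hfc : f = algebraMap 𝕜 E c * Q := by
    rw [← hcf, mul_assoc, inv_mul_cancel₀ hp2, mul_one]
  -- `c` is fixed by `φ`
  have hi' : (φ ^ M) h⁻¹ = h⁻¹ := by rw [map_inv₀, hh']
  have hφQ : φ Q = Q := by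
    have e1 : φ Q * h⁻¹ = Q * (φ ^ M) h⁻¹ := by
      have e2 := Finset.prod_range_succ (fun i => (φ ^ i) h⁻¹) M
      have e3 := Finset.prod_range_succ' (fun i => (φ ^ i) h⁻¹) M
      rw [e2] at e3
      rw [hQ, e3, map_prod]
      congr 1
      refine Finset.prod_congr rfl fun i _ => ?_
      rw [pow_succ']
      rfl
    rw [hi'] at e1
    exact mul_right_cancel₀ hi e1
  have hcq : c ^ q = c := by
    have e1 : φ (algebraMap 𝕜 E c) * Q = algebraMap 𝕜 E c * Q := by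
      have e2 : φ f = φ (algebraMap 𝕜 E c) * Q := by rw [hfc, map_mul, hφQ]
      rw [← e2, hφf, hfc]
    have e3 := mul_right_cancel₀ hp2 e1
    rw [hφ.frob] at e3
    exact (algebraMap 𝕜 E).injective e3
  -- the constant is a norm
  have hs : 0 < ∑ i ∈ Finset.range M, q ^ i :=
    Finset.sum_pos (fun i _ => pow_pos hφ.primePow.pos i)
      (Finset.nonempty_range_iff.2 hM.ne')
  obtain ⟨c₁, hc₁⟩ := IsAlgClosed.exists_pow_nat_eq c hs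
  have hc₁M : c₁ ^ q ^ M = c₁ := by
    have e1 : (∑ i ∈ Finset.range M, q ^ i) * q + 1 = (∑ i ∈ Finset.range M, q ^ i) + q ^ M := by
      rw [← Finset.sum_range_succ, Finset.sum_range_succ', pow_zero, Finset.sum_mul]
      simp only [pow_succ]
    have e2 : c ^ q * c₁ = c * c₁ ^ q ^ M := by
      rw [← hc₁, ← pow_mul, ← pow_succ, e1, pow_add]
    rw [hcq] at e2
    exact (mul_left_cancel₀ hc e2).symm
  refine ⟨algebraMap 𝕜 E c₁ * h⁻¹, ?_, ?_⟩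
  · rw [map_mul, hi', frob_pow hφ, hc₁M]
  · simp only [map_mul, Finset.prod_mul_distrib]
    rw [← hQ, hfc]
    congr 1
    simp only [frob_pow hφ]
    rw [← map_prod, Finset.prod_pow_eq_pow_sum, hc₁]

end MP7Z
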