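import Pool.Agent.Lib.MP_7f581e_Z.FF.Spec

/-!
# FF/Ineq: Riemann's inequality
-/

namespace MP7Z

open scoped IntermediateField

namespace IneqM

variable {𝕜 E : Type} [Field 𝕜] [IsAlgClosed 𝕜] [Field E] [Algebra 𝕜 E] [IsCurveField 𝕜 E]

omit [IsCurveField 𝕜 E] in
theorem sub_ne {x : E} (hx : Transcendental 𝕜 x) (a : 𝕜) : x - algebraMap 𝕜 E a ≠ 0 := by
  intro h
  apply hx
  rw [sub_eq_zero.1 h]
  exact isAlgebraic_algebraMap a

omit [IsCurveField 𝕜 E] [IsAlgClosed 𝕜] in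
theorem ne_zero_of {x : E} (hx : Transcendental 𝕜 x) : x ≠ 0 := by
  rintro rfl
  exact hx isAlgebraic_zero

omit [IsCurveField 𝕜 E] in
theorem pord_sub_nonneg {x : E} (hx : Transcendental 𝕜 x) {v : Place 𝕜 E} (hv : 0 ≤ v.ord x)
    (a : 𝕜) : 0 ≤ v.pord (x - algebraMap 𝕜 E a) := by
  rw [v.le_pord_iff (sub_ne hx a)]
  exact AddValuation.map_le_sub v.ord hv (v.const a)

theorem exists_clear (h3 : FStmtPol) {x : E} (hx : Transcendental 𝕜 x)
    (hsep : Algebra.IsSeparable 𝕜⟮x⟯ E) (D : Place 𝕜 E →₀ ℤ) :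
    ∃ f : E, f ≠ 0 ∧ dg (dv 𝕜 f) = 0 ∧ ∀ v : Place 𝕜 E, 0 ≤ v.ord x → D v ≤ dv 𝕜 f v := by
  classical
  have hres : ∀ v : Place 𝕜 E, ∃ a : 𝕜, 0 ≤ v.ord x → 0 < v.ord (x - algebraMap 𝕜 E a) := by
    intro v
    by_cases hv : 0 ≤ v.ord x
    · obtain ⟨a, ha⟩ := exists_const v hv
      exact ⟨a, fun _ => ha⟩
    · exact ⟨0, fun h => absurd h hv⟩
  choose a ha using hres
  let S := D.support
  let F : Place 𝕜 E → E := fun v => (x - algebraMap 𝕜 E (a v)) ^ (D v).toNat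
  have hF : ∀ v, F v ≠ 0 := fun v => pow_ne_zero _ (sub_ne hx _)
  have hdv : ∀ s : Finset (Place 𝕜 E), dv 𝕜 (∏ v ∈ s, F v) = ∑ v ∈ s, dv 𝕜 (F v) := by
    intro s
    induction s using Finset.induction_on with
    | empty => simp
    | insert v s hv ih =>
      rw [Finset.prod_insert hv, Finset.sum_insert hv,
        dv_mul (hF v) (Finset.prod_ne_zero_iff.2 fun w _ => hF w), ih]
  refine ⟨∏ v ∈ S, F v, Finset.prod_ne_zero_iff.2 fun v _ => hF v, ?_, ?_⟩
  · rw [hdv, map_sum]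
    apply Finset.sum_eq_zero
    intro v _
    rw [dv_pow (sub_ne hx _), map_nsmul, (h3 𝕜 E x hx hsep).2, smul_zero]
  · intro w hw
    rw [hdv, Finsupp.finsetSum_apply]
    have hnn : ∀ v ∈ S, 0 ≤ dv 𝕜 (F v) w := by
      intro v _
      rw [dv_apply, Place.pord_pow w (sub_ne hx _)]
      exact mul_nonneg (by positivity) (pord_sub_nonneg hx hw _)
    by_cases hwS : w ∈ S
    · have h1 : dv 𝕜 (F w) w ≤ ∑ v ∈ S, dv 𝕜 (F v) w := Finset.single_le_sum hnn hwS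
      have h2 : D w ≤ dv 𝕜 (F w) w := by
        rw [dv_apply, Place.pord_pow w (sub_ne hx _)]
        have h3 : (0 : ℤ) < w.pord (x - algebraMap 𝕜 E (a w)) := by
          rw [w.lt_pord_iff (sub_ne hx _)]
          exact ha w hw
        have h4 : ((D w).toNat : ℤ) * 1 ≤ ((D w).toNat : ℤ) * w.pord (x - algebraMap 𝕜 E (a w)) :=
          mul_le_mul_of_nonneg_left (by omega) (by positivity)
        have h5 := Int.self_le_toNat (D w)
        omega
      exact h2.trans h1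
    · have h1 : D w = 0 := by
        by_contra h
        exact hwS (Finsupp.mem_support_iff.2 h)
      rw [h1]
      exact Finset.sum_nonneg hnn

end IneqM

open IneqM in
/-- **RIneq** Riemann's inequality. -/
theorem tIneq (h0 : FStmtMono) (h1 : FStmtShift) (h2 : FStmtGrow) (h3 : FStmtPol) :
    FStmtIneq := by
  intro 𝕜 E _ _ _ _ _ hS
  obtain ⟨x, hx, hsep⟩ := hS
  classical
  obtain ⟨c, hc⟩ := h2 𝕜 E x hx
  obtain ⟨hB, _⟩ := h3 𝕜 E x hx hsep
  refine ⟨(Module.finrank 𝕜⟮x⟯ E : ℤ) * ((c : ℤ) - 1) + 1, ?_⟩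
  intro D
  obtain ⟨f, hf0, hfd, hfD⟩ := exists_clear h3 hx hsep D
  let m : ℕ := ∑ w ∈ (pol 𝕜 x).support, (D w - dv 𝕜 f w).natAbs
  have hle : D ≤ (m + c) • pol 𝕜 x + dv 𝕜 f := by
    intro w
    have hval : (((m + c) • pol 𝕜 x + dv 𝕜 f : Place 𝕜 E →₀ ℤ) : Place 𝕜 E → ℤ) w
        = ((m : ℤ) + c) * pol 𝕜 x w + dv 𝕜 f w := by
      rw [Finsupp.coe_add, Pi.add_apply, Finsupp.coe_smul, Pi.smul_apply, nsmul_eq_mul]
      push_cast
      ring
    rw [hval]
    have hpol0 : 0 ≤ pol 𝕜 x w := by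
      rw [pol_apply]
      exact le_max_right _ _
    by_cases hw : 0 ≤ w.ord x
    · have h4 := hfD w hw
      have h5 : 0 ≤ ((m : ℤ) + c) * pol 𝕜 x w := mul_nonneg (by positivity) hpol0
      omega
    · have h4 : w.pord x < 0 := by
        by_contra h
        apply hw
        rw [not_lt] at h
        exact (w.le_pord_iff (ne_zero_of hx) 0).1 h
      have h5 : 1 ≤ pol 𝕜 x w := by
        rw [pol_apply]
        have := le_max_left (-w.pord x) 0
        omega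
      have h6 : w ∈ (pol 𝕜 x).support := by
        rw [Finsupp.mem_support_iff]
        omega
      have h7 : (D w - dv 𝕜 f w).natAbs ≤ m :=
        Finset.single_le_sum (f := fun w => (D w - dv 𝕜 f w).natAbs) (fun _ _ => Nat.zero_le _) h6
      have h8 : ((m : ℤ) + c) * 1 ≤ ((m : ℤ) + c) * pol 𝕜 x w :=
        mul_le_mul_of_nonneg_left h5 (by positivity)
      omega
  have h4 := (h0 𝕜 E D _ hle).2
  rw [h1 𝕜 E _ f hf0, map_add, hfd, add_zero, map_nsmul, hB, nsmul_eq_mul] at h4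
  have h5 := hc m
  have h6 : ((Module.finrank 𝕜⟮x⟯ E : ℤ)) * ((m : ℤ) + 1) ≤ (ell ((m + c) • pol 𝕜 x) : ℤ) := by
    exact_mod_cast h5
  push_cast at h4
  linarith

end MP7Z
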