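import Pool.Agent.Lib.MP_7f581e_Z.FF.Spec

/-!
# InvClass: invariant classes contain invariant divisors
-/

set_option autoImplicit false

namespace MP7Z

theorem tInvClass (h0 : FStmtH90) : FStmtInvClass := by
  classical
  intro 𝕜 E _ _ _ _ _ q φ hφ M hM D hD h hh hhM hdiv
  have hne : ∀ i : ℕ, (φ ^ i) h ≠ 0 := fun i =>
    (map_ne_zero_iff (φ ^ i) (φ ^ i).injective).2 hh
  have hprod : ∀ n : ℕ, dv 𝕜 (∏ i ∈ Finset.range n, (φ ^ i) h) = cm (φ ^ n) D - D := by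
    intro n
    induction n with
    | zero => simp
    | succ n ih =>
      have hp : ∏ i ∈ Finset.range n, (φ ^ i) h ≠ 0 :=
        Finset.prod_ne_zero_iff.2 fun i _ => hne i
      rw [Finset.prod_range_succ, dv_mul hp (hne n), ih, ← cm_dv, ← hdiv, map_sub, ← cm_mul,
        ← pow_succ]
      abel
  have h1 : dv 𝕜 (∏ i ∈ Finset.range M, (φ ^ i) h) = 0 := by
    rw [hprod, (inv_iff _ _).1 hD, sub_self]
  obtain ⟨a, ha, hae⟩ := exists_const_of_dv_eq_zero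
    (Finset.prod_ne_zero_iff.2 fun i _ => hne i) h1
  obtain ⟨c, g, hc, hg, -, hgM, -, -, hfin⟩ := h0 𝕜 E q φ hφ M hM h hh hhM a hae
  refine ⟨g, hg, hgM, ?_⟩
  have hφg : φ g ≠ 0 := (map_ne_zero_iff φ φ.injective).2 hg
  have hce : algebraMap 𝕜 E c ≠ 0 := (map_ne_zero _).2 hc
  have h2 := congrArg (dv 𝕜) hfin
  rw [dv_mul hh hg, dv_mul hce hφg, dv_const, zero_add] at h2
  rw [inv_iff, map_sub, cm_dv, ← h2, ← hdiv]
  abel

end MP7Z
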