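import Pool.Agent.Lib.MP_7f581e_Z.FF.Spec

/-!
# FF/LocN: invariant divisors that are norms from the constant extension of degree `M`
-/

namespace MP7Z

namespace LocNM

theorem sum_period {γ : ℕ} (hγ : 0 < γ) (c b : ℤ) :
    ∑ j ∈ Finset.range γ, (if (γ : ℤ) ∣ c + (j : ℤ) then b else 0) = b := by
  have hγ' : (0 : ℤ) < γ := by exact_mod_cast hγ
  have hr0 := Int.emod_nonneg (-c) hγ'.ne'
  have hr1 := Int.emod_lt_of_pos (-c) hγ'
  obtain ⟨r, hr⟩ := Int.eq_ofNat_of_zero_le hr0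
  have hrd : (γ : ℤ) ∣ c + r := by
    have h1 : (-c) % γ + γ * ((-c) / γ) = -c := Int.emod_add_mul_ediv _ _
    rw [hr] at h1
    exact ⟨-((-c) / γ), by linarith⟩
  rw [Finset.sum_eq_single r]
  · rw [if_pos hrd]
  · intro j hj hjr
    rw [if_neg]
    intro h
    rw [Finset.mem_range] at hj
    have h2 : (γ : ℤ) ∣ (j : ℤ) - r := by
      have := dvd_sub h hrd
      rwa [add_sub_add_left_eq_sub] at this
    have h3 : (j : ℤ) - r = 0 := by
      apply Int.eq_zero_of_abs_lt_dvd h2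
      rw [abs_lt]
      constructor <;> omega
    exact hjr (by omega)
  · intro h
    exfalso
    apply h
    rw [Finset.mem_range]
    omega

theorem sum_periods {γ : ℕ} (hγ : 0 < γ) (c b : ℤ) (k : ℕ) :
    ∑ j ∈ Finset.range (γ * k), (if (γ : ℤ) ∣ c + (j : ℤ) then b else 0) = k * b := by
  induction k with
  | zero => simp
  | succ k ih =>
    rw [Nat.mul_succ, Finset.sum_range_add, ih]
    have h1 : ∀ j ∈ Finset.range γ, (if (γ : ℤ) ∣ c + ((γ * k + j : ℕ) : ℤ) then b else 0) =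
        if (γ : ℤ) ∣ c + (j : ℤ) then b else 0 := by
      intro j _
      have h2 : (γ : ℤ) ∣ c + ((γ * k + j : ℕ) : ℤ) ↔ (γ : ℤ) ∣ c + (j : ℤ) := by
        have h3 : c + ((γ * k + j : ℕ) : ℤ) = (γ : ℤ) * k + (c + j) := by push_cast; ring
        rw [h3]
        exact (Int.dvd_add_right (Dvd.intro _ rfl))
      simp only [h2]
    rw [Finset.sum_congr rfl h1, sum_period hγ]
    push_cast
    ring

variable {𝕜 E : Type} [Field 𝕜] [IsAlgClosed 𝕜] [Field E] [Algebra 𝕜 E]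

theorem zdvd {φ : E ≃+* E} {v : Place 𝕜 E} {d : ℕ}
    (h : ∀ n : ℕ, v.comap (φ ^ n) = v ↔ d ∣ n) {n : ℤ} (hn : v.comap (φ ^ n) = v) :
    (d : ℤ) ∣ n := by
  obtain ⟨k, rfl | rfl⟩ := n.eq_nat_or_neg
  · rw [zpow_natCast] at hn
    exact_mod_cast (h k).1 hn
  · have h1 : v.comap (φ ^ k) = v := by
      conv_lhs => rw [← hn]
      rw [← Place.comap_mul, ← zpow_natCast φ k, ← zpow_add, neg_add_cancel, zpow_zero,
        Place.comap_one]
    rw [dvd_neg]
    exact_mod_cast (h k).1 h1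

end LocNM

open LocNM in
theorem tLocN (h0 : FStmtOrbLen) (_h1 : FStmtPull) : FStmtLocN := by
  classical
  intro 𝕜 E _ _ _ _ _ q φ hφ M hM D hD hdvd
  have hO := h0 𝕜 E q φ hφ
  -- orbit length is constant on orbits
  have hlen : ∀ v w : Place 𝕜 E, orb φ v = orb φ w → orbLen φ v = orbLen φ w := by
    intro v w h
    rw [← (hO v).2.2.2, ← (hO w).2.2.2, h]
  -- representatives
  have hrep : ∀ v : Place 𝕜 E, ∃ n : ℤ, v = (Quotient.out (orb φ v)).comap (φ ^ n) := by
    intro v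
    have h4 : orb φ (Quotient.out (orb φ v)) = orb φ v := Quotient.out_eq _
    exact orb_eq_iff.1 h4
  choose n hn using hrep
  have horb : ∀ (v : Place 𝕜 E) (k : ℕ), orb φ (v.comap (φ ^ k)) = orb φ v := by
    intro v k
    symm
    rw [orb_eq_iff]
    exact ⟨k, by rw [zpow_natCast]⟩
  have hDk : ∀ (v : Place 𝕜 E) (k : ℕ), D (v.comap (φ ^ k)) = D v := by
    intro v k
    induction k with
    | zero => rw [pow_zero, Place.comap_one]
    | succ k ih => rw [pow_succ, Place.comap_mul, hD, ih]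
  have hlk : ∀ (v : Place 𝕜 E) (k : ℕ), orbLen φ (v.comap (φ ^ k)) = orbLen φ v :=
    fun v k => hlen _ _ (horb v k)
  have hnk : ∀ (v : Place 𝕜 E) (k : ℕ),
      (orbLen φ v : ℤ) ∣ n (v.comap (φ ^ k)) - (n v + k) := by
    intro v k
    have h1 := hn (v.comap (φ ^ k))
    rw [horb] at h1
    have h2 := hn v
    set r := Quotient.out (orb φ v) with hr
    have h4 : orb φ r = orb φ v := Quotient.out_eq _
    rw [← hlen _ _ h4]
    refine zdvd (hO r).2.1 (n := n (v.comap (φ ^ k)) - (n v + k)) ?_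
    have h3 : r.comap (φ ^ (n v + k)) = v.comap (φ ^ k) := by
      rw [zpow_add, Place.comap_mul, ← h2, zpow_natCast]
    rw [sub_eq_add_neg, zpow_add, Place.comap_mul, ← h1, ← h3, ← Place.comap_mul, ← zpow_add,
      add_neg_cancel, zpow_zero, Place.comap_one]
  -- the divisor
  set γ : Place 𝕜 E → ℕ := fun v => Nat.gcd M (orbLen φ v) with hγ
  set b : Place 𝕜 E → ℤ := fun v => D v / ((M / γ v : ℕ) : ℤ) with hb
  have hγM : ∀ v, γ v ∣ M := fun v => Nat.gcd_dvd_left _ _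
  have hγpos : ∀ v, 0 < γ v := fun v => Nat.gcd_pos_of_pos_left _ hM
  have hγk : ∀ (v : Place 𝕜 E) (k : ℕ), γ (v.comap (φ ^ k)) = γ v := by
    intro v k
    simp only [hγ, hlk]
  have hbk : ∀ (v : Place 𝕜 E) (k : ℕ), b (v.comap (φ ^ k)) = b v := by
    intro v k
    simp only [hb, hDk, hγk]
  have hbval : ∀ v, ((M / γ v : ℕ) : ℤ) * b v = D v := by
    intro v
    have h1 : ((M / γ v : ℕ) : ℤ) ∣ D v := by
      have h2 : ((M / γ v : ℕ) : ℤ) ∣ ((orbLen φ v / γ v : ℕ) : ℤ) * D v := by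
        have h3 : ((γ v : ℕ) : ℤ) ≠ 0 := by exact_mod_cast (hγpos v).ne'
        apply (mul_dvd_mul_iff_left h3).1
        rw [← mul_assoc, ← Nat.cast_mul, ← Nat.cast_mul, Nat.mul_div_cancel' (hγM v),
          Nat.mul_div_cancel' (Nat.gcd_dvd_right M (orbLen φ v))]
        exact hdvd v
      have h4 : IsCoprime ((M / γ v : ℕ) : ℤ) ((orbLen φ v / γ v : ℕ) : ℤ) :=
        Nat.isCoprime_iff_coprime.2 (Nat.coprime_div_gcd_div_gcd (hγpos v))
      exact h4.dvd_of_dvd_mul_left h2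
    exact Int.mul_ediv_cancel' h1
  set B : Place 𝕜 E →₀ ℤ := Finsupp.ofSupportFinite
    (fun v => if (γ v : ℤ) ∣ n v then b v else 0)
    (D.hasFiniteSupport.subset fun v hv => by
      intro h
      apply hv
      have h1 : b v = 0 := by
        simp only [hb, h, Int.zero_ediv]
      simp only [h1, ite_self]) with hB
  have hBv : ∀ v, B v = if (γ v : ℤ) ∣ n v then b v else 0 := fun v => rfl
  have hBk : ∀ (v : Place 𝕜 E) (k : ℕ), B (v.comap (φ ^ k)) =
      if (γ v : ℤ) ∣ n v + k then b v else 0 := by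
    intro v k
    rw [hBv, hγk, hbk]
    have h1 : (γ v : ℤ) ∣ n (v.comap (φ ^ k)) - (n v + k) :=
      dvd_trans (by exact_mod_cast Nat.gcd_dvd_right M (orbLen φ v)) (hnk v k)
    have h2 : (γ v : ℤ) ∣ n (v.comap (φ ^ k)) ↔ (γ v : ℤ) ∣ n v + k := by
      constructor
      · intro h
        exact (dvd_iff_dvd_of_dvd_sub h1).1 h
      · intro h
        exact (dvd_iff_dvd_of_dvd_sub h1).2 h
    simp only [h2]
  refine ⟨B, ?_, ?_⟩
  · intro v
    rw [hBk, hBv]
    have h2 : (γ v : ℤ) ∣ n v + M ↔ (γ v : ℤ) ∣ n v :=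
      Int.dvd_add_left (by exact_mod_cast hγM v)
    simp only [h2]
  · ext v
    rw [Finsupp.finsetSum_apply]
    have h3 : ∀ i ∈ Finset.range M, cm (φ ^ i) B v =
        if (γ v : ℤ) ∣ n v + (i : ℤ) then b v else 0 := by
      intro i _
      rw [cm_apply, hBk]
    rw [Finset.sum_congr rfl h3]
    have h4 : M = γ v * (M / γ v) := (Nat.mul_div_cancel' (hγM v)).symm
    rw [h4, sum_periods (hγpos v), hbval]

end MP7Z
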