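import Pool.Agent.Lib.MP_7f581e_Z.FF.Spec

/-!
# FF/Move: fixed functions with prescribed orders on a finite stable set of places
-/

namespace MP7Z

namespace MoveM

variable {𝕜 E : Type} [Field 𝕜] [IsAlgClosed 𝕜] [Field E] [Algebra 𝕜 E]

/-- A function of places invariant under `comap φ` is constant on orbits. -/
theorem const_orb {α : Type} {φ : E ≃+* E} {F : Place 𝕜 E → α} (hF : ∀ v, F (v.comap φ) = F v)
    {v w : Place 𝕜 E} (h : orb φ v = orb φ w) : F w = F v := by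
  obtain ⟨n, rfl⟩ := orb_eq_iff.1 h
  clear h
  induction n using Int.induction_on with
  | zero => rw [zpow_zero, Place.comap_one]
  | succ n ih => rw [zpow_add_one, Place.comap_mul, hF, ih]
  | pred n ih =>
    rw [← ih, ← hF (v.comap (φ ^ (-(n : ℤ) - 1))), ← Place.comap_mul, ← zpow_add_one,
      sub_add_cancel]

theorem orb_comap (φ : E ≃+* E) (v : Place 𝕜 E) : orb φ (v.comap φ) = orb φ v := by
  symm
  rw [orb_eq_iff]
  exact ⟨1, by rw [zpow_one]⟩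

theorem orb_finite {φ : E ≃+* E}
    (h1 : ∀ n : ℕ, 0 < n → {v : Place 𝕜 E | v.comap (φ ^ n) = v}.Finite)
    (h2 : ∀ v : Place 𝕜 E, ∃ n : ℕ, 0 < n ∧ v.comap (φ ^ n) = v) (v : Place 𝕜 E) :
    {w : Place 𝕜 E | orb φ w = orb φ v}.Finite := by
  obtain ⟨n, hn, hv⟩ := h2 v
  refine (h1 n hn).subset fun w hw => ?_
  obtain ⟨k, rfl⟩ := orb_eq_iff.1 (Eq.symm hw)
  change (v.comap (φ ^ k)).comap (φ ^ n) = v.comap (φ ^ k)
  rw [← Place.comap_mul, ← zpow_natCast φ n, ← zpow_add, add_comm, zpow_add, Place.comap_mul,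
    zpow_natCast, hv]

theorem mem_iff {φ : E ≃+* E} (h2 : ∀ v : Place 𝕜 E, ∃ n : ℕ, 0 < n ∧ v.comap (φ ^ n) = v)
    {T : Set (Place 𝕜 E)} (hT : ∀ v ∈ T, v.comap φ ∈ T) (v : Place 𝕜 E) :
    v.comap φ ∈ T ↔ v ∈ T := by
  refine ⟨fun h => ?_, hT v⟩
  obtain ⟨n, hn, hv⟩ := h2 v
  have h3 : ∀ k : ℕ, v.comap (φ ^ (k + 1)) ∈ T := by
    intro k
    induction k with
    | zero => rwa [zero_add, pow_one]
    | succ k ih =>
      rw [pow_succ, Place.comap_mul]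
      exact hT _ ih
  have h4 := h3 (n - 1)
  rwa [Nat.sub_add_cancel hn, hv] at h4

theorem dg_nonneg {P : Place 𝕜 E →₀ ℤ} (h : ∀ v, 0 ≤ P v) : 0 ≤ dg P := by
  rw [dg_eq]
  exact Finsupp.sum_nonneg fun v _ => h v

theorem dg_pos {P : Place 𝕜 E →₀ ℤ} (h : ∀ v, 0 ≤ P v) {v : Place 𝕜 E} (hv : 0 < P v) :
    0 < dg P := by
  classical
  have h1 : 0 ≤ dg (P - Finsupp.single v 1) := by
    apply dg_nonneg
    intro w
    rw [Finsupp.sub_apply, Finsupp.single_apply]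
    split_ifs with h2
    · subst h2; omega
    · have := h w
      omega
  rw [map_sub, dg_single] at h1
  omega

theorem step [IsCurveField 𝕜 E] (hs : FStmtSpan) {q : ℕ} {φ : E ≃+* E} (hφ : IsFrob 𝕜 q φ)
    {g : ℕ} {N : ℤ} (hN : ∀ D : Place 𝕜 E →₀ ℤ, N ≤ dg D → (ell D : ℤ) = dg D + 1 - g)
    (h1 : ∀ n : ℕ, 0 < n → {v : Place 𝕜 E | v.comap (φ ^ n) = v}.Finite)
    (h2 : ∀ v : Place 𝕜 E, ∃ n : ℕ, 0 < n ∧ v.comap (φ ^ n) = v) (h3 : Infinite (Place 𝕜 E))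
    {T : Set (Place 𝕜 E)} (hT : T.Finite) (hT' : ∀ v, v.comap φ ∈ T ↔ v ∈ T)
    {D : Place 𝕜 E → ℤ} (hD : ∀ v, D (v.comap φ) = D v) {v₀ : Place 𝕜 E} (hv₀ : v₀ ∈ T) :
    ∃ f : E, φ f = f ∧ (∀ w, orb φ w = orb φ v₀ → w.ord f = ((D w : ℤ) : WithTop ℤ)) ∧
      ∀ w ∈ T, orb φ w ≠ orb φ v₀ → ((D w + 1 : ℤ) : WithTop ℤ) ≤ w.ord f := by
  classical
  obtain ⟨v₁, hv₁⟩ := hT.exists_notMem
  set A₀ : Place 𝕜 E →₀ ℤ := Finsupp.ofSupportFinite
    (fun w => if w ∈ T then (if orb φ w = orb φ v₀ then - D w else - D w - 1) else 0)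
    (hT.subset fun w hw => by
      by_contra h
      exact hw (if_neg h)) with hA₀
  set P : Place 𝕜 E →₀ ℤ := Finsupp.ofSupportFinite
    (fun w => if w ∉ T ∧ orb φ w = orb φ v₁ then 1 else 0)
    ((orb_finite h1 h2 v₁).subset fun w hw => by
      by_contra h
      exact hw (if_neg fun h' => h h'.2)) with hP
  have hA₀a : ∀ w, A₀ w = if w ∈ T then (if orb φ w = orb φ v₀ then - D w else - D w - 1) else 0 :=
    fun w => rfl
  have hPa : ∀ w, P w = if w ∉ T ∧ orb φ w = orb φ v₁ then 1 else 0 := fun w => rfl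
  have hPpos : 0 < dg P := by
    refine dg_pos (v := v₁) ?_ ?_
    · intro w
      rw [hPa]
      split_ifs <;> norm_num
    · rw [hPa, if_pos ⟨hv₁, rfl⟩]
      norm_num
  obtain ⟨m, hm⟩ : ∃ m : ℕ, N + 1 ≤ dg A₀ + m * dg P := by
    refine ⟨(N + 1 - dg A₀).toNat, ?_⟩
    have h4 := Int.self_le_toNat (N + 1 - dg A₀)
    have h5 : (0 : ℤ) ≤ ((N + 1 - dg A₀).toNat : ℤ) := by positivity
    nlinarith
  set A : Place 𝕜 E →₀ ℤ := A₀ + m • P with hA
  have hdA : dg A = dg A₀ + m * dg P := by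
    rw [hA, map_add, map_nsmul, nsmul_eq_mul]
  have hAT : ∀ w ∈ T, A w = if orb φ w = orb φ v₀ then - D w else - D w - 1 := by
    intro w hw
    rw [hA, Finsupp.add_apply, Finsupp.smul_apply, hPa, if_neg (fun h => h.1 hw), smul_zero,
      add_zero, hA₀a, if_pos hw]
  have hAinv : ∀ w, A (w.comap φ) = A w := by
    intro w
    rw [hA, Finsupp.add_apply, Finsupp.smul_apply, Finsupp.add_apply, Finsupp.smul_apply, hPa, hPa,
      hA₀a, hA₀a]
    simp only [hT', orb_comap, hD]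
  -- the space is stable
  have hstab : ∀ f ∈ Lsp (A : Place 𝕜 E → ℤ), φ f ∈ Lsp (A : Place 𝕜 E → ℤ) := by
    intro f hf v
    have h4 := hf (v.comap φ)
    rw [hAinv, Place.comap_ord] at h4
    exact h4
  -- not equal
  set A' : Place 𝕜 E →₀ ℤ := A - Finsupp.single v₀ 1 with hA'
  have hA'v : (A : Place 𝕜 E → ℤ) v₀ = (A' : Place 𝕜 E → ℤ) v₀ + 1 := by
    rw [hA', Finsupp.sub_apply, Finsupp.single_eq_same]
    ring
  have hA'w : ∀ w, w ≠ v₀ → (A : Place 𝕜 E → ℤ) w = (A' : Place 𝕜 E → ℤ) w := by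
    intro w hw
    rw [hA', Finsupp.sub_apply, Finsupp.single_eq_of_ne hw, sub_zero]
  have hne : ¬ Lsp (A : Place 𝕜 E → ℤ) ≤ Lsp (A' : Place 𝕜 E → ℤ) := by
    intro hle
    have heq : Lsp (A : Place 𝕜 E → ℤ) = Lsp (A' : Place 𝕜 E → ℤ) := by
      apply le_antisymm hle
      apply Lsp_mono
      intro w
      rw [hA', Finsupp.sub_apply, Finsupp.single_apply]
      split_ifs <;> omega
    have h4 := hN A (by omega)
    have h5 := hN A' (by rw [hA', map_sub, dg_single]; omega)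
    have h6 : ell A = ell A' := by
      unfold ell
      rw [heq]
    rw [hA', map_sub, dg_single, ← hA', ← h6] at h5
    omega
  obtain ⟨f, ⟨hfA, hf⟩, hfA'⟩ : ∃ f ∈ {w : E | w ∈ Lsp (A : Place 𝕜 E → ℤ) ∧ φ w = w},
      f ∉ Lsp (A' : Place 𝕜 E → ℤ) := by
    by_contra hcon
    push Not at hcon
    exact hne (le_trans (hs 𝕜 E q φ hφ _ hstab) (Submodule.span_le.2 hcon))
  have hv₀f : v₀.ord f = ((D v₀ : ℤ) : WithTop ℤ) := by
    rw [ord_of_step hA'v hA'w hfA hfA']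
    congr 1
    have h4 := hAT v₀ hv₀
    rw [if_pos rfl] at h4
    omega
  refine ⟨f, hf, ?_, ?_⟩
  · intro w hw
    have h4 : w.ord f = v₀.ord f :=
      const_orb (F := fun v : Place 𝕜 E => v.ord f) (fun v => by
        change v.ord (φ f) = v.ord f
        rw [hf]) hw.symm
    have h5 : D w = D v₀ := const_orb (F := D) hD hw.symm
    rw [h4, h5, hv₀f]
  · intro w hw hne'
    have h4 := hfA w
    rw [hAT w hw, if_neg hne'] at h4
    have h5 : -(- D w - 1) = D w + 1 := by ring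
    rwa [h5] at h4

end MoveM

open MoveM in
theorem tMove (h0 : RiemannStmt) (h1 : FStmtSpan) (h2 : FStmtFin) : FStmtMove := by
  classical
  intro 𝕜 E _ _ _ _ _ q φ hφ T hT hTφ D hD
  obtain ⟨hf1, hf2, hf3⟩ := h2 𝕜 E q φ hφ
  obtain ⟨x, -, hx, hxs⟩ := hφ.sep
  obtain ⟨-, -, g, N, hN⟩ := h0 𝕜 E x hx hxs
  have hT' := mem_iff hf2 hTφ
  have hstep : ∀ v₀ : Place 𝕜 E, ∃ f : E, v₀ ∈ T → φ f = f ∧
      (∀ w, orb φ w = orb φ v₀ → w.ord f = ((D w : ℤ) : WithTop ℤ)) ∧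
      ∀ w ∈ T, orb φ w ≠ orb φ v₀ → ((D w + 1 : ℤ) : WithTop ℤ) ≤ w.ord f := by
    intro v₀
    by_cases hv₀ : v₀ ∈ T
    · obtain ⟨f, hf⟩ := step h1 hφ (g := g) (N := N) hN hf1 hf2 hf3 hT hT' hD hv₀
      exact ⟨f, fun _ => hf⟩
    · exact ⟨0, fun h => absurd h hv₀⟩
  choose F hF using hstep
  rcases T.eq_empty_or_nonempty with rfl | ⟨t₀, ht₀⟩
  · exact ⟨1, one_ne_zero, map_one φ, fun v hv => absurd hv (Set.notMem_empty v)⟩
  set S : Finset (Orb 𝕜 φ) := hT.toFinset.image (orb φ) with hS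
  have hout : ∀ p ∈ S, Quotient.out p ∈ T := by
    intro p hp
    obtain ⟨v, hv, rfl⟩ := Finset.mem_image.1 hp
    rw [Set.Finite.mem_toFinset] at hv
    have h4 : orb φ (Quotient.out (orb φ v)) = orb φ v := Quotient.out_eq _
    have h5 : (Quotient.out (orb φ v) ∈ T) = (v ∈ T) :=
      const_orb (F := fun v : Place 𝕜 E => v ∈ T) (fun v => propext (hT' v)) h4.symm
    rw [h5]
    exact hv
  have hord : ∀ v ∈ T, v.ord (∑ p ∈ S, F (Quotient.out p)) = ((D v : ℤ) : WithTop ℤ) := by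
    intro v hv
    have hvS : orb φ v ∈ S := Finset.mem_image_of_mem _ ((Set.Finite.mem_toFinset hT).2 hv)
    have h4 : ∀ p : Orb 𝕜 φ, orb φ (Quotient.out p) = p := fun p => Quotient.out_eq p
    have h5 : v.ord (F (Quotient.out (orb φ v))) = ((D v : ℤ) : WithTop ℤ) :=
      (hF _ (hout _ hvS)).2.1 v (h4 _).symm
    rw [v.ord_sum_of_lt (i0 := orb φ v) hvS, h5]
    · intro h0'
      rw [h0', AddValuation.map_zero] at h5
      exact WithTop.coe_ne_top h5.symm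
    · intro p hp hne
      rw [h5]
      refine lt_of_lt_of_le ?_ ((hF _ (hout p hp)).2.2 v hv ?_)
      · exact_mod_cast lt_add_one (D v)
      · rw [h4]
        exact hne.symm
  have hne : (∑ p ∈ S, F (Quotient.out p)) ≠ 0 := by
    intro h0'
    have h5 := hord t₀ ht₀
    rw [h0', AddValuation.map_zero] at h5
    exact WithTop.coe_ne_top h5.symm
  refine ⟨∑ p ∈ S, F (Quotient.out p), hne, ?_, ?_⟩
  · rw [map_sum]
    exact Finset.sum_congr rfl fun p hp => (hF _ (hout p hp)).1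
  · intro v hv
    rw [v.pord_eq_iff hne, hord v hv]

end MP7Z
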