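import Pool.Agent.Lib.MP_7f581e_Z.FF.Spec

/-!
# OrbLen: orbits of places under Frobenius
-/

set_option autoImplicit false

namespace MP7Z

theorem tOrbLen (h0 : FStmtFin) : FStmtOrbLen := by
  classical
  intro 𝕜 E _ _ _ _ _ q φ hφ v
  obtain ⟨-, hper, -⟩ := h0 𝕜 E q φ hφ
  have hit : ∀ (n : ℕ) (w : Place 𝕜 E), (fun w : Place 𝕜 E => w.comap φ)^[n] w
      = w.comap (φ ^ n) := by
    intro n
    induction n with
    | zero => intro w; simp
    | succ n ih =>
      intro w
      rw [Function.iterate_succ_apply', ih, pow_succ, Place.comap_mul]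
  have hiff : ∀ n : ℕ, v.comap (φ ^ n) = v ↔ orbLen φ v ∣ n := by
    intro n
    rw [← hit, orbLen]
    exact Function.isPeriodicPt_iff_minimalPeriod_dvd
  have hpos : 0 < orbLen φ v := by
    obtain ⟨n, hn, h⟩ := hper v
    have h1 := (hiff n).1 h
    exact Nat.pos_of_dvd_of_pos h1 hn
  -- the orbit
  have hred : ∀ n : ℤ, ∃ i < orbLen φ v, v.comap (φ ^ n) = v.comap (φ ^ i) := by
    intro n
    have hpos' : (0 : ℤ) < orbLen φ v := by exact_mod_cast hpos
    have h1 := Int.emod_nonneg n hpos'.ne'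
    have h2 := Int.emod_lt_of_pos n hpos'
    refine ⟨(n % orbLen φ v).toNat, by omega, ?_⟩
    have h3 : n = (orbLen φ v : ℤ) * (n / orbLen φ v) + n % orbLen φ v :=
      (Int.mul_ediv_add_emod n _).symm
    have h4 : v.comap (φ ^ ((orbLen φ v : ℤ) * (n / orbLen φ v))) = v := by
      have h5 : v.comap (φ ^ (orbLen φ v : ℤ)) = v := by
        rw [zpow_natCast]
        exact (hiff _).2 dvd_rfl
      have h6 : ∀ k : ℕ, v.comap ((φ ^ (orbLen φ v : ℤ)) ^ k) = v := by
        intro k
        induction k with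
        | zero => simp
        | succ k ih => rw [pow_succ, Place.comap_mul, ih, h5]
      rw [zpow_mul]
      obtain ⟨k, hk | hk⟩ := (n / (orbLen φ v : ℤ)).eq_nat_or_neg
      · rw [hk, zpow_natCast]; exact h6 k
      · rw [hk, zpow_neg, zpow_natCast]
        have h8 := congrArg (fun w : Place 𝕜 E => w.comap ((φ ^ (orbLen φ v : ℤ)) ^ k)⁻¹) (h6 k)
        simp only [← Place.comap_mul, mul_inv_cancel, Place.comap_one] at h8
        exact h8.symm
    conv_lhs => rw [h3, zpow_add, Place.comap_mul, h4]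
    rw [← zpow_natCast, Int.toNat_of_nonneg h1]
  have hset : {w : Place 𝕜 E | orb φ w = orb φ v}
      = (fun i : ℕ => v.comap (φ ^ i)) '' (Finset.range (orbLen φ v) : Set ℕ) := by
    ext w
    rw [Set.mem_setOf_eq, Set.mem_image]
    constructor
    · intro h
      obtain ⟨n, hn⟩ := orb_eq_iff.1 h.symm
      obtain ⟨i, hi, h2⟩ := hred n
      exact ⟨i, by simpa using hi, by rw [hn, h2]⟩
    · rintro ⟨i, -, rfl⟩
      symm
      rw [orb_eq_iff]
      exact ⟨i, by rw [zpow_natCast]⟩
  have hinj : Set.InjOn (fun i : ℕ => v.comap (φ ^ i)) (Finset.range (orbLen φ v) : Set ℕ) := by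
    have key : ∀ i j : ℕ, i ≤ j → j < orbLen φ v → v.comap (φ ^ i) = v.comap (φ ^ j) → i = j := by
      intro i j hij hj h
      have h1 : v.comap (φ ^ (j - i)) = v := by
        have h2 : φ ^ j = φ ^ (j - i) * φ ^ i := by rw [← pow_add, Nat.sub_add_cancel hij]
        rw [h2, Place.comap_mul] at h
        have h3 := congrArg (fun w : Place 𝕜 E => w.comap (φ ^ i)⁻¹) h
        simp only [← Place.comap_mul, mul_inv_cancel, Place.comap_one, mul_assoc] at h3
        rw [mul_one] at h3
        exact h3.symm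
      have h4 := (hiff _).1 h1
      have h5 := Nat.eq_zero_of_dvd_of_lt h4 (by omega)
      omega
    intro i hi j hj h
    simp only [Finset.coe_range, Set.mem_Iio] at hi hj
    rcases le_total i j with h1 | h1
    · exact key i j h1 hj h
    · exact (key j i h1 hi h.symm).symm
  refine ⟨hpos, hiff, ?_, ?_⟩
  · rw [hset]
    exact (Finset.finite_toSet _).image _
  · unfold orbDeg
    have h1 : Nat.card {w : Place 𝕜 E // orb φ w = orb φ v}
        = ({w : Place 𝕜 E | orb φ w = orb φ v}).ncard := rfl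
    rw [h1, hset, Set.ncard_image_of_injOn hinj, Set.ncard_coe_finset, Finset.card_range]

end MP7Z
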