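import Pool.Agent.Lib.MP_7f581e_Z.FF.Spec

/-!
# Package FF, module PMain: the statement (P')
-/

namespace MP7Z

namespace PMainM

variable {𝕜 E : Type} [Field 𝕜] [IsAlgClosed 𝕜] [Field E] [Algebra 𝕜 E]

theorem comap_comm {φ τ : E ≃+* E} (h : Commute τ φ) (v : Place 𝕜 E) (n : ℤ) :
    (v.comap (φ ^ n)).comap τ = (v.comap τ).comap (φ ^ n) := by
  rw [← Place.comap_mul, ← Place.comap_mul, (h.zpow_right n).eq]

/-- The action of an automorphism commuting with `φ` on the orbits. -/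
noncomputable def os {φ τ : E ≃+* E} (h : Commute τ φ) : Orb 𝕜 φ → Orb 𝕜 φ :=
  Quotient.map (fun v => v.comap τ) (by
    rintro v w ⟨n, rfl⟩
    exact ⟨n, comap_comm h v n⟩)

theorem os_orb {φ τ : E ≃+* E} (h : Commute τ φ) (v : Place 𝕜 E) :
    os h (orb φ v) = orb φ (v.comap τ) := rfl

theorem os_os {φ τ τ' : E ≃+* E} (h : Commute τ φ) (h' : Commute τ' φ) (hh : τ * τ' = 1)
    (p : Orb 𝕜 φ) : os h' (os h p) = p := by
  obtain ⟨v, rfl⟩ := orb_surjective φ p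
  rw [os_orb, os_orb, ← Place.comap_mul, hh, Place.comap_one]

variable (𝕜) in
/-- The permutation of the orbits. -/
noncomputable def osE {φ τ : E ≃+* E} (h : Commute τ φ) : Orb 𝕜 φ ≃ Orb 𝕜 φ where
  toFun := os h
  invFun := os (τ := τ⁻¹) h.inv_left
  left_inv := os_os h h.inv_left (mul_inv_cancel τ)
  right_inv := os_os h.inv_left h (inv_mul_cancel τ)

theorem osE_orb {φ τ : E ≃+* E} (h : Commute τ φ) (v : Place 𝕜 E) :
    osE 𝕜 h (orb φ v) = orb φ (v.comap τ) := rfl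

theorem osE_symm_orb {φ τ : E ≃+* E} (h : Commute τ φ) (v : Place 𝕜 E) :
    (osE 𝕜 h).symm (orb φ v) = orb φ (v.comap τ⁻¹) := rfl

theorem orbDeg_osE {φ τ : E ≃+* E} (h : Commute τ φ) (p : Orb 𝕜 φ) :
    orbDeg φ (osE 𝕜 h p) = orbDeg φ p := by
  symm
  refine Nat.card_congr ?_
  refine (comapEquiv 𝕜 τ).subtypeEquiv fun v => ?_
  change orb φ v = p ↔ orb φ (v.comap τ) = osE 𝕜 h p
  rw [← osE_orb h, (osE 𝕜 h).injective.eq_iff]

variable (𝕜) in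
/-- The induced map on divisors. -/
noncomputable def ps {φ τ : E ≃+* E} (h : Commute τ φ) : (Orb 𝕜 φ →₀ ℤ) ≃+ (Orb 𝕜 φ →₀ ℤ) :=
  Finsupp.domCongr (osE 𝕜 h)

theorem ps_apply {φ τ : E ≃+* E} (h : Commute τ φ) (A : Orb 𝕜 φ →₀ ℤ) (p : Orb 𝕜 φ) :
    ps 𝕜 h A p = A ((osE 𝕜 h).symm p) := rfl

theorem ps_single {φ τ : E ≃+* E} (h : Commute τ φ) (p : Orb 𝕜 φ) (n : ℤ) :
    ps 𝕜 h (Finsupp.single p n) = Finsupp.single (osE 𝕜 h p) n :=
  Finsupp.equivMapDomain_single _ _ _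

theorem zdeg_ps {φ τ : E ≃+* E} (h : Commute τ φ) (A : Orb 𝕜 φ →₀ ℤ) :
    zdeg (orbDeg φ) (ps 𝕜 h A) = zdeg (orbDeg φ) A := by
  rw [zdeg, zdeg]
  have h1 := Finsupp.sum_equivMapDomain (osE 𝕜 h) A (fun p n => n * (orbDeg φ p : ℤ))
  refine h1.trans ?_
  simp only [orbDeg_osE]

theorem ps_prin {φ τ : E ≃+* E} (h : Commute τ φ) {A : Orb 𝕜 φ →₀ ℤ} (hA : A ∈ PrinOrb 𝕜 φ) :
    ps 𝕜 h A ∈ PrinOrb 𝕜 φ := by
  obtain ⟨f, hf, hf', hA⟩ := hA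
  refine ⟨τ⁻¹ f, ?_, ?_, fun v => ?_⟩
  · exact (map_ne_zero_iff (τ⁻¹ : E ≃+* E) (τ⁻¹ : E ≃+* E).injective).2 hf
  · have h1 : (φ * τ⁻¹) f = (τ⁻¹ * φ) f := by rw [h.inv_left.eq]
    change (φ * τ⁻¹) f = τ⁻¹ f
    rw [h1]
    change τ⁻¹ (φ f) = τ⁻¹ f
    rw [hf']
  · rw [ps_apply, osE_symm_orb, hA]
    rfl

variable (𝕜) in
/-- The orbit of a bad place. -/
def BadO (φ : E ≃+* E) (ℓ : ℕ) (x : E) (p : Orb 𝕜 φ) : Prop :=
  ∃ v : Place 𝕜 E, orb φ v = p ∧ Bad ℓ x v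

theorem zpow_fix {φ : E ≃+* E} {x : E} (hx : φ x = x) (n : ℤ) : (φ ^ n) x = x := by
  have hn : ∀ m : ℕ, (φ ^ m) x = x := by
    intro m
    induction m with
    | zero => rfl
    | succ m ih =>
      rw [pow_succ]
      change (φ ^ m) (φ x) = x
      rw [hx, ih]
  obtain ⟨m, rfl | rfl⟩ := n.eq_nat_or_neg
  · rw [zpow_natCast]
    exact hn m
  · rw [zpow_neg, zpow_natCast]
    have h1 : ((φ ^ m)⁻¹ * φ ^ m) x = x := by
      rw [inv_mul_cancel]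
      rfl
    have h2 : ((φ ^ m)⁻¹) ((φ ^ m) x) = x := h1
    rwa [hn m] at h2

theorem bad_comap {φ : E ≃+* E} {x : E} (hx : φ x = x) (ℓ : ℕ) (v : Place 𝕜 E) (n : ℤ)
    (h : Bad ℓ x v) : Bad ℓ x (v.comap (φ ^ n)) := by
  rcases h with h | ⟨m, hm, hm', h⟩
  · left
    rw [Place.comap_ord, zpow_fix hx]
    exact h
  · right
    refine ⟨m, hm, hm', ?_⟩
    rw [Place.comap_ord, map_sub, map_pow, zpow_fix hx, map_one]
    exact h

theorem bad_iff {φ : E ≃+* E} {x : E} (hx : φ x = x) (ℓ : ℕ) (v : Place 𝕜 E) :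
    BadO 𝕜 φ ℓ x (orb φ v) ↔ Bad ℓ x v := by
  constructor
  · rintro ⟨w, hw, hb⟩
    obtain ⟨n, rfl⟩ := orb_eq_iff.1 hw
    exact bad_comap hx ℓ w n hb
  · exact fun h => ⟨v, rfl, h⟩

/-- The subgroup of the divisors which are, on the exceptional primes, congruent to a principal
divisor modulo `ℓ`. -/
def HH (𝕜 : Type) {E : Type} [Field 𝕜] [IsAlgClosed 𝕜] [Field E] [Algebra 𝕜 E]
    (φ : E ≃+* E) (ℓ : ℕ) (Ex : Set (Orb 𝕜 φ)) : AddSubgroup (Orb 𝕜 φ →₀ ℤ) where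
  carrier := {B | ∃ C : Orb 𝕜 φ →₀ ℤ, ∃ P ∈ PrinOrb 𝕜 φ, ∀ p ∈ Ex, B p = ℓ * C p + P p}
  zero_mem' := ⟨0, 0, (PrinOrb 𝕜 φ).zero_mem, fun p _ => by simp⟩
  add_mem' := by
    rintro A B ⟨C, P, hP, h⟩ ⟨C', P', hP', h'⟩
    refine ⟨C + C', P + P', (PrinOrb 𝕜 φ).add_mem hP hP', fun p hp => ?_⟩
    rw [Finsupp.add_apply, Finsupp.add_apply, Finsupp.add_apply, h p hp, h' p hp]
    ring
  neg_mem' := by
    rintro A ⟨C, P, hP, h⟩
    refine ⟨-C, -P, (PrinOrb 𝕜 φ).neg_mem hP, fun p hp => ?_⟩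
    rw [Finsupp.neg_apply, Finsupp.neg_apply, Finsupp.neg_apply, h p hp]
    ring

theorem mem_HH_of_prin {φ : E ≃+* E} {ℓ : ℕ} {Ex : Set (Orb 𝕜 φ)} {P : Orb 𝕜 φ →₀ ℤ}
    (hP : P ∈ PrinOrb 𝕜 φ) : P ∈ HH 𝕜 φ ℓ Ex := ⟨0, P, hP, fun p _ => by simp⟩

theorem mem_HH_of_zero {φ : E ≃+* E} {ℓ : ℕ} {Ex : Set (Orb 𝕜 φ)} {P : Orb 𝕜 φ →₀ ℤ}
    (hP : ∀ p ∈ Ex, P p = 0) : P ∈ HH 𝕜 φ ℓ Ex :=
  ⟨0, 0, (PrinOrb 𝕜 φ).zero_mem, fun p hp => by simp [hP p hp]⟩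

theorem smul_mem_HH {φ : E ≃+* E} {ℓ : ℕ} {Ex : Set (Orb 𝕜 φ)} (P : Orb 𝕜 φ →₀ ℤ) :
    ℓ • P ∈ HH 𝕜 φ ℓ Ex :=
  ⟨P, 0, (PrinOrb 𝕜 φ).zero_mem, fun p hp => by simp⟩

end PMainM

open PMainM

theorem tPMain (h0 : ZStmtTwo) (h1 : ZStmtChar) (h2 : FStmtZeta) (h3 : FStmtPull)
    (h4 : FStmtOrbLen) (h5 : FStmtMove) (h6 : FStmtBadDisj) (h7 : FStmtFin) : FStmtPMain := by
  intro 𝕜 E _ _ _ _ _ q φ hφ ℓ hℓ hℓ0 ζ hζ hζq x hx hxφ σ hσφ hσx T hT D hD hDf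
  classical
  have hx0 : x ≠ 0 := by
    rintro rfl
    exact hx (isAlgebraic_zero)
  -- the divisor on orbits
  let Dd : Place 𝕜 E →₀ ℤ := Finsupp.ofSupportFinite D hDf
  have hDd : ∀ v, Dd v = D v := fun v => rfl
  obtain ⟨e, he, -, hes⟩ := h3 𝕜 E q φ hφ
  obtain ⟨A₀, hA₀⟩ := hes Dd fun v => hD v
  have hA₀' : ∀ v, A₀ (orb φ v) = D v := fun v => by rw [← he, hA₀, hDd]
  have Z := h2 𝕜 E q φ hφ
  have hcomm : Commute (σ : E ≃+* E) φ := by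
    apply RingEquiv.ext
    intro f
    exact hσφ f
  set Ex : Set (Orb 𝕜 φ) := {p | BadO 𝕜 φ ℓ x p ∨ p ∈ orb φ '' T} with hEx
  by_cases hmem : A₀ ∈ HH 𝕜 φ ℓ Ex
  · obtain ⟨C, P, ⟨f, hf, hf', hP⟩, h⟩ := hmem
    refine ⟨f, hf, hf', fun v hv => ?_⟩
    have hp : orb φ v ∈ Ex := by
      rcases hv with hv | hv
      · exact Or.inr ⟨v, hv, rfl⟩
      · exact Or.inl ⟨v, rfl, hv⟩
    have h8 := h _ hp
    rw [hA₀', hP] at h8
    rw [h8]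
    exact ⟨-C (orb φ v), by ring⟩
  exfalso
  obtain ⟨χ, hχH, hχA⟩ := h1 _ (HH 𝕜 φ ℓ Ex) ℓ hℓ.pos (fun g => smul_mem_HH g) A₀ hmem
  -- the translated character
  let χ' : (Orb 𝕜 φ →₀ ℤ) →+ ZMod ℓ := χ.comp (ps 𝕜 hcomm).toAddMonoidHom
  have hχ' : ∀ A, χ' A = χ (ps 𝕜 hcomm A) := fun A => rfl
  -- both exceptional
  have hboth : ∀ p : Orb 𝕜 φ, BadO 𝕜 φ ℓ x p → BadO 𝕜 φ ℓ x (osE 𝕜 hcomm p) →
      ∃ v, orb φ v = p ∧ 0 < v.ord x := by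
    intro p hp hp'
    obtain ⟨v, rfl⟩ := orb_surjective φ p
    rw [bad_iff hxφ] at hp
    rw [osE_orb, bad_iff hxφ] at hp'
    exact ⟨v, rfl, h6 𝕜 E ℓ hℓ ζ hζ x σ hσx v hp hp'⟩
  -- the finite set of exceptions
  set S : Set (Orb 𝕜 φ) := {p | p ∈ orb φ '' T ∨ osE 𝕜 hcomm p ∈ orb φ '' T ∨
    ∃ v, orb φ v = p ∧ 0 < v.ord x} with hS
  have hSfin : S.Finite := by
    have e1 : (orb φ '' T).Finite := hT.image _
    have e2 : {p : Orb 𝕜 φ | osE 𝕜 hcomm p ∈ orb φ '' T}.Finite :=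
      e1.preimage (osE 𝕜 hcomm).injective.injOn
    have e3 : {p : Orb 𝕜 φ | ∃ v, orb φ v = p ∧ 0 < v.ord x}.Finite := by
      refine ((finite_ord_ne (𝕜 := 𝕜) hx0).image (orb φ)).subset ?_
      rintro p ⟨v, rfl, hv⟩
      exact ⟨v, hv.ne', rfl⟩
    exact (e1.union (e2.union e3)).subset fun p hp => hp
  have hχnot : ∀ p, p ∉ Ex → χ (Finsupp.single p 1) = 0 := by
    intro p hp
    refine hχH _ (mem_HH_of_zero fun p' hp' => ?_)
    rw [Finsupp.single_apply, if_neg]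
    rintro rfl
    exact hp hp'
  have hχdeg : ∀ A, zdeg (orbDeg φ) A = 0 → χ A = 0 := by
    have h8 := h0 (Orb 𝕜 φ) (orbDeg φ) (PrinOrb 𝕜 φ) Z ℓ hℓ χ χ'
      (fun A hA => hχH _ (mem_HH_of_prin hA)) (fun A hA => hχH _ (mem_HH_of_prin (ps_prin hcomm hA)))
      hSfin.toFinset (by
        intro p hp
        rw [Set.Finite.mem_toFinset, hS] at hp
        by_contra hne
        push Not at hne
        obtain ⟨n1, n2⟩ := hne
        rw [hχ', ps_single] at n2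
        have m1 : p ∈ Ex := by
          by_contra hc
          exact n1 (hχnot p hc)
        have m2 : osE 𝕜 hcomm p ∈ Ex := by
          by_contra hc
          exact n2 (hχnot _ hc)
        apply hp
        rcases m1 with m1 | m1
        · rcases m2 with m2 | m2
          · exact Or.inr (Or.inr (hboth p m1 m2))
          · exact Or.inr (Or.inl m2)
        · exact Or.inl m1)
    rcases h8 with h8 | h8
    · exact h8
    · intro A hA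
      have h9 := h8 ((ps 𝕜 hcomm).symm A) (by
        rw [← zdeg_ps hcomm, AddEquiv.apply_symm_apply]
        exact hA)
      rwa [hχ', AddEquiv.apply_symm_apply] at h9
  -- move away from `S`
  have hTT : {v : Place 𝕜 E | orb φ v ∈ S}.Finite := by
    refine Set.Finite.preimage' (f := orb φ) hSfin fun p _ => ?_
    obtain ⟨v, rfl⟩ := orb_surjective φ p
    exact (h4 𝕜 E q φ hφ v).2.2.1
  have horb : ∀ v : Place 𝕜 E, orb φ (v.comap φ) = orb φ v := by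
    intro v
    symm
    rw [orb_eq_iff]
    exact ⟨1, by rw [zpow_one]⟩
  obtain ⟨f, hf, hf', hfD⟩ := h5 𝕜 E q φ hφ {v | orb φ v ∈ S} hTT
    (fun v hv => by
      change orb φ (v.comap φ) ∈ S
      rw [horb]
      exact hv) D hD
  obtain ⟨Pf, hPf⟩ := hes (dv 𝕜 f) fun v => by
    rw [dv_apply, dv_apply, Place.comap_pord, hf']
  have hPf' : ∀ v, Pf (orb φ v) = v.pord f := fun v => by rw [← he, hPf, dv_apply]
  have hPfm : Pf ∈ PrinOrb 𝕜 φ := ⟨f, hf, hf', hPf'⟩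
  set A' := A₀ - Pf with hA'
  have hχA' : χ A' = χ A₀ := by
    rw [hA', map_sub, hχH _ (mem_HH_of_prin hPfm), sub_zero]
  have hA'S : ∀ p ∈ S, A' p = 0 := by
    intro p hp
    obtain ⟨v, rfl⟩ := orb_surjective φ p
    rw [hA', Finsupp.sub_apply, hA₀', hPf', hfD v hp, sub_self]
  set A₁ := A'.filter (fun p => BadO 𝕜 φ ℓ x p) with hA₁
  set A₂ := A'.filter (fun p => ¬ BadO 𝕜 φ ℓ x p) with hA₂
  have hsum : A₁ + A₂ = A' := Finsupp.filter_pos_add_filter_neg A' _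
  have hχ₂ : χ A₂ = 0 := by
    refine hχH _ (mem_HH_of_zero fun p hp => ?_)
    rw [hA₂, Finsupp.filter_apply]
    rcases hp with hp | hp
    · rw [if_neg (not_not.2 hp)]
    · rw [hA'S p (Or.inl hp), ite_self]
  have hχ₁ : χ A₁ = χ (ps 𝕜 hcomm A₁) := by
    rw [← sub_eq_zero, ← map_sub]
    apply hχdeg
    rw [zdeg_sub, zdeg_ps, sub_self]
  have hχ₁' : χ (ps 𝕜 hcomm A₁) = 0 := by
    refine hχH _ (mem_HH_of_zero fun p hp => ?_)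
    rw [ps_apply]
    set p' := (osE 𝕜 hcomm).symm p with hp'
    have hpp : osE 𝕜 hcomm p' = p := (osE 𝕜 hcomm).apply_symm_apply p
    rw [hA₁, Finsupp.filter_apply]
    split_ifs with hb
    · apply hA'S
      rcases hp with hp | hp
      · refine Or.inr (Or.inr (hboth p' hb ?_))
        rw [hpp]
        exact hp
      · refine Or.inr (Or.inl ?_)
        rw [hpp]
        exact hp
    · rfl
  apply hχA
  rw [← hχA', ← hsum, map_add, hχ₂, hχ₁, hχ₁', add_zero]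

end MP7Z
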