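import Pool.Agent.Lib.MP_7f581e_Z.FF.Spec

/-!
# Pol: the degree of the divisor of poles
-/

set_option autoImplicit false

namespace MP7Z

open scoped IntermediateField

variable {𝕜 E : Type} [Field 𝕜] [IsAlgClosed 𝕜] [Field E] [Algebra 𝕜 E] [IsCurveField 𝕜 E]

theorem PolM.adjoin_inv (x : E) : (𝕜⟮x⁻¹⟯ : IntermediateField 𝕜 E) = 𝕜⟮x⟯ := by
  apply le_antisymm
  · rw [IntermediateField.adjoin_simple_le_iff]
    exact inv_mem (IntermediateField.mem_adjoin_simple_self 𝕜 x)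
  · rw [IntermediateField.adjoin_simple_le_iff]
    have h := inv_mem (IntermediateField.mem_adjoin_simple_self 𝕜 (x⁻¹ : E))
    rwa [inv_inv] at h

/-- the divisor of zeros -/
theorem PolM.zeros (x : E) (hx : Transcendental 𝕜 x) (hs : Algebra.IsSeparable 𝕜⟮x⟯ E) :
    (dv 𝕜 x).sum (fun _ n => max n 0) = (Module.finrank 𝕜⟮x⟯ E : ℤ) := by
  classical
  obtain ⟨S, h1, h2⟩ := sum_zeros hx
  have hx0 : x ≠ 0 := by
    rintro rfl
    exact hx isAlgebraic_zero
  rw [← h2]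
  have h3 : ∀ v : Place 𝕜 E, v ∈ S ↔ 0 < v.pord x := by
    intro v
    rw [h1, v.ord_eq_pord hx0]
    exact_mod_cast Iff.rfl
  have hsub : S ⊆ (dv 𝕜 x).support := by
    intro v hv
    rw [Finsupp.mem_support_iff, dv_apply]
    exact ((h3 v).1 hv).ne'
  rw [Finsupp.sum, ← Finset.sum_subset hsub]
  · refine Finset.sum_congr rfl fun v hv => ?_
    rw [dv_apply]
    exact max_eq_left ((h3 v).1 hv).le
  · intro v _ hv
    rw [dv_apply]
    exact max_eq_right (not_lt.1 fun h => hv ((h3 v).2 h))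

theorem PolM.poles (x : E) (hx : Transcendental 𝕜 x) (hs : Algebra.IsSeparable 𝕜⟮x⟯ E) :
    dg (pol 𝕜 x) = (Module.finrank 𝕜⟮x⟯ E : ℤ) := by
  classical
  have hx0 : x ≠ 0 := by
    rintro rfl
    exact hx isAlgebraic_zero
  have hxi : Transcendental 𝕜 x⁻¹ := by
    intro h
    apply hx
    have := h.inv
    rwa [inv_inv] at this
  have h1 := PolM.zeros (𝕜 := 𝕜) x⁻¹ hxi (by rw [PolM.adjoin_inv]; exact hs)
  rw [PolM.adjoin_inv] at h1
  rw [← h1, dg_eq, pol, Finsupp.sum_mapRange_index (by simp), dv_inv hx0,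
    Finsupp.sum_neg_index (by simp)]

theorem tPol : FStmtPol := by
  classical
  intro 𝕜 E _ _ _ _ _ x hx hs
  refine ⟨PolM.poles x hx hs, fun c => ?_⟩
  have hx0 : x ≠ 0 := by
    rintro rfl
    exact hx isAlgebraic_zero
  have hy : Transcendental 𝕜 (x - algebraMap 𝕜 E c) := by
    intro h
    apply hx
    have h1 := h.add (isAlgebraic_algebraMap c)
    rwa [sub_add_cancel] at h1
  have hsy : Algebra.IsSeparable 𝕜⟮x - algebraMap 𝕜 E c⟯ E := by
    rw [adjoin_sub_const]; exact hs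
  have h1 := PolM.zeros _ hy hsy
  have h2 := PolM.poles _ hy hsy
  have h3 : dg (dv 𝕜 (x - algebraMap 𝕜 E c))
      = (dv 𝕜 (x - algebraMap 𝕜 E c)).sum (fun _ n => max n 0)
        - dg (pol 𝕜 (x - algebraMap 𝕜 E c)) := by
    rw [dg_eq, dg_eq, pol, Finsupp.sum_mapRange_index (by simp), ← Finsupp.sum_sub]
    refine Finsupp.sum_congr fun v _ => ?_
    omega
  rw [h3, h1, h2, sub_self]

end MP7Z
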