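import Pool.Agent.Lib.MP_7f581e_Z.FF.Spec

/-!
# The divisor of a function has degree zero
-/

namespace MP7Z

theorem tProd (h0 : FStmtIneq) (h1 : FStmtShift) : FStmtProd := by
  intro 𝕜 E _ _ _ _ _ hS f hf
  obtain ⟨g, hg⟩ := h0 𝕜 E hS
  have hz : ell (0 : Place 𝕜 E →₀ ℤ) = 1 := finrank_Lsp_zero
  have key : ∀ (f : E), f ≠ 0 → ∀ m : ℕ, (m : ℤ) * dg (dv 𝕜 f) ≤ g := by
    intro f hf m
    have h2 := h1 𝕜 E 0 (f ^ m) (pow_ne_zero _ hf)
    rw [zero_add, hz] at h2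
    have h3 := hg (dv 𝕜 (f ^ m))
    rw [h2, dv_pow hf, map_nsmul] at h3
    simp only [nsmul_eq_mul, Nat.cast_one] at h3
    linarith
  have key2 : ∀ f : E, f ≠ 0 → dg (dv 𝕜 f) ≤ 0 := by
    intro f hf
    by_contra hpos
    push Not at hpos
    have h2 := key f hf (g.toNat + 1)
    have h3 : g ≤ g.toNat := Int.self_le_toNat g
    push_cast at h2
    nlinarith
  have h4 := key2 f hf
  have h5 := key2 f⁻¹ (inv_ne_zero hf)
  rw [dv_inv hf, map_neg] at h5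
  linarith

end MP7Z
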