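import Pool.Agent.Lib.MP_7f581e_Z.FF.Spec

/-!
# Invariant divisors are the divisors on orbits
-/

namespace MP7Z.PullM

variable {𝕜 E : Type} [Field 𝕜] [IsAlgClosed 𝕜] [Field E] [Algebra 𝕜 E]

theorem inv_pow {φ : E ≃+* E} {D : Place 𝕜 E →₀ ℤ} (hD : Inv φ D) (v : Place 𝕜 E) (n : ℕ) :
    D (v.comap (φ ^ n)) = D v := by
  induction n with
  | zero => simp
  | succ n ih => rw [pow_succ, Place.comap_mul, hD, ih]

theorem inv_zpow {φ : E ≃+* E} {D : Place 𝕜 E →₀ ℤ} (hD : Inv φ D) (v : Place 𝕜 E) (n : ℤ) :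
    D (v.comap (φ ^ n)) = D v := by
  obtain ⟨m, rfl | rfl⟩ := n.eq_nat_or_neg
  · rw [zpow_natCast, inv_pow hD]
  · have h1 := inv_pow hD (v.comap (φ ^ (-(m : ℤ)))) m
    rw [← h1, ← Place.comap_mul, zpow_neg, zpow_natCast, inv_mul_cancel, Place.comap_one]

/-- the finitely supported function on places induced by a divisor on orbits -/
noncomputable def eFun {φ : E ≃+* E} (hfin : ∀ p : Orb 𝕜 φ, {w : Place 𝕜 E | orb φ w = p}.Finite)
    (A : Orb 𝕜 φ →₀ ℤ) : Place 𝕜 E →₀ ℤ :=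
  Finsupp.ofSupportFinite (fun v => A (orb φ v)) (by
    refine (Set.Finite.biUnion A.support.finite_toSet (fun p _ => hfin p)).subset ?_
    intro v hv
    simp only [Set.mem_iUnion]
    exact ⟨orb φ v, Finsupp.mem_support_iff.2 hv, rfl⟩)

theorem eFun_apply {φ : E ≃+* E} (hfin : ∀ p : Orb 𝕜 φ, {w : Place 𝕜 E | orb φ w = p}.Finite)
    (A : Orb 𝕜 φ →₀ ℤ) (v : Place 𝕜 E) : eFun hfin A v = A (orb φ v) := rfl

/-- the same as an additive map -/
noncomputable def eHom {φ : E ≃+* E} (hfin : ∀ p : Orb 𝕜 φ, {w : Place 𝕜 E | orb φ w = p}.Finite) :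
    (Orb 𝕜 φ →₀ ℤ) →+ (Place 𝕜 E →₀ ℤ) where
  toFun := eFun hfin
  map_zero' := by ext v; rfl
  map_add' A B := by ext v; rfl

theorem eHom_apply {φ : E ≃+* E} (hfin : ∀ p : Orb 𝕜 φ, {w : Place 𝕜 E | orb φ w = p}.Finite)
    (A : Orb 𝕜 φ →₀ ℤ) (v : Place 𝕜 E) : eHom hfin A v = A (orb φ v) := rfl

theorem eHom_single {φ : E ≃+* E}
    (hfin : ∀ p : Orb 𝕜 φ, {w : Place 𝕜 E | orb φ w = p}.Finite) (p : Orb 𝕜 φ) (n : ℤ) :
    eHom hfin (Finsupp.single p n) = ∑ v ∈ (hfin p).toFinset, Finsupp.single v n := by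
  classical
  ext w
  rw [eHom_apply, Finsupp.finsetSum_apply]
  simp only [Finsupp.single_apply]
  rw [Finset.sum_ite_eq' (hfin p).toFinset w (fun _ => n)]
  simp only [Set.Finite.mem_toFinset, Set.mem_ofPred_eq]
  by_cases h : orb φ w = p
  · rw [if_pos h, if_pos h.symm]
  · rw [if_neg h, if_neg (Ne.symm h)]

theorem dg_eHom {φ : E ≃+* E} (hfin : ∀ p : Orb 𝕜 φ, {w : Place 𝕜 E | orb φ w = p}.Finite)
    (A : Orb 𝕜 φ →₀ ℤ) : dg (eHom hfin A) = zdeg (orbDeg φ) A := by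
  classical
  induction A using Finsupp.induction_linear with
  | zero => simp
  | add A B hA hB => rw [map_add, map_add, hA, hB, zdeg_add]
  | single p n =>
    rw [eHom_single, map_sum, zdeg, Finsupp.sum_single_index (zero_mul _)]
    simp only [dg_single]
    rw [Finset.sum_const, nsmul_eq_mul, mul_comm]
    congr 2
    have h1 : orbDeg φ p = Nat.card {w : Place 𝕜 E | orb φ w = p} := rfl
    rw [h1, Nat.card_coe_set_eq, Set.ncard_eq_toFinset_card _ (hfin p)]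

end MP7Z.PullM

namespace MP7Z

open PullM

theorem tPull (h0 : FStmtOrbLen) : FStmtPull := by
  classical
  intro 𝕜 E _ _ _ _ _ q φ hφ
  have hfin : ∀ p : Orb 𝕜 φ, {w : Place 𝕜 E | orb φ w = p}.Finite := by
    intro p
    obtain ⟨v, rfl⟩ := orb_surjective φ p
    exact (h0 𝕜 E q φ hφ v).2.2.1
  refine ⟨eHom hfin, eHom_apply hfin, dg_eHom hfin, ?_⟩
  intro D hD
  have hout : ∀ v : Place 𝕜 E, D (Quotient.out (orb φ v)) = D v := by
    intro v
    have h1 : orb φ v = orb φ (Quotient.out (orb φ v)) := (Quotient.out_eq (orb φ v)).symm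
    obtain ⟨n, hn⟩ := orb_eq_iff.1 h1
    rw [hn, inv_zpow hD]
  refine ⟨Finsupp.onFinset (D.support.image (orb φ)) (fun p => D (Quotient.out p)) ?_, ?_⟩
  · intro p hp
    rw [Finset.mem_image]
    exact ⟨Quotient.out p, Finsupp.mem_support_iff.2 hp, Quotient.out_eq p⟩
  · ext v
    rw [eHom_apply]
    exact hout v

end MP7Z
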