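import Pool.Agent.Lib.MP_7f581e_Z.FF.Spec

/-!
# FF/RMain: Riemann's theorem
-/

namespace MP7Z

namespace RMainM

variable {𝕜 E : Type} [Field 𝕜] [IsAlgClosed 𝕜] [Field E] [Algebra 𝕜 E]

theorem exists_ne_zero {D : Place 𝕜 E →₀ ℤ} (h : 0 < ell D) :
    ∃ f : E, f ≠ 0 ∧ f ∈ Lsp (D : Place 𝕜 E → ℤ) := by
  by_contra hcon
  push Not at hcon
  have h1 : Lsp (D : Place 𝕜 E → ℤ) = ⊥ := by
    rw [Submodule.eq_bot_iff]
    intro f hf
    by_contra hf0
    exact hcon f hf0 hf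
  unfold ell at h
  rw [h1, finrank_bot] at h
  exact absurd h (lt_irrefl _)

theorem ell_zero [IsCurveField 𝕜 E] : ell (0 : Place 𝕜 E →₀ ℤ) = 1 := by
  unfold ell
  rw [Finsupp.coe_zero]
  exact finrank_Lsp_zero

end RMainM

open RMainM in
/-- **RMain** Riemann's theorem. -/
theorem tRMain (h0 : FStmtMono) (h1 : FStmtShift) (h2 : FStmtIneq) (h3 : FStmtProd) :
    FStmtRMain := by
  intro 𝕜 E _ _ _ _ _ x hx hsep
  have hS : Sep 𝕜 E := ⟨x, hx, hsep⟩
  refine ⟨finite_Lsp_aux, ?_, ?_⟩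
  · intro f hf D hD
    have hD' : D = dv 𝕜 f := by
      ext v
      rw [hD v]
      rfl
    rw [hD', ← dg_eq]
    exact h3 𝕜 E hS f hf
  · obtain ⟨g0, hg0⟩ := h2 𝕜 E hS
    classical
    let P : ℕ → Prop := fun n => ∃ D : Place 𝕜 E →₀ ℤ, (n : ℤ) = dg D + 1 - ell D
    have hP0 : P 0 := ⟨0, by rw [ell_zero, map_zero]; norm_num⟩
    have hPb : ∀ n, P n → n ≤ g0.toNat := by
      rintro n ⟨D, hD⟩
      have := hg0 D
      omega
    have hgs : P (Nat.findGreatest P g0.toNat) :=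
      Nat.findGreatest_spec (P := P) (Nat.zero_le _) hP0
    have hgm : ∀ n, P n → n ≤ Nat.findGreatest P g0.toNat := fun n hn =>
      Nat.le_findGreatest (hPb n hn) hn
    generalize Nat.findGreatest P g0.toNat = g at hgs hgm
    have hle : ∀ D : Place 𝕜 E →₀ ℤ, dg D + 1 - ell D ≤ g := by
      intro D
      rcases lt_or_ge (dg D + 1 - (ell D : ℤ)) 0 with h | h
      · omega
      · obtain ⟨n, hn⟩ := Int.eq_ofNat_of_zero_le h
        have h4 := hgm n ⟨D, hn.symm⟩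
        rw [hn]
        exact_mod_cast h4
    obtain ⟨D₀, hD₀⟩ := hgs
    refine ⟨g, dg D₀ + g, ?_⟩
    intro D hD
    rw [← dg_eq] at hD ⊢
    change (ell D : ℤ) = _
    have h4 := hle D
    have h5 := hle (D - D₀)
    rw [map_sub] at h5
    have h6 : 0 < ell (D - D₀) := by omega
    obtain ⟨f, hf0, hf⟩ := exists_ne_zero h6
    have h7 : D₀ - dv 𝕜 f ≤ D := by
      intro v
      have h8 := hf v
      have h9 := (v.le_pord_iff hf0 _).2 h8
      rw [Finsupp.coe_sub, Pi.sub_apply, dv_apply]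
      rw [Finsupp.coe_sub, Pi.sub_apply] at h9
      omega
    have h8 := (h0 𝕜 E (D₀ - dv 𝕜 f) D h7).2
    have h9 : ell (D₀ - dv 𝕜 f) = ell D₀ := by
      rw [sub_eq_add_neg, ← dv_inv hf0]
      exact h1 𝕜 E D₀ f⁻¹ (inv_ne_zero hf0)
    have h10 : dg (D₀ - dv 𝕜 f) = dg D₀ := by
      rw [map_sub, h3 𝕜 E hS f hf0, sub_zero]
    rw [h9, h10] at h8
    omega

end MP7Z
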