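import Pool.Agent.Lib.MP_7f581e_Z.FF.Spec

/-!
# Shift: `l(D + div f) = l(D)`
-/

set_option autoImplicit false

namespace MP7Z

theorem tShift : FStmtShift := by
  classical
  intro 𝕜 E _ _ _ _ _ D f hf
  have hinj : Function.Injective (LinearMap.mulRight 𝕜 f) := by
    intro a b hab
    exact mul_right_cancel₀ hf hab
  have hmap : (Lsp ((D + dv 𝕜 f : Place 𝕜 E →₀ ℤ) : Place 𝕜 E → ℤ)).map
      (LinearMap.mulRight 𝕜 f) = Lsp (D : Place 𝕜 E → ℤ) := by
    have key : ∀ (g : E) (v : Place 𝕜 E), g ≠ 0 →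
        (((-(D + dv 𝕜 f : Place 𝕜 E →₀ ℤ) v : ℤ) : WithTop ℤ) ≤ v.ord g ↔
          ((-D v : ℤ) : WithTop ℤ) ≤ v.ord (g * f)) := by
      intro g v hg
      rw [← v.le_pord_iff hg, ← v.le_pord_iff (mul_ne_zero hg hf), v.pord_mul hg hf]
      simp only [Finsupp.coe_add, Pi.add_apply, dv_apply]
      constructor <;> intro h <;> omega
    ext g
    constructor
    · rintro ⟨h, hh, rfl⟩
      rw [LinearMap.mulRight_apply]
      rcases eq_or_ne h 0 with rfl | h0
      · rw [zero_mul]; exact Submodule.zero_mem _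
      · intro v
        exact (key h v h0).1 (hh v)
    · intro hg
      rcases eq_or_ne g 0 with rfl | g0
      · exact Submodule.zero_mem _
      · refine ⟨g * f⁻¹, ?_, ?_⟩
        · intro v
          rw [key _ v (mul_ne_zero g0 (inv_ne_zero hf)), mul_assoc, inv_mul_cancel₀ hf, mul_one]
          exact hg v
        · rw [LinearMap.mulRight_apply, mul_assoc, inv_mul_cancel₀ hf, mul_one]
  unfold ell
  rw [← hmap]
  exact (Submodule.equivMapOfInjective _ hinj _).finrank_eq

end MP7Z
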