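import Pool.Agent.Lib.MP_7f581e_Z.FF.Spec

/-!
# FF/Span: a subspace stable under Frobenius is spanned by fixed vectors
-/

namespace MP7Z

namespace SpanM

variable {𝕜 E : Type} [Field 𝕜] [Field E] [Algebra 𝕜 E]

/-- The vector `(c ^ (q ^ i))_i`. -/
def uv (q n : ℕ) (c : 𝕜) : Fin n → 𝕜 := fun i => c ^ (q ^ (i : ℕ))

theorem poly_coeff {q n : ℕ} (hq : 1 < q) (a : Fin n → 𝕜) (j : Fin n) :
    (∑ i : Fin n, Polynomial.C (a i) * Polynomial.X ^ (q ^ (i : ℕ))).coeff (q ^ (j : ℕ)) = a j := by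
  rw [Polynomial.finsetSum_coeff, Finset.sum_eq_single j]
  · rw [Polynomial.coeff_C_mul, Polynomial.coeff_X_pow, if_pos rfl, mul_one]
  · intro i _ hij
    rw [Polynomial.coeff_C_mul, Polynomial.coeff_X_pow, if_neg, mul_zero]
    intro h
    exact hij (Fin.ext (Nat.pow_right_injective hq h).symm)
  · intro h
    exact absurd (Finset.mem_univ j) h

theorem poly_natDegree {q n : ℕ} (hq : 1 < q) (a : Fin n → 𝕜) :
    (∑ i : Fin n, Polynomial.C (a i) * Polynomial.X ^ (q ^ (i : ℕ))).natDegree < q ^ n := by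
  have h1 : ∀ i ∈ (Finset.univ : Finset (Fin n)),
      (Polynomial.C (a i) * Polynomial.X ^ (q ^ (i : ℕ))).natDegree ≤ q ^ n - 1 := by
    intro i _
    refine le_trans (Polynomial.natDegree_C_mul_X_pow_le _ _) ?_
    have : q ^ (i : ℕ) < q ^ n := Nat.pow_lt_pow_right hq i.2
    omega
  have h2 := Polynomial.natDegree_sum_le_of_forall_le Finset.univ _ h1
  have h3 : 0 < q ^ n := pow_pos (by omega) n
  omega

theorem span_top [IsAlgClosed 𝕜] (h0 : FStmtFixCard) {q n : ℕ} (hn : 0 < n) (hq : 1 < q)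
    (hq0 : (q : 𝕜) = 0) :
    Submodule.span 𝕜 (Set.range fun c : {c : 𝕜 // c ^ q ^ n = c} => uv q n (c : 𝕜)) = ⊤ := by
  by_contra hne
  obtain ⟨f, hf0, hf⟩ := Submodule.exists_le_ker_of_lt_top _ (lt_top_iff_ne_top.2 hne)
  apply hf0
  set a : Fin n → 𝕜 := fun i => f (Pi.single i 1) with ha
  have hfa : ∀ x : Fin n → 𝕜, f x = ∑ i, x i * a i := by
    intro x
    conv_lhs => rw [pi_eq_sum_univ x]
    rw [map_sum]
    refine Finset.sum_congr rfl fun i _ => ?_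
    rw [map_smul, smul_eq_mul, ha]
    congr 2
    ext j
    rw [Pi.single_apply]
    simp only [eq_comm]
  set P : Polynomial 𝕜 := ∑ i : Fin n, Polynomial.C (a i) * Polynomial.X ^ (q ^ (i : ℕ)) with hP
  have hcard : Nat.card {c : 𝕜 // c ^ q ^ n = c} = q ^ n := by
    refine h0 𝕜 (q ^ n) (Nat.one_lt_pow hn.ne' hq) ?_
    rw [Nat.cast_pow, hq0, zero_pow hn.ne']
  have hfin : Finite {c : 𝕜 // c ^ q ^ n = c} := by
    apply Nat.finite_of_card_ne_zero
    rw [hcard]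
    exact (pow_pos (by omega) n).ne'
  have := Fintype.ofFinite {c : 𝕜 // c ^ q ^ n = c}
  have hroot : ∀ c : {c : 𝕜 // c ^ q ^ n = c}, P.eval (c : 𝕜) = 0 := by
    intro c
    have h1 : f (uv q n (c : 𝕜)) = 0 := hf (Submodule.subset_span ⟨c, rfl⟩)
    rw [hfa] at h1
    rw [hP, Polynomial.eval_finsetSum, ← h1]
    refine Finset.sum_congr rfl fun i _ => ?_
    rw [Polynomial.eval_mul, Polynomial.eval_C, Polynomial.eval_pow, Polynomial.eval_X, mul_comm]
    rfl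
  have hP0 : P = 0 := by
    refine Polynomial.eq_zero_of_natDegree_lt_card_of_eval_eq_zero P
      (f := fun c : {c : 𝕜 // c ^ q ^ n = c} => (c : 𝕜)) Subtype.val_injective hroot ?_
    rw [← Nat.card_eq_fintype_card, hcard]
    exact poly_natDegree hq a
  have ha0 : ∀ j, a j = 0 := by
    intro j
    rw [← poly_coeff hq a j, ← hP, hP0, Polynomial.coeff_zero]
  ext x
  rw [LinearMap.comp_apply, LinearMap.single_apply, LinearMap.zero_comp, LinearMap.zero_apply]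
  exact ha0 x

theorem pow_smul (q : ℕ) (φ : E ≃+* E) (hφ : ∀ c : 𝕜, φ (algebraMap 𝕜 E c) = algebraMap 𝕜 E (c ^ q))
    (c : 𝕜) (w : E) : φ (c • w) = (c ^ q) • φ w := by
  rw [Algebra.smul_def, map_mul, hφ, ← Algebra.smul_def]

theorem fixed (q n : ℕ) (φ : E ≃+* E)
    (hφ : ∀ c : 𝕜, φ (algebraMap 𝕜 E c) = algebraMap 𝕜 E (c ^ q)) {c : 𝕜} (hc : c ^ q ^ n = c)
    {w : E} (hw : (φ ^ n) w = w) :
    φ (∑ i ∈ Finset.range n, c ^ (q ^ i) • (φ ^ i) w) =
      ∑ i ∈ Finset.range n, c ^ (q ^ i) • (φ ^ i) w := by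
  rw [map_sum]
  have h1 : ∀ i ∈ Finset.range n, φ (c ^ (q ^ i) • (φ ^ i) w) =
      c ^ (q ^ (i + 1)) • (φ ^ (i + 1)) w := by
    intro i _
    rw [pow_smul q φ hφ, ← pow_mul, ← pow_succ, pow_succ' φ i]
    rfl
  rw [Finset.sum_congr rfl h1]
  have h2 := Finset.sum_range_succ (fun i => c ^ (q ^ i) • (φ ^ i) w) n
  have h3 := Finset.sum_range_succ' (fun i => c ^ (q ^ i) • (φ ^ i) w) n
  rw [h2] at h3
  rw [hc, hw, pow_zero, pow_one, pow_zero] at h3
  exact (add_right_cancel h3).symm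

end SpanM

open SpanM in
theorem tSpan (h0 : FStmtFixCard) : FStmtSpan := by
  intro 𝕜 E _ _ _ _ q φ hφ W hW w hw
  obtain ⟨n, hn, hwn⟩ := hφ.fin w
  have hq : 1 < q := hφ.primePow.one_lt
  have hWp : ∀ i : ℕ, (φ ^ i) w ∈ W := by
    intro i
    induction i with
    | zero => exact hw
    | succ i ih =>
      rw [pow_succ']
      exact hW _ ih
  set L : (Fin n → 𝕜) →ₗ[𝕜] E := Fintype.linearCombination 𝕜 (fun i : Fin n => (φ ^ (i : ℕ)) w)
    with hL
  have hLu : ∀ c : 𝕜, L (uv q n c) = ∑ i ∈ Finset.range n, c ^ (q ^ i) • (φ ^ i) w := by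
    intro c
    rw [hL, Fintype.linearCombination_apply, Finset.sum_range]
    rfl
  have hw1 : L (Pi.single ⟨0, hn⟩ 1) = w := by
    rw [hL, Fintype.linearCombination_apply_single, one_smul, pow_zero]
    rfl
  have htop := span_top (𝕜 := 𝕜) h0 hn hq hφ.card
  have hmem : L (Pi.single ⟨0, hn⟩ 1) ∈ (⊤ : Submodule 𝕜 (Fin n → 𝕜)).map L :=
    ⟨_, Submodule.mem_top, rfl⟩
  rw [← htop, Submodule.map_span, hw1] at hmem
  refine Submodule.span_mono ?_ hmem
  rintro _ ⟨_, ⟨c, rfl⟩, rfl⟩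
  change L (uv q n (c : 𝕜)) ∈ W ∧ φ (L (uv q n (c : 𝕜))) = L (uv q n (c : 𝕜))
  rw [hLu]
  exact ⟨Submodule.sum_mem _ fun i _ => Submodule.smul_mem _ _ (hWp i),
    fixed q n φ hφ.frob c.2 hwn⟩

end MP7Z
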