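import Pool.Agent.Lib.MP_7f581e_Z.FF.Zeta

/-!
# Package FF: characters with values in `ZMod M`
-/

set_option autoImplicit false

namespace MP7Z

theorem tZChar : ZStmtChar := by
  intro G _ H M hM hH a ha
  have ha' : (QuotientAddGroup.mk a : G ⧸ H) ≠ 0 := by
    rw [Ne, QuotientAddGroup.eq_zero_iff]
    exact ha
  obtain ⟨c, hc⟩ := CharacterModule.exists_character_apply_ne_zero_of_ne_zero ha'
  have hM' : (M : ℚ) ≠ 0 := Nat.cast_ne_zero.mpr hM.ne'
  have hzero : ∀ q : ℚ, ((q : AddCircle (1 : ℚ)) = 0 ↔ ∃ n : ℤ, (n : ℚ) = q) := by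
    intro q
    rw [AddCircle.coe_eq_zero_iff]
    simp
  let u : AddCircle (1 : ℚ) := ((1 / M : ℚ) : AddCircle (1 : ℚ))
  have hku : ∀ k : ℤ, k • u = ((k / M : ℚ) : AddCircle (1 : ℚ)) := by
    intro k
    change k • ((1 / M : ℚ) : AddCircle (1 : ℚ)) = _
    rw [← AddCircle.coe_zsmul, zsmul_eq_mul, mul_one_div]
  have hu : zmultiplesHom _ u (M : ℤ) = 0 := by
    rw [zmultiplesHom_apply, hku, hzero]
    exact ⟨1, by simp [hM']⟩
  let φ : ZMod M →+ AddCircle (1 : ℚ) := ZMod.lift M ⟨zmultiplesHom _ u, hu⟩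
  have hφ : ∀ k : ℤ, φ (k : ZMod M) = ((k / M : ℚ) : AddCircle (1 : ℚ)) := by
    intro k
    change ZMod.lift M ⟨zmultiplesHom _ u, hu⟩ (k : ZMod M) = _
    rw [ZMod.lift_coe]
    exact hku k
  have hinj : Function.Injective φ := by
    rw [injective_iff_map_eq_zero]
    intro z hz
    obtain ⟨k, rfl⟩ := ZMod.intCast_surjective z
    rw [hφ, hzero] at hz
    obtain ⟨n, hn⟩ := hz
    rw [eq_div_iff hM'] at hn
    rw [ZMod.intCast_zmod_eq_zero_iff_dvd]
    exact ⟨n, by rw [mul_comm]; exact_mod_cast hn.symm⟩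
  have hsurj : ∀ g : G, ∃ z, φ z = c (QuotientAddGroup.mk g) := by
    intro g
    obtain ⟨q, hq⟩ := QuotientAddGroup.mk_surjective (c (QuotientAddGroup.mk g : G ⧸ H))
    have h1 : M • c (QuotientAddGroup.mk g : G ⧸ H) = 0 := by
      rw [← map_nsmul, ← QuotientAddGroup.mk_nsmul, (QuotientAddGroup.eq_zero_iff _).mpr (hH g),
        map_zero]
    have hq' : ((q : ℚ) : AddCircle (1 : ℚ)) = c (QuotientAddGroup.mk g : G ⧸ H) := hq
    rw [← hq', ← AddCircle.coe_nsmul, hzero] at h1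
    obtain ⟨n, hn⟩ := h1
    refine ⟨(n : ZMod M), ?_⟩
    rw [hφ, ← hq', hn]
    congr 1
    rw [nsmul_eq_mul]
    field_simp
  choose χ hχ using hsurj
  refine ⟨{ toFun := χ, map_zero' := ?_, map_add' := ?_ }, ?_, ?_⟩
  · apply hinj
    rw [hχ, map_zero, QuotientAddGroup.mk_zero, map_zero]
  · intro x y
    apply hinj
    rw [hχ, map_add, hχ, hχ, QuotientAddGroup.mk_add, map_add]
  · intro h hh
    apply hinj
    change φ (χ h) = φ 0
    rw [hχ, map_zero, (QuotientAddGroup.eq_zero_iff h).mpr hh, map_zero]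
  · intro h
    apply hc
    have h' : χ a = 0 := h
    rw [← hχ, h', map_zero]

end MP7Z
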