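import Pool.Agent.Lib.MP_7f581e_Z.FF.Zeta

/-!
# Package FF, ZGen: there is no family of nontrivial characters with nonnegative sums
-/

set_option linter.deprecated false
set_option linter.unusedVariables false

namespace MP7Z

open PowerSeries

namespace ZGenM

/-- power series with finitely many coefficients are polynomials -/
theorem exists_poly (L : PowerSeries ℂ) (h : ∃ N, ∀ n ≥ N, coeff n L = 0) :
    ∃ q : Polynomial ℂ, (q : PowerSeries ℂ) = L := by
  obtain ⟨N, hN⟩ := h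
  refine ⟨trunc N L, ?_⟩
  ext n
  rw [Polynomial.coeff_coe, coeff_trunc]
  split_ifs with hn
  · rfl
  · exact (hN n (by omega)).symm

theorem prod_poly {I : Type} (s : Finset I) (L : I → PowerSeries ℂ)
    (h : ∀ i, ∃ N, ∀ n ≥ N, coeff n (L i) = 0) :
    ∃ N, ∀ n ≥ N, coeff n (∏ i ∈ s, L i) = 0 := by
  choose q hq using fun i => exists_poly (L i) (h i)
  have h1 : ∏ i ∈ s, L i = ((∏ i ∈ s, q i : Polynomial ℂ) : PowerSeries ℂ) := by
    rw [← Polynomial.coeToPowerSeries.ringHom_apply, map_prod]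
    exact Finset.prod_congr rfl fun i _ => (hq i).symm
  refine ⟨(∏ i ∈ s, q i).natDegree + 1, fun n hn => ?_⟩
  rw [h1, Polynomial.coeff_coe]
  exact Polynomial.coeff_eq_zero_of_natDegree_lt (by omega)

theorem prod_deriv {I : Type} (s : Finset I) (L C : I → PowerSeries ℂ)
    (h : ∀ i, X * derivativeFun (L i) = C i * L i) :
    X * derivativeFun (∏ i ∈ s, L i) = (∑ i ∈ s, C i) * ∏ i ∈ s, L i := by
  classical
  induction s using Finset.induction_on with
  | empty =>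
    rw [Finset.prod_empty, Finset.sum_empty, zero_mul]
    have h1 : derivativeFun (1 : PowerSeries ℂ) = 0 := derivativeFun_one
    rw [h1, mul_zero]
  | insert a s ha ih =>
    rw [Finset.prod_insert ha, Finset.sum_insert ha, derivativeFun_mul]
    simp only [smul_eq_mul]
    have h1 := h a
    calc X * (L a * derivativeFun (∏ i ∈ s, L i) + (∏ i ∈ s, L i) * derivativeFun (L a))
        = L a * (X * derivativeFun (∏ i ∈ s, L i)) +
            (∏ i ∈ s, L i) * (X * derivativeFun (L a)) := by ring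
      _ = _ := by rw [ih, h1]; ring

theorem fin_dvd {P : Type} {deg : P → ℕ} (hfin : ∀ n, {p | deg p = n}.Finite) (m : ℕ)
    (hm : 0 < m) : {p : P | deg p ∣ m}.Finite := by
  have h1 : (⋃ n ∈ Finset.range (m + 1), {p : P | deg p = n}).Finite :=
    (Finset.range (m + 1)).finite_toSet.biUnion fun n _ => hfin n
  refine h1.subset fun p hp => ?_
  have h2 : deg p ≤ m := Nat.le_of_dvd hm hp
  simp only [Set.mem_iUnion, Finset.mem_range]
  exact ⟨deg p, by omega, rfl⟩

end ZGenM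

open ZGenM in
theorem tZGen (h0 : ZStmtEff) (h1 : ZStmtRec) (h2 : ZStmtRem) (h3 : ZStmtPos) (h4 : ZStmtVan) :
    ZStmtGen := by
  classical
  intro P deg Prin hZ M hM ζ hζ I _ _ χ hχ hχ' S hS
  have hinf := hZ.inf
  let ξ : I → P → ℂ := fun i p => ζ ^ (χ i (Finsupp.single p 1)).val
  let ξ' : I → P → ℂ := fun i p => if p ∈ S then 0 else ξ i p
  have hξ'S : ∀ i, ∀ p ∈ S, ξ' i p = 0 := fun i p hp => if_pos hp
  have hξ'n : ∀ i, ∀ p, p ∉ S → ξ' i p = ξ i p := fun i p hp => if_neg hp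
  have hpoly : ∀ i, ∃ N, ∀ n ≥ N, coeff n (eul deg (ξ' i)) = 0 := fun i =>
    h2 P deg hZ.deg_pos hZ.fin (ξ i) S (ξ' i) (hξ'S i) (hξ'n i)
      (h4 P deg Prin hZ M hM ζ hζ (χ i) (hχ i) (hχ' i))
  have hrec := fun i => h1 P deg hZ.deg_pos hZ.fin (ξ' i)
  set F : PowerSeries ℂ := ∏ i, eul deg (ξ' i) with hF
  set C : PowerSeries ℂ := ∑ i, lgd deg (ξ' i) with hC
  -- coefficients of `C`
  have hcoeff : ∀ (m : ℕ) (hm : 0 < m), coeff m C =
      ∑ p ∈ (fin_dvd hZ.fin m hm).toFinset, (deg p : ℂ) * ∑ i, ξ' i p ^ (m / deg p) := by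
    intro m hm
    rw [hC, map_sum]
    have h5 : ∀ i, coeff m (lgd deg (ξ' i)) =
        ∑ p ∈ (fin_dvd hZ.fin m hm).toFinset, (deg p : ℂ) * ξ' i p ^ (m / deg p) := fun i => by
      rw [lgd, coeff_mk, if_neg hm.ne']
      exact finsum_mem_eq_finite_toFinset_sum _ _
    rw [Finset.sum_congr rfl fun i _ => h5 i, Finset.sum_comm]
    exact Finset.sum_congr rfl fun p _ => (Finset.mul_sum _ _ _).symm
  have hr : ∀ (m : ℕ) (p : P), 0 < m → deg p ∣ m → ∃ r : ℝ, 0 ≤ r ∧
      ∑ i, ξ' i p ^ (m / deg p) = (r : ℂ) := by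
    intro m p hm hp
    have hk : 0 < m / deg p := Nat.div_pos (Nat.le_of_dvd hm hp) (hZ.deg_pos p)
    by_cases hpS : p ∈ S
    · refine ⟨0, le_rfl, ?_⟩
      rw [Finset.sum_eq_zero, Complex.ofReal_zero]
      intro i _
      rw [hξ'S i p hpS, zero_pow hk.ne']
    · obtain ⟨r, hr0, hr1⟩ := hS p hpS (m / deg p) hk
      refine ⟨r, hr0, ?_⟩
      rw [← hr1]
      exact Finset.sum_congr rfl fun i _ => by rw [hξ'n i p hpS]
  have hr2 : ∀ (m : ℕ) (hm : 0 < m), ∃ r : P → ℝ, (∀ p, 0 ≤ r p) ∧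
      (∀ p, deg p ∣ m → ∑ i, ξ' i p ^ (m / deg p) = (r p : ℂ)) ∧
      coeff m C = ((∑ p ∈ (fin_dvd hZ.fin m hm).toFinset, (deg p : ℝ) * r p : ℝ) : ℂ) := by
    intro m hm
    have h5 : ∀ p : P, ∃ r : ℝ, 0 ≤ r ∧ (deg p ∣ m → ∑ i, ξ' i p ^ (m / deg p) = (r : ℂ)) :=
      fun p => by
        by_cases hp : deg p ∣ m
        · obtain ⟨r, hr0, hr1⟩ := hr m p hm hp
          exact ⟨r, hr0, fun _ => hr1⟩
        · exact ⟨0, le_rfl, fun h => absurd h hp⟩
    choose r hr0 hr1 using h5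
    refine ⟨r, hr0, hr1, ?_⟩
    rw [hcoeff m hm]
    push_cast
    refine Finset.sum_congr rfl fun p hp => ?_
    have hp' : deg p ∣ m := by
      have h6 := (Set.Finite.mem_toFinset _).1 hp
      exact h6
    rw [hr1 p hp']
  refine h3 F C ?_ ?_ ?_ ?_ ?_
  · rw [hF, map_prod]
    exact Finset.prod_eq_one fun i _ => (hrec i).1
  · exact prod_deriv Finset.univ _ _ fun i => (hrec i).2
  · intro m
    rcases Nat.eq_zero_or_pos m with rfl | hm
    · refine ⟨0, le_rfl, ?_⟩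
      rw [hC, map_sum, Complex.ofReal_zero]
      refine Finset.sum_eq_zero fun i _ => ?_
      rw [lgd, coeff_mk, if_pos rfl]
    · obtain ⟨r, hr0, -, hr1⟩ := hr2 m hm
      exact ⟨_, Finset.sum_nonneg fun p _ => mul_nonneg (Nat.cast_nonneg _) (hr0 p), hr1⟩
  · obtain ⟨p0, hp0⟩ := Infinite.exists_notMem_finset S
    have hd := hZ.deg_pos p0
    have hm : 0 < M * deg p0 := Nat.mul_pos hM hd
    refine ⟨M * deg p0, hm, ?_⟩
    obtain ⟨r, hr0, hr1, hr2⟩ := hr2 _ hm
    rw [hr2]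
    have h5 : r p0 = Fintype.card I := by
      have h6 := hr1 p0 (dvd_mul_left _ _)
      rw [Nat.mul_div_cancel _ hd] at h6
      have h7 : ∑ i, ξ' i p0 ^ M = (Fintype.card I : ℂ) := by
        rw [Finset.sum_congr rfl fun i _ => show ξ' i p0 ^ M = 1 by
          rw [hξ'n i p0 hp0]
          show (ζ ^ _) ^ M = 1
          rw [← pow_mul, mul_comm, pow_mul, hζ.pow_eq_one, one_pow]]
        simp
      rw [h7] at h6
      exact_mod_cast h6.symm
    have h8 : 0 < ∑ p ∈ (fin_dvd hZ.fin _ hm).toFinset, (deg p : ℝ) * r p := by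
      refine Finset.sum_pos' (fun p _ => mul_nonneg (Nat.cast_nonneg _) (hr0 p))
        ⟨p0, (Set.Finite.mem_toFinset _).2 (dvd_mul_left _ _), ?_⟩
      rw [h5]
      exact mul_pos (by exact_mod_cast hd) (by exact_mod_cast Fintype.card_pos)
    exact_mod_cast h8.ne'
  · exact prod_poly Finset.univ _ hpoly

end MP7Z
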