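import Pool.Agent.Lib.MP_7f581e_Z.FF.Zeta

/-!
# ZHerb: the Herbrand quotient of a finite module is one
-/

set_option autoImplicit false

namespace MP7Z

theorem tZHerb : ZStmtHerb := by
  classical
  intro G _ _ a M haM hker g hg
  let N : G →+ G :=
    { toFun := fun g => ∑ i ∈ Finset.range M, a^[i] g
      map_zero' := by
        refine Finset.sum_eq_zero fun i _ => ?_
        exact iterate_map_zero a i
      map_add' := by
        intro x y
        rw [← Finset.sum_add_distrib]
        exact Finset.sum_congr rfl fun i _ => iterate_map_add a i x y }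
  let D : G →+ G := a - AddMonoidHom.id G
  have hN : ∀ x, N x = ∑ i ∈ Finset.range M, a^[i] x := fun _ => rfl
  have hD : ∀ x, D x = a x - x := fun _ => rfl
  have haN : ∀ x, a (N x) = N x := by
    intro x
    rw [hN, map_sum]
    have h1 := Finset.sum_range_succ (fun i => a^[i] x) M
    have h2 := Finset.sum_range_succ' (fun i => a^[i] x) M
    rw [h1] at h2
    have h3 : ∑ i ∈ Finset.range M, a (a^[i] x) = ∑ i ∈ Finset.range M, a^[i + 1] x :=
      Finset.sum_congr rfl fun i _ => (Function.iterate_succ_apply' a i x).symm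
    rw [h3]
    have h4 : a^[M] x = a^[0] x := by rw [haM]; rfl
    rw [h4] at h2
    exact (add_right_cancel h2).symm
  have hNa : ∀ x, N (a x) = a (N x) := by
    intro x
    rw [hN, hN, map_sum]
    refine Finset.sum_congr rfl fun i _ => ?_
    rw [← Function.iterate_succ_apply, Function.iterate_succ_apply']
  have h1 : N.range = D.ker := by
    ext x
    constructor
    · rintro ⟨y, rfl⟩
      rw [AddMonoidHom.mem_ker, hD, haN, sub_self]
    · intro hx
      rw [AddMonoidHom.mem_ker, hD, sub_eq_zero] at hx
      obtain ⟨h, hh⟩ := hker x hx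
      exact ⟨h, hh⟩
  have h2 : D.range ≤ N.ker := by
    rintro x ⟨y, rfl⟩
    rw [AddMonoidHom.mem_ker, hD, map_sub, hNa, haN, sub_self]
  have h3 : Nat.card D.range * Nat.card D.ker = Nat.card G := by
    rw [← Nat.card_congr (QuotientAddGroup.quotientKerEquivRange D).toEquiv]
    exact (AddSubgroup.card_eq_card_quotient_mul_card_addSubgroup D.ker).symm
  have h4 : Nat.card N.range * Nat.card N.ker = Nat.card G := by
    rw [← Nat.card_congr (QuotientAddGroup.quotientKerEquivRange N).toEquiv]
    exact (AddSubgroup.card_eq_card_quotient_mul_card_addSubgroup N.ker).symm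
  have h5 : Nat.card D.range = Nat.card N.ker := by
    rw [h1] at h4
    have h6 : 0 < Nat.card D.ker := Nat.card_pos
    rw [← h4, mul_comm] at h3
    exact Nat.eq_of_mul_eq_mul_left h6 h3
  have h6 : D.range = N.ker := AddSubgroup.eq_of_le_of_card_ge h2 h5.ge
  have h7 : g ∈ N.ker := hg
  rw [← h6] at h7
  obtain ⟨h, hh⟩ := h7
  exact ⟨h, hh⟩

end MP7Z
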