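import Pool.Agent.Lib.MP_7f581e_Z.FF.Zeta

/-!
# `ZStmtNS`
-/

namespace MP7Z

namespace ZNSM

theorem pow_mod' {M : ℕ} [NeZero M] {ζ : ℂ} (hζ : IsPrimitiveRoot ζ M) (n : ℕ) :
    ζ ^ ((n : ZMod M)).val = ζ ^ n := by
  rw [ZMod.val_natCast]
  conv_rhs => rw [← Nat.div_add_mod n M, pow_add, pow_mul, hζ.pow_eq_one, one_pow, one_mul]

/-- the degree modulo `M` -/
noncomputable def degHom {P : Type} (deg : P → ℕ) (M : ℕ) : (P →₀ ℤ) →+ ZMod M where
  toFun D := (zdeg deg D : ZMod M)
  map_zero' := by simp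
  map_add' D D' := by rw [zdeg_add]; push_cast; rfl

/-- The subgroup of the proof. -/
def Hsub {P : Type} (deg : P → ℕ) (Prin : AddSubgroup (P →₀ ℤ)) (M : ℕ) : AddSubgroup (P →₀ ℤ) where
  carrier := {D | ∃ D' ∈ Prin, ∀ p, (M : ℤ) ∣ (deg p : ℤ) * (D - D') p}
  zero_mem' := ⟨0, Prin.zero_mem, fun p => by simp⟩
  add_mem' := by
    rintro a b ⟨a', ha', ha⟩ ⟨b', hb', hb⟩
    refine ⟨a' + b', Prin.add_mem ha' hb', fun p => ?_⟩
    have h := dvd_add (ha p) (hb p)
    have h1 : (deg p : ℤ) * (a + b - (a' + b')) p =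
        (deg p : ℤ) * (a - a') p + (deg p : ℤ) * (b - b') p := by
      simp only [Finsupp.sub_apply, Finsupp.add_apply]; ring
    rw [h1]; exact h
  neg_mem' := by
    rintro a ⟨a', ha', ha⟩
    refine ⟨-a', Prin.neg_mem ha', fun p => ?_⟩
    have h1 : (deg p : ℤ) * (-a - -a') p = -((deg p : ℤ) * (a - a') p) := by
      simp only [Finsupp.sub_apply, Finsupp.neg_apply]; ring
    rw [h1, dvd_neg]; exact ha p

end ZNSM

open ZNSM in
theorem tZNS (h0 : ZStmtGen) (h1 : ZStmtChar) : ZStmtNS := by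
  intro P deg Prin hZ M hM D hD
  by_contra hcon
  haveI : NeZero M := ⟨hM.ne'⟩
  have hDH : D ∉ Hsub deg Prin M := hcon
  have hMH : ∀ g : P →₀ ℤ, M • g ∈ Hsub deg Prin M := by
    intro g
    refine ⟨0, Prin.zero_mem, fun p => ?_⟩
    simp only [sub_zero, Finsupp.smul_apply, nsmul_eq_mul]
    exact ⟨(deg p : ℤ) * g p, by ring⟩
  obtain ⟨χ, hχ, hχD⟩ := h1 (P →₀ ℤ) (Hsub deg Prin M) M hM hMH D hDH
  have hζ := Complex.isPrimitiveRoot_exp M hM.ne'
  set ζ := Complex.exp (2 * Real.pi * Complex.I / M) with hζdef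
  have hPrin : ∀ D ∈ Prin, χ D = 0 := fun D hD => hχ D ⟨D, hD, fun p => by simp⟩
  haveI : Nonempty (Fin M) := ⟨⟨0, hM⟩⟩
  refine h0 P deg Prin hZ M hM ζ hζ (Fin M) (fun j => χ + (j : ℕ) • degHom deg M) ?_ ?_ ∅ ?_
  · intro j D hD
    have h2 : degHom deg M D = 0 := by
      change ((zdeg deg D : ℤ) : ZMod M) = 0
      rw [hZ.prin D hD]; simp
    simp [hPrin D hD, h2]
  · intro j
    refine ⟨D, hD, ?_⟩
    have h2 : degHom deg M D = 0 := by
      change ((zdeg deg D : ℤ) : ZMod M) = 0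
      rw [hD]; simp
    simpa [h2] using hχD
  · intro p _ k hk
    set d := deg p with hd
    have hval : ∀ j : Fin M, (ζ ^ ((χ + (j : ℕ) • degHom deg M) (Finsupp.single p 1)).val) ^ k =
        (ζ ^ (χ (Finsupp.single p 1)).val) ^ k * (ζ ^ (k * d)) ^ (j : ℕ) := by
      intro j
      have h2 : (χ + (j : ℕ) • degHom deg M) (Finsupp.single p 1) =
          (((χ (Finsupp.single p 1)).val + (j : ℕ) * d : ℕ) : ZMod M) := by
        rw [AddMonoidHom.add_apply]
        have h3 : ((j : ℕ) • degHom deg M) (Finsupp.single p 1) = (j : ℕ) * (d : ZMod M) := by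
          change (j : ℕ) • ((zdeg deg (Finsupp.single p 1) : ℤ) : ZMod M) = _
          rw [zdeg_single, nsmul_eq_mul]
          push_cast
          rw [one_mul]
        rw [h3]
        push_cast
        rw [ZMod.natCast_val, ZMod.cast_id', id]
      rw [h2, pow_mod' hζ, pow_add, mul_pow]
      congr 1
      rw [← pow_mul, ← pow_mul]
      congr 1
      ring
    rw [Finset.sum_congr rfl fun j _ => hval j, ← Finset.mul_sum,
      Fin.sum_univ_eq_sum_range (fun j => (ζ ^ (k * d)) ^ j) M]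
    by_cases hdvd : M ∣ k * d
    · have h2 : ζ ^ (k * d) = 1 := (hζ.pow_eq_one_iff_dvd _).2 hdvd
      have h3 : (ζ ^ (χ (Finsupp.single p 1)).val) ^ k = 1 := by
        have h4 : (k : ZMod M) * χ (Finsupp.single p 1) = 0 := by
          have h5 : χ (Finsupp.single p (k : ℤ)) = 0 := by
            refine hχ _ ⟨0, Prin.zero_mem, fun p' => ?_⟩
            rw [sub_zero]
            by_cases hp : p = p'
            · subst hp
              rw [Finsupp.single_eq_same]
              have : ((M : ℕ) : ℤ) ∣ ((k * d : ℕ) : ℤ) := by exact_mod_cast hdvd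
              convert this using 1
              push_cast; ring
            · rw [Finsupp.single_eq_of_ne (Ne.symm hp)]; simp
          have h6 : (Finsupp.single p (k : ℤ) : P →₀ ℤ) = k • Finsupp.single p 1 := by
            rw [Finsupp.smul_single]; simp
          rw [h6, map_nsmul, nsmul_eq_mul] at h5
          exact h5
        rw [← pow_mul, ← pow_mod' hζ]
        have h7 : (((χ (Finsupp.single p 1)).val * k : ℕ) : ZMod M) = 0 := by
          push_cast
          rw [ZMod.natCast_val, ZMod.cast_id', id, mul_comm]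
          exact h4
        rw [h7]; simp
      refine ⟨M, by positivity, ?_⟩
      rw [h3, h2]
      simp
    · have h2 : ζ ^ (k * d) ≠ 1 := fun h => hdvd ((hζ.pow_eq_one_iff_dvd _).1 h)
      have h3 : ∑ j ∈ Finset.range M, (ζ ^ (k * d)) ^ j = 0 := by
        rw [geom_sum_eq h2, ← pow_mul, mul_comm (k * d) M, pow_mul, hζ.pow_eq_one, one_pow,
          sub_self, zero_div]
      exact ⟨0, le_refl _, by rw [h3]; simp⟩

end MP7Z
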