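import Pool.Agent.Lib.MP_7f581e_Z.FF.Zeta

/-! # ZPos: a positive Euler product is not a polynomial -/

set_option autoImplicit false
set_option linter.deprecated false

namespace MP7Z.ZPosM

open PowerSeries
open scoped ComplexOrder

theorem coeff_eq (F C : PowerSeries ℂ) (h : X * derivativeFun F = C * F) (n : ℕ) :
    (n : ℂ) * coeff n F = ∑ p ∈ Finset.HasAntidiagonal.antidiagonal n, coeff p.1 C * coeff p.2 F := by
  rw [← coeff_mul, ← h]
  cases n with
  | zero => simp
  | succ n =>
    have e : coeff n (derivativeFun F) = coeff (n + 1) F * (n + 1) := coeff_derivative F n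
    rw [coeff_succ_X_mul, e, mul_comm]
    push_cast
    rfl

theorem coeff_zero (F C : PowerSeries ℂ) (hF : constantCoeff F = 1)
    (h : X * derivativeFun F = C * F) : coeff 0 C = 0 := by
  have h1 := coeff_eq F C h 0
  rw [Finset.Nat.antidiagonal_zero, Finset.sum_singleton, Nat.cast_zero, zero_mul,
    coeff_zero_eq_constantCoeff_apply F, hF, mul_one] at h1
  exact h1.symm

theorem nonneg (F C : PowerSeries ℂ) (hF : constantCoeff F = 1)
    (h : X * derivativeFun F = C * F) (hC : ∀ m, 0 ≤ coeff m C) (n : ℕ) : 0 ≤ coeff n F := by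
  induction n using Nat.strong_induction_on with
  | _ n ih =>
    rcases Nat.eq_zero_or_pos n with rfl | hn
    · rw [coeff_zero_eq_constantCoeff_apply, hF]
      exact zero_le_one
    · have h1 := coeff_eq F C h n
      have h2 : 0 ≤ (n : ℂ) * coeff n F := by
        rw [h1]
        refine Finset.sum_nonneg fun p hp => ?_
        rw [Finset.HasAntidiagonal.mem_antidiagonal] at hp
        rcases Nat.eq_zero_or_pos p.1 with h0 | h0
        · rw [h0, coeff_zero F C hF h, zero_mul]
        · exact mul_nonneg (hC _) (ih _ (by omega))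
      have hn0 : (n : ℂ) ≠ 0 := by exact_mod_cast hn.ne'
      have h3 : coeff n F = (((n : ℝ)⁻¹ : ℝ) : ℂ) * ((n : ℂ) * coeff n F) := by
        push_cast
        rw [← mul_assoc, inv_mul_cancel₀ hn0, one_mul]
      rw [h3]
      refine mul_nonneg ?_ h2
      rw [Complex.zero_le_real]
      positivity

end MP7Z.ZPosM

namespace MP7Z

open PowerSeries ZPosM
open scoped ComplexOrder

theorem tZPos : ZStmtPos := by
  rintro F C hF h hC ⟨m, hm, hCm⟩ ⟨N, hN⟩
  have hC' : ∀ m, 0 ≤ coeff m C := fun m => by
    obtain ⟨r, hr, e⟩ := hC m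
    rw [e, Complex.zero_le_real]
    exact hr
  have hF' := nonneg F C hF h hC'
  have key : ∀ k : ℕ, coeff (k * m) F ≠ 0 := by
    intro k
    induction k with
    | zero =>
      rw [zero_mul, coeff_zero_eq_constantCoeff_apply, hF]
      exact one_ne_zero
    | succ k ih =>
      intro h0
      have h1 := coeff_eq F C h ((k + 1) * m)
      rw [h0, mul_zero] at h1
      have h2 : coeff m C * coeff (k * m) F ≤
          ∑ p ∈ Finset.HasAntidiagonal.antidiagonal ((k + 1) * m), coeff p.1 C * coeff p.2 F :=
        Finset.single_le_sum (f := fun p : ℕ × ℕ => coeff p.1 C * coeff p.2 F)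
          (fun p _ => mul_nonneg (hC' _) (hF' _)) (a := (m, k * m))
          (Finset.HasAntidiagonal.mem_antidiagonal.2 (by ring))
      rw [← h1] at h2
      have h3 : 0 < coeff m C * coeff (k * m) F :=
        mul_pos (lt_of_le_of_ne (hC' m) hCm.symm) (lt_of_le_of_ne (hF' _) ih.symm)
      exact absurd h2 (not_le_of_gt h3)
  exact key N (hN _ (Nat.le_mul_of_pos_right N hm))

end MP7Z
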