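import Pool.Agent.Lib.MP_7f581e_Z.FF.Zeta

/-!
# The logarithmic derivative of the Euler product
-/

namespace MP7Z

open PowerSeries

namespace ZRecM

variable {P : Type}

/-- The value of a character at an effective divisor. -/
noncomputable def w (χ : P → ℂ) (A : P →₀ ℕ) : ℂ := A.prod fun p k => χ p ^ k

theorem w_add (χ : P → ℂ) (A B : P →₀ ℕ) : w χ (A + B) = w χ A * w χ B :=
  Finsupp.prod_add_index' (fun _ => pow_zero _) (fun _ _ _ => pow_add _ _ _)

theorem w_single (χ : P → ℂ) (p : P) (k : ℕ) : w χ (Finsupp.single p k) = χ p ^ k :=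
  Finsupp.prod_single_index (pow_zero _)

theorem edeg_add (deg : P → ℕ) (A B : P →₀ ℕ) : edeg deg (A + B) = edeg deg A + edeg deg B :=
  Finsupp.sum_add_index' (fun _ => zero_mul _) (fun _ _ _ => add_mul _ _ _)

theorem edeg_single (deg : P → ℕ) (p : P) (k : ℕ) : edeg deg (Finsupp.single p k) = k * deg p :=
  Finsupp.sum_single_index (zero_mul _)

theorem decomp (A : P →₀ ℕ) (p : P) (k : ℕ) (h : k ≤ A p) :
    A = (A - Finsupp.single p k) + Finsupp.single p k :=
  (tsub_add_cancel_of_le (Finsupp.single_le_iff.2 h)).symm

theorem le_edeg (deg : P → ℕ) (A : P →₀ ℕ) (p : P) (k : ℕ) (h : k ≤ A p) :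
    k * deg p ≤ edeg deg A := by
  conv_rhs => rw [decomp A p k h]
  rw [edeg_add, edeg_single]
  omega

/-- The shift. -/
theorem shift (deg : P → ℕ) (E : ℕ → Finset (P →₀ ℕ)) (hE : ∀ n A, A ∈ E n ↔ edeg deg A = n)
    (χ : P → ℂ) (p : P) (k n : ℕ) :
    ∑ A ∈ (E n).filter (fun A => k ≤ A p), w χ A =
      if k * deg p ≤ n then χ p ^ k * ∑ B ∈ E (n - k * deg p), w χ B else 0 := by
  classical
  split_ifs with h
  · rw [Finset.mul_sum]
    refine Finset.sum_nbij' (fun A => A - Finsupp.single p k) (fun B => B + Finsupp.single p k)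
      ?_ ?_ ?_ ?_ ?_
    · intro A hA
      rw [Finset.mem_filter, hE] at hA
      rw [hE]
      have h1 : edeg deg A = edeg deg (A - Finsupp.single p k) + k * deg p := by
        conv_lhs => rw [decomp A p k hA.2]
        rw [edeg_add, edeg_single]
      omega
    · intro B hB
      rw [hE] at hB
      rw [Finset.mem_filter, hE, edeg_add, edeg_single, hB]
      refine ⟨by omega, ?_⟩
      rw [Finsupp.add_apply, Finsupp.single_eq_same]
      omega
    · intro A hA
      exact (decomp A p k (Finset.mem_filter.1 hA).2).symm
    · intro B _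
      exact add_tsub_cancel_right B _
    · intro A hA
      conv_lhs => rw [decomp A p k (Finset.mem_filter.1 hA).2]
      rw [w_add, w_single, mul_comm]
  · rw [Finset.sum_eq_zero]
    intro A hA
    rw [Finset.mem_filter, hE] at hA
    have := le_edeg deg A p k hA.2
    omega

end ZRecM

open ZRecM

/-- ZRec -/
theorem tZRec (h0 : ZStmtEff) : ZStmtRec := by
  classical
  intro P deg hpos hfin χ
  have hE' := h0 P deg hpos hfin
  let E : ℕ → Finset (P →₀ ℕ) := fun n => (hE' n).toFinset
  have hE : ∀ n A, A ∈ E n ↔ edeg deg A = n := by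
    intro n A
    rw [Set.Finite.mem_toFinset, Set.mem_ofPred_eq]
  have hco : ∀ n, coeff n (eul deg χ) = ∑ A ∈ E n, w χ A := by
    intro n
    rw [eul, PowerSeries.coeff_mk, finsum_mem_eq_finite_toFinset_sum _ (hE' n)]
    rfl
  have hQ : ∀ n : ℕ, {p : P | deg p ≤ n}.Finite := by
    intro n
    have : {p : P | deg p ≤ n} = ⋃ i ∈ Finset.range (n + 1), {p | deg p = i} := by
      ext p
      simp
    rw [this]
    exact Set.Finite.biUnion (Finset.finite_toSet _) fun i _ => hfin i
  refine ⟨?_, ?_⟩
  · rw [← PowerSeries.coeff_zero_eq_constantCoeff_apply, hco]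
    have : E 0 = {0} := by
      ext A
      rw [hE, Finset.mem_singleton]
      constructor
      · intro hA
        ext p
        have h1 := le_edeg deg A p (A p) le_rfl
        rw [hA] at h1
        have h2 := hpos p
        rw [Finsupp.zero_apply]
        by_contra hne
        have : 0 < A p * deg p := Nat.mul_pos (Nat.pos_of_ne_zero hne) h2
        omega
      · rintro rfl
        rfl
    rw [this, Finset.sum_singleton]
    rfl
  · ext n
    rcases Nat.eq_zero_or_pos n with rfl | hn
    · rw [PowerSeries.coeff_zero_X_mul, PowerSeries.coeff_mul]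
      simp [lgd]
    · obtain ⟨n, rfl⟩ : ∃ m, n = m + 1 := ⟨n - 1, by omega⟩
      have hder : coeff n (derivativeFun (eul deg χ)) =
          coeff (n + 1) (eul deg χ) * ((n : ℂ) + 1) := PowerSeries.coeff_derivative _ _
      rw [PowerSeries.coeff_succ_X_mul, hder, PowerSeries.coeff_mul,
        Finset.Nat.sum_antidiagonal_eq_sum_range_succ_mk]
      -- left side
      have hL : coeff (n + 1) (eul deg χ) * ((n : ℂ) + 1) =
          ∑ p ∈ (hQ (n + 1)).toFinset, ∑ k ∈ Finset.Icc 1 (n + 1),
            (deg p : ℂ) * (if k * deg p ≤ n + 1 then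
              χ p ^ k * coeff (n + 1 - k * deg p) (eul deg χ) else 0) := by
        have h1 : ∀ A ∈ E (n + 1), w χ A * ((n : ℂ) + 1) =
            ∑ p ∈ (hQ (n + 1)).toFinset, ∑ k ∈ Finset.Icc 1 (n + 1),
              (deg p : ℂ) * (if k ≤ A p then w χ A else 0) := by
          intro A hA
          rw [hE] at hA
          have hsub : A.support ⊆ (hQ (n + 1)).toFinset := by
            intro p hp
            rw [Set.Finite.mem_toFinset, Set.mem_ofPred_eq]
            have h2 := le_edeg deg A p 1 (Nat.one_le_iff_ne_zero.2 (Finsupp.mem_support_iff.1 hp))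
            omega
          have h3 : ((n : ℂ) + 1) = ∑ p ∈ (hQ (n + 1)).toFinset, (A p : ℂ) * deg p := by
            have h4 : edeg deg A = ∑ p ∈ (hQ (n + 1)).toFinset, A p * deg p :=
              Finsupp.sum_of_support_subset A hsub _ (fun _ _ => zero_mul _)
            rw [hA] at h4
            exact_mod_cast h4
          rw [h3, Finset.mul_sum]
          refine Finset.sum_congr rfl fun p _ => ?_
          rw [← Finset.mul_sum, ← Finset.sum_filter, Finset.sum_const, nsmul_eq_mul]
          have h5 : ((Finset.Icc 1 (n + 1)).filter fun k => k ≤ A p).card = A p := by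
            have h6 : (Finset.Icc 1 (n + 1)).filter (fun k => k ≤ A p) = Finset.Icc 1 (A p) := by
              ext k
              rw [Finset.mem_filter, Finset.mem_Icc, Finset.mem_Icc]
              have h7 := le_edeg deg A p (A p) le_rfl
              have h8 : A p * 1 ≤ A p * deg p := Nat.mul_le_mul_left _ (hpos p)
              constructor
              · rintro ⟨⟨a1, a2⟩, a3⟩
                exact ⟨a1, a3⟩
              · rintro ⟨a1, a2⟩
                refine ⟨⟨a1, ?_⟩, a2⟩
                omega
            rw [h6, Nat.card_Icc, Nat.add_sub_cancel]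
          rw [h5]
          ring
        rw [hco, Finset.sum_mul, Finset.sum_congr rfl h1, Finset.sum_comm]
        refine Finset.sum_congr rfl fun p _ => ?_
        rw [Finset.sum_comm]
        refine Finset.sum_congr rfl fun k _ => ?_
        rw [← Finset.mul_sum, ← Finset.sum_filter, shift deg E hE]
        simp only [hco]
      rw [hL]
      -- right side
      have hR : ∀ m ∈ Finset.range (n + 1).succ,
          coeff m (lgd deg χ) * coeff (n + 1 - m) (eul deg χ) =
          ∑ p ∈ (hQ (n + 1)).toFinset, (if m ≠ 0 ∧ deg p ∣ m then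
            (deg p : ℂ) * (χ p ^ (m / deg p) * coeff (n + 1 - m) (eul deg χ)) else 0) := by
        intro m hm
        rw [Finset.mem_range] at hm
        rw [lgd, PowerSeries.coeff_mk]
        split_ifs with h1
        · subst h1
          simp
        · have h2 : {p : P | deg p ∣ m} =
              (((hQ (n + 1)).toFinset.filter fun p => deg p ∣ m : Finset P) : Set P) := by
            ext p
            rw [Finset.mem_coe, Finset.mem_filter, Set.Finite.mem_toFinset, Set.mem_ofPred_eq,
              Set.mem_ofPred_eq]
            refine ⟨fun h => ⟨?_, h⟩, fun h => h.2⟩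
            have := Nat.le_of_dvd (Nat.pos_of_ne_zero h1) h
            omega
          rw [h2, finsum_mem_coe_finset, Finset.sum_filter, Finset.sum_mul]
          refine Finset.sum_congr rfl fun p _ => ?_
          by_cases h3 : deg p ∣ m
          · rw [if_pos h3, if_pos ⟨h1, h3⟩]
            ring
          · rw [if_neg h3, if_neg (fun h => h3 h.2), zero_mul]
      rw [Finset.sum_congr rfl hR]
      conv_rhs => rw [Finset.sum_comm]
      refine Finset.sum_congr rfl fun p _ => ?_
      have hp := hpos p
      have hl : ∀ k ∈ Finset.Icc 1 (n + 1), (deg p : ℂ) * (if k * deg p ≤ n + 1 then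
              χ p ^ k * coeff (n + 1 - k * deg p) (eul deg χ) else 0) =
            if k * deg p ≤ n + 1 then
              (deg p : ℂ) * (χ p ^ k * coeff (n + 1 - k * deg p) (eul deg χ)) else 0 := by
        intro k _
        rw [mul_ite, mul_zero]
      rw [Finset.sum_congr rfl hl, ← Finset.sum_filter, ← Finset.sum_filter]
      refine Finset.sum_nbij' (fun k => k * deg p) (fun m => m / deg p) ?_ ?_ ?_ ?_ ?_
      · intro k hk
        rw [Finset.mem_filter, Finset.mem_Icc] at hk
        rw [Finset.mem_filter, Finset.mem_range]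
        refine ⟨by omega, ?_, Dvd.intro_left k rfl⟩
        have := Nat.mul_pos (show 0 < k by omega) hp
        omega
      · intro m hm
        rw [Finset.mem_filter, Finset.mem_range] at hm
        obtain ⟨hm1, hm2, q, rfl⟩ := hm
        rw [Nat.mul_div_cancel_left _ hp, Finset.mem_filter, Finset.mem_Icc]
        have h1 : q ≠ 0 := by
          rintro rfl
          exact hm2 rfl
        have h2 : 1 * q ≤ deg p * q := Nat.mul_le_mul_right _ hp
        rw [mul_comm q (deg p)]
        omega
      · intro k _
        exact Nat.mul_div_cancel _ hp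
      · intro m hm
        rw [Finset.mem_filter] at hm
        exact Nat.div_mul_cancel hm.2.2
      · intro k _
        rw [Nat.mul_div_cancel _ hp]

end MP7Z
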