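import Pool.Agent.Lib.MP_7f581e_Z.FF.Zeta

/-!
# Package FF: removing finitely many primes from an Euler product
-/

set_option autoImplicit false

namespace MP7Z

open PowerSeries

namespace ZRemM

theorem edeg_add_single {P : Type} (deg : P → ℕ) (A : P →₀ ℕ) (p : P) :
    edeg deg (A + Finsupp.single p 1) = edeg deg A + deg p := by
  rw [edeg, Finsupp.sum_add_index' (by simp) (fun p a b => by ring), Finsupp.sum_single_index
    (by simp), one_mul, edeg]

theorem prod_add_single {P : Type} (χ : P → ℂ) (A : P →₀ ℕ) (p : P) :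
    (A + Finsupp.single p 1).prod (fun p k => χ p ^ k) = χ p * A.prod fun p k => χ p ^ k := by
  rw [Finsupp.prod_add_index' (by simp) (fun p a b => pow_add _ _ _), Finsupp.prod_single_index
    (by simp), pow_one, mul_comm]

/-- removing one prime -/
theorem one {P : Type} (deg : P → ℕ) (hfin : ∀ n, {A : P →₀ ℕ | edeg deg A = n}.Finite)
    (χ χ' : P → ℂ) (p₀ : P) (h0 : χ' p₀ = 0) (h1 : ∀ p, p ≠ p₀ → χ' p = χ p)
    (h : ∃ N, ∀ n ≥ N, coeff n (eul deg χ) = 0) : ∃ N, ∀ n ≥ N, coeff n (eul deg χ') = 0 := by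
  classical
  obtain ⟨N, hN⟩ := h
  have hcoeff : ∀ (ψ : P → ℂ) (n : ℕ), coeff n (eul deg ψ) =
      ∑ A ∈ (hfin n).toFinset, A.prod fun p k => ψ p ^ k := by
    intro ψ n
    rw [eul, coeff_mk, finsum_mem_eq_finite_toFinset_sum _ (hfin n)]
  refine ⟨N + deg p₀, fun n hn => ?_⟩
  have hn1 := hN n (by omega)
  have hn2 := hN (n - deg p₀) (by omega)
  rw [hcoeff] at hn1 hn2 ⊢
  rw [← Finset.sum_filter_add_sum_filter_not _ (fun A : P →₀ ℕ => A p₀ = 0)] at hn1 ⊢
  have e1 : ∑ A ∈ (hfin n).toFinset with ¬ A p₀ = 0, (A.prod fun p k => χ' p ^ k) = 0 := by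
    apply Finset.sum_eq_zero
    intro A hA
    rw [Finset.mem_filter] at hA
    apply Finset.prod_eq_zero (Finsupp.mem_support_iff.mpr hA.2)
    simp only
    rw [h0, zero_pow hA.2]
  have e2 : ∑ A ∈ (hfin n).toFinset with A p₀ = 0, (A.prod fun p k => χ' p ^ k) =
      ∑ A ∈ (hfin n).toFinset with A p₀ = 0, (A.prod fun p k => χ p ^ k) := by
    apply Finset.sum_congr rfl
    intro A hA
    rw [Finset.mem_filter] at hA
    apply Finset.prod_congr rfl
    intro p hp
    simp only
    rw [h1 p]
    rintro rfl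
    exact Finsupp.mem_support_iff.mp hp hA.2
  have e3 : ∑ A ∈ (hfin n).toFinset with ¬ A p₀ = 0, (A.prod fun p k => χ p ^ k) =
      χ p₀ * ∑ A ∈ (hfin (n - deg p₀)).toFinset, A.prod fun p k => χ p ^ k := by
    rw [Finset.mul_sum]
    symm
    apply Finset.sum_bij (fun A _ => A + Finsupp.single p₀ 1)
    · intro A hA
      rw [Set.Finite.mem_toFinset, Set.mem_setOf_eq] at hA
      rw [Finset.mem_filter, Set.Finite.mem_toFinset, Set.mem_setOf_eq, edeg_add_single, hA]
      refine ⟨by omega, ?_⟩
      simp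
    · intro A _ B _ hAB
      exact add_right_cancel hAB
    · intro B hB
      rw [Finset.mem_filter, Set.Finite.mem_toFinset, Set.mem_setOf_eq] at hB
      have hle : Finsupp.single p₀ 1 ≤ B := by
        rw [Finsupp.single_le_iff]
        omega
      refine ⟨B - Finsupp.single p₀ 1, ?_, tsub_add_cancel_of_le hle⟩
      rw [Set.Finite.mem_toFinset, Set.mem_setOf_eq]
      have h3 := edeg_add_single deg (B - Finsupp.single p₀ 1) p₀
      rw [tsub_add_cancel_of_le hle] at h3
      omega
    · intro A _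
      rw [prod_add_single]
  rw [e3, hn2, mul_zero, add_zero] at hn1
  rw [e1, e2, hn1, add_zero]

end ZRemM

theorem tZRem (h0 : ZStmtEff) : ZStmtRem := by
  classical
  intro P deg hpos hfin χ S
  induction S using Finset.induction_on with
  | empty =>
    intro χ' _ h2 h
    have : χ' = χ := funext fun p => h2 p (Finset.notMem_empty p)
    rwa [this]
  | insert p₀ S hp ih =>
    intro χ' h1 h2 h
    have h3 := ih (fun p => if p = p₀ then χ p₀ else χ' p) (by
      intro p hpS
      have hne : p ≠ p₀ := by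
        rintro rfl
        exact hp hpS
      simp only [if_neg hne]
      exact h1 p (Finset.mem_insert_of_mem hpS)) (by
      intro p hpS
      by_cases hpp : p = p₀
      · subst hpp
        simp
      · simp only [if_neg hpp]
        exact h2 p (by simp [hpp, hpS])) h
    exact ZRemM.one deg (h0 P deg hpos hfin) _ χ' p₀ (h1 p₀ (Finset.mem_insert_self _ _))
      (fun p hpp => by simp [hpp]) h3

end MP7Z
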