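import Pool.Agent.Lib.MP_7f581e_Z.FF.Zeta

/-!
# `ZStmtTwo`
-/

namespace MP7Z

namespace ZTwoM

theorem pow_val {M : ℕ} [NeZero M] {ζ : ℂ} (hζ : IsPrimitiveRoot ζ M) (a : ZMod M) (k : ℕ) :
    (ζ ^ a.val) ^ k = ζ ^ ((k : ZMod M) * a).val := by
  have h1 : ((k : ZMod M) * a) = ((a.val * k : ℕ) : ZMod M) := by
    push_cast
    rw [ZMod.natCast_val, ZMod.cast_id', id, mul_comm]
  rw [h1, ZMod.val_natCast, ← pow_mul]
  conv_lhs => rw [← Nat.div_add_mod (a.val * k) M, pow_add, pow_mul, hζ.pow_eq_one, one_pow,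
    one_mul]

theorem sum_all {ℓ : ℕ} [hp : Fact ℓ.Prime] {ζ : ℂ} (hζ : IsPrimitiveRoot ζ ℓ) (b : ZMod ℓ) :
    ∑ x : ZMod ℓ, ζ ^ (x * b).val = if b = 0 then (ℓ : ℂ) else 0 := by
  split_ifs with hb
  · subst hb
    simp [ZMod.card]
  · have h1 : ∑ x : ZMod ℓ, ζ ^ (x * b).val = ∑ x : ZMod ℓ, ζ ^ x.val :=
      Fintype.sum_equiv (Equiv.mulRight₀ b hb) _ _ (fun x => rfl)
    rw [h1]
    have h2 : ∑ x : ZMod ℓ, ζ ^ x.val = ∑ j ∈ Finset.range ℓ, ζ ^ j := by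
      rw [← Fin.sum_univ_eq_sum_range (fun j => ζ ^ j) ℓ]
      obtain ⟨m, rfl⟩ : ∃ m, ℓ = m + 1 := ⟨ℓ - 1, by have := hp.out.pos; omega⟩
      rfl
    rw [h2, hζ.geom_sum_eq_zero hp.out.one_lt]

theorem sum_ne {ℓ : ℕ} [hp : Fact ℓ.Prime] {ζ : ℂ} (hζ : IsPrimitiveRoot ζ ℓ) (a : ZMod ℓ) (k : ℕ) :
    ∑ i : {i : ZMod ℓ // i ≠ 0}, (ζ ^ ((i : ZMod ℓ) * a).val) ^ k =
      (if (k : ZMod ℓ) * a = 0 then (ℓ : ℂ) else 0) - 1 := by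
  rw [← sum_all hζ, Fintype.sum_eq_add_sum_subtype_ne _ (0 : ZMod ℓ)]
  simp only [zero_mul, ZMod.val_zero, pow_zero, add_sub_cancel_left]
  refine Finset.sum_congr rfl fun i _ => ?_
  rw [pow_val hζ]
  congr 2
  ring

end ZTwoM

open ZTwoM in
theorem tZTwo (h0 : ZStmtGen) : ZStmtTwo := by
  intro P deg Prin hZ ℓ hℓ χ χ' hχ hχ' S hS
  by_contra hcon
  push Not at hcon
  obtain ⟨⟨D, hD, hD'⟩, ⟨D', hD1, hD1'⟩⟩ := hcon
  haveI : Fact ℓ.Prime := ⟨hℓ⟩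
  have hζ := Complex.isPrimitiveRoot_exp ℓ hℓ.ne_zero
  set ζ := Complex.exp (2 * Real.pi * Complex.I / ℓ) with hζdef
  have hne : (1 : ZMod ℓ) ≠ 0 := one_ne_zero
  haveI : Nonempty (Bool × {i : ZMod ℓ // i ≠ 0}) := ⟨(true, ⟨1, hne⟩)⟩
  refine h0 P deg Prin hZ ℓ hℓ.pos ζ hζ (Bool × {i : ZMod ℓ // i ≠ 0})
    (fun bi => (AddMonoidHom.mulLeft (bi.2 : ZMod ℓ)).comp (if bi.1 then χ else χ')) ?_ ?_ S ?_
  · rintro ⟨b, i⟩ D hD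
    cases b
    · simp [hχ' D hD]
    · simp [hχ D hD]
  · rintro ⟨b, i⟩
    cases b
    · refine ⟨D', hD1, ?_⟩
      simp [i.2, hD1']
    · refine ⟨D, hD, ?_⟩
      simp [i.2, hD']
  · intro p hp k hk
    rw [Fintype.sum_prod_type]
    simp only [Fintype.sum_bool, if_true, Bool.false_eq_true, if_false, AddMonoidHom.comp_apply,
      AddMonoidHom.coe_mulLeft]
    rw [sum_ne hζ, sum_ne hζ]
    have hl2 : (2 : ℝ) ≤ ℓ := by exact_mod_cast hℓ.two_le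
    rcases hS p hp with h | h
    · rw [h, mul_zero, if_pos rfl]
      split_ifs
      · exact ⟨(ℓ : ℝ) - 1 + ((ℓ : ℝ) - 1), by linarith, by push_cast; ring⟩
      · exact ⟨(ℓ : ℝ) - 1 + (0 - 1), by linarith, by push_cast; ring⟩
    · rw [h, mul_zero, if_pos rfl]
      split_ifs
      · exact ⟨(ℓ : ℝ) - 1 + ((ℓ : ℝ) - 1), by linarith, by push_cast; ring⟩
      · exact ⟨(0 : ℝ) - 1 + (ℓ - 1), by linarith, by push_cast; ring⟩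

end MP7Z
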