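import Pool.Agent.Lib.MP_7f581e_Z.FF.Zeta

/-!
# The L-series of a character nontrivial on divisors of degree zero is a polynomial
-/

namespace MP7Z

open PowerSeries

namespace ZVanM

variable {P : Type}

/-- The multiplicative function. -/
noncomputable def psi {M : ℕ} (ζ : ℂ) (χ : (P →₀ ℤ) →+ ZMod M) (D : P →₀ ℤ) : ℂ := ζ ^ (χ D).val

theorem psi_add {M : ℕ} [NeZero M] {ζ : ℂ} (hζ : ζ ^ M = 1) (χ : (P →₀ ℤ) →+ ZMod M)
    (D D' : P →₀ ℤ) : psi ζ χ (D + D') = psi ζ χ D * psi ζ χ D' := by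
  rw [psi, map_add, ZMod.val_add, ← pow_eq_pow_mod _ hζ, pow_add, psi, psi]

theorem psi_zero {M : ℕ} (ζ : ℂ) (χ : (P →₀ ℤ) →+ ZMod M) : psi ζ χ 0 = 1 := by
  rw [psi, map_zero, ZMod.val_zero, pow_zero]

theorem psi_nsmul {M : ℕ} [NeZero M] {ζ : ℂ} (hζ : ζ ^ M = 1) (χ : (P →₀ ℤ) →+ ZMod M)
    (D : P →₀ ℤ) (k : ℕ) : psi ζ χ (k • D) = psi ζ χ D ^ k := by
  induction k with
  | zero => rw [zero_smul, psi_zero, pow_zero]
  | succ k ih => rw [succ_nsmul, psi_add hζ, ih, pow_succ]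

theorem toZ_add (A B : P →₀ ℕ) : toZ (A + B) = toZ A + toZ B := by
  ext p
  simp

theorem toZ_single (p : P) (k : ℕ) : toZ (Finsupp.single p k) = k • Finsupp.single p (1 : ℤ) := by
  classical
  ext q
  rw [toZ_apply, Finsupp.smul_apply]
  by_cases h : p = q
  · subst h
    simp
  · rw [Finsupp.single_eq_of_ne (Ne.symm h), Finsupp.single_eq_of_ne (Ne.symm h)]
    simp

theorem prod_eq {M : ℕ} [NeZero M] {ζ : ℂ} (hζ : ζ ^ M = 1) (χ : (P →₀ ℤ) →+ ZMod M)
    (A : P →₀ ℕ) : (A.prod fun p k => (ζ ^ (χ (Finsupp.single p 1)).val) ^ k) =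
      psi ζ χ (toZ A) := by
  classical
  induction A using Finsupp.induction_linear with
  | zero =>
    have : toZ (0 : P →₀ ℕ) = 0 := by
      ext p
      simp
    rw [this, psi_zero, Finsupp.prod_zero_index]
  | add A B hA hB =>
    rw [Finsupp.prod_add_index' (fun p => pow_zero _) (fun p a b => pow_add _ _ _), hA, hB,
      toZ_add, psi_add hζ]
  | single p k =>
    rw [Finsupp.prod_single_index (h := fun p k => (ζ ^ (χ (Finsupp.single p 1)).val) ^ k)
      (pow_zero _), toZ_single, psi_nsmul hζ]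
    rfl

end ZVanM

open ZVanM

/-- ZVan -/
theorem tZVan (h0 : ZStmtEff) : ZStmtVan := by
  classical
  intro P deg Prin hz M hM ζ hζ χ hχ hex
  obtain ⟨D₀, hD₀, hχ0⟩ := hex
  have : NeZero M := ⟨hM.ne'⟩
  have hζM : ζ ^ M = 1 := hζ.pow_eq_one
  obtain ⟨N, c, hc⟩ := hz.count
  refine ⟨N.toNat, fun n hn => ?_⟩
  have hnN : N ≤ (n : ℤ) := by omega
  have hfin := h0 P deg hz.deg_pos hz.fin n
  rw [eul, PowerSeries.coeff_mk, finsum_mem_eq_finite_toFinset_sum _ hfin]
  simp_rw [prod_eq hζM χ]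
  -- the number of effective divisors in a class
  have hcard : ∀ D : P →₀ ℤ, zdeg deg D = n →
      (hfin.toFinset.filter fun A => toZ A - D ∈ Prin).card = c n := by
    intro D hD
    rw [← Nat.subtype_card (p := fun A : P →₀ ℕ => toZ A - D ∈ Prin)
      (hfin.toFinset.filter fun A => toZ A - D ∈ Prin)]
    · have := (hc D (by rw [hD]; exact hnN)).2
      rwa [hD] at this
    · intro A
      rw [Finset.mem_filter, Set.Finite.mem_toFinset, Set.mem_ofPred_eq]
      refine ⟨fun h => h.2, fun h => ⟨?_, h⟩⟩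
      have h1 := hz.prin _ h
      rw [zdeg_sub, zdeg_toZ, hD] at h1
      omega
  rcases hfin.toFinset.eq_empty_or_nonempty with he | ⟨A₀, hA₀⟩
  · rw [he, Finset.sum_empty]
  have hcpos : 0 < c n := by
    rw [Set.Finite.mem_toFinset, Set.mem_ofPred_eq] at hA₀
    have h1 : zdeg deg (toZ A₀) = n := by rw [zdeg_toZ, hA₀]
    have := (hc (toZ A₀) (by rw [h1]; exact hnN)).1
    rwa [h1] at this
  have hdeg : ∀ A ∈ hfin.toFinset, zdeg deg (toZ A) = n := by
    intro A hA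
    rw [Set.Finite.mem_toFinset, Set.mem_ofPred_eq] at hA
    rw [zdeg_toZ, hA]
  generalize hS : hfin.toFinset = S at *
  have e1 : ∑ A ∈ S, ∑ A' ∈ S, (if toZ A - toZ A' - D₀ ∈ Prin then psi ζ χ (toZ A) else 0) =
      c n * ∑ A ∈ S, psi ζ χ (toZ A) := by
    rw [Finset.mul_sum]
    refine Finset.sum_congr rfl fun A hA => ?_
    rw [← Finset.sum_filter, Finset.sum_const, nsmul_eq_mul]
    congr 2
    rw [← hcard (toZ A - D₀) (by rw [zdeg_sub, hdeg A hA, hD₀, sub_zero])]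
    congr 1
    refine Finset.filter_congr fun A' _ => ?_
    rw [← Prin.neg_mem_iff]
    have : -(toZ A - toZ A' - D₀) = toZ A' - (toZ A - D₀) := by abel
    rw [this]
  have e2 : ∑ A ∈ S, ∑ A' ∈ S, (if toZ A - toZ A' - D₀ ∈ Prin then psi ζ χ (toZ A) else 0) =
      c n * (psi ζ χ D₀ * ∑ A ∈ S, psi ζ χ (toZ A)) := by
    rw [Finset.sum_comm, Finset.mul_sum, Finset.mul_sum]
    refine Finset.sum_congr rfl fun A' hA' => ?_
    rw [← Finset.sum_filter]
    have h1 : ∀ A ∈ S.filter (fun A => toZ A - toZ A' - D₀ ∈ Prin),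
        psi ζ χ (toZ A) = psi ζ χ D₀ * psi ζ χ (toZ A') := by
      intro A hA
      have h2 := hχ _ (Finset.mem_filter.1 hA).2
      rw [← psi_add hζM]
      unfold psi
      congr 2
      have h3 : toZ A = (toZ A - toZ A' - D₀) + (D₀ + toZ A') := by abel
      rw [h3, map_add, h2, zero_add]
    rw [Finset.sum_congr rfl h1, Finset.sum_const, nsmul_eq_mul]
    congr 2
    rw [← hcard (toZ A' + D₀) (by rw [zdeg_add, hdeg A' hA', hD₀, add_zero])]
    congr 1
    refine Finset.filter_congr fun A _ => ?_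
    have : toZ A - toZ A' - D₀ = toZ A - (toZ A' + D₀) := by abel
    rw [this]
  have hcC : (c n : ℂ) ≠ 0 := Nat.cast_ne_zero.2 hcpos.ne'
  have e3 := mul_left_cancel₀ hcC (e1.symm.trans e2)
  have hpsi : psi ζ χ D₀ ≠ 1 := by
    intro h
    have h1 := (hζ.pow_eq_one_iff_dvd _).1 h
    have h2 := Nat.le_of_dvd (Nat.pos_of_ne_zero (by
      intro h3
      exact hχ0 ((ZMod.val_eq_zero _).1 h3))) h1
    have h3 := ZMod.val_lt (χ D₀)
    omega
  have e4 : (1 - psi ζ χ D₀) * ∑ A ∈ S, psi ζ χ (toZ A) = 0 := by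
    rw [sub_mul, one_mul, sub_eq_zero]
    exact e3
  exact (mul_eq_zero.1 e4).resolve_left (sub_ne_zero.2 (Ne.symm hpsi))

end MP7Z
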