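import Pool.Agent.Lib.MP_7f581e_Z.FF.Spec

/-!
# The orbits of places form a degree theory with finiteness
-/

namespace MP7Z

namespace ZetaM

theorem card_sub_one {T : Type} (p : T → Prop) (a : T) (ha : p a) (n : ℕ) (hn : 0 < n)
    (h : Nat.card {x // p x} = n) : Nat.card {x // p x ∧ x ≠ a} = n - 1 := by
  have h1 : ({x | p x} : Set T).ncard = n := by
    rw [← h]
    exact (Nat.card_coe_set_eq _).symm
  have hfin : ({x | p x} : Set T).Finite := Set.finite_of_ncard_pos (by omega)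
  have h2 : ({x | p x ∧ x ≠ a} : Set T) = {x | p x} \ {a} := by
    ext x
    simp
  have h3 : Nat.card {x // p x ∧ x ≠ a} = ({x | p x ∧ x ≠ a} : Set T).ncard :=
    Nat.card_coe_set_eq _
  rw [h3, h2, Set.ncard_sdiff_singleton_of_mem (show a ∈ {x | p x} from ha), h1]

variable {𝕜 E : Type} [Field 𝕜] [IsAlgClosed 𝕜] [Field E] [Algebra 𝕜 E]

theorem orb_comap (φ : E ≃+* E) (v : Place 𝕜 E) : orb φ (v.comap φ) = orb φ v := by
  symm
  rw [orb_eq_iff]
  exact ⟨1, by rw [zpow_one]⟩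

theorem mem_Lsp_iff {D : Place 𝕜 E → ℤ} {f : E} (hf : f ≠ 0) :
    f ∈ Lsp D ↔ ∀ v : Place 𝕜 E, 0 ≤ D v + v.pord f := by
  rw [mem_Lsp]
  refine forall_congr' fun v => ?_
  rw [v.ord_eq_pord hf, WithTop.coe_le_coe]
  omega

end ZetaM

open ZetaM

/-- Zeta -/
theorem tZeta (h0 : RiemannStmt) (h1 : FStmtCard) (h2 : FStmtFixCard) (h4 : FStmtFin)
    (h5 : FStmtOrbLen) (h6 : FStmtPull) : FStmtZeta := by
  classical
  intro 𝕜 E _ _ _ _ _ q φ hφ
  obtain ⟨x, hx, hxt, hxs⟩ := hφ.sep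
  obtain ⟨hR1, hR2, g, N₀, hR3⟩ := h0 𝕜 E x hxt hxs
  obtain ⟨hF1, hF2, hF3⟩ := h4 𝕜 E q φ hφ
  have hO := h5 𝕜 E q φ hφ
  obtain ⟨e, he, hdeg, hinv⟩ := h6 𝕜 E q φ hφ
  have hq : 1 < q := hφ.primePow.one_lt
  have hpos : ∀ p : Orb 𝕜 φ, 0 < orbDeg φ p := by
    intro p
    obtain ⟨v, rfl⟩ := orb_surjective φ p
    rw [(hO v).2.2.2]
    exact (hO v).1
  have hprin : ∀ D ∈ PrinOrb 𝕜 φ, zdeg (orbDeg φ) D = 0 := by
    rintro D ⟨f, hf, _, hD⟩
    rw [← hdeg, dg_eq]
    exact hR2 f hf (e D) fun v => by rw [he, hD]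
  refine ⟨hpos, ?_, ?_, hprin, ?_⟩
  · intro n
    rcases Nat.eq_zero_or_pos n with rfl | hn
    · have : {p : Orb 𝕜 φ | orbDeg φ p = 0} = ∅ := by
        ext p
        simp only [Set.mem_ofPred_eq, Set.mem_empty_iff_false, iff_false]
        exact (hpos p).ne'
      rw [this]
      exact Set.finite_empty
    · refine ((hF1 n hn).image (orb φ)).subset ?_
      intro p hp
      obtain ⟨v, rfl⟩ := orb_surjective φ p
      rw [Set.mem_ofPred_eq, (hO v).2.2.2] at hp
      exact ⟨v, ((hO v).2.1 n).2 (by rw [hp]), rfl⟩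
  · by_contra hcon
    rw [not_infinite_iff_finite] at hcon
    have huniv : (Set.univ : Set (Place 𝕜 E)) = ⋃ p : Orb 𝕜 φ, {w | orb φ w = p} := by
      ext w
      simp
    have hfin : (Set.univ : Set (Place 𝕜 E)).Finite := by
      rw [huniv]
      refine Set.finite_iUnion fun p => ?_
      obtain ⟨v, rfl⟩ := orb_surjective φ p
      exact (hO v).2.2.1
    exact Set.infinite_univ hfin
  · refine ⟨max N₀ g, fun n => (q ^ (n + 1 - g).toNat - 1) / (q - 1), ?_⟩
    intro D hD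
    have hdN : N₀ ≤ dg (e D) := by
      rw [hdeg]
      exact (le_max_left _ _).trans hD
    have hdg : (g : ℤ) ≤ zdeg (orbDeg φ) D := (le_max_right _ _).trans hD
    have hfr := hR3 (e D) hdN
    rw [← dg_eq, hdeg] at hfr
    have hfr' : Module.finrank 𝕜 (Lsp (e D : Place 𝕜 E → ℤ)) =
        (zdeg (orbDeg φ) D + 1 - g).toNat := by omega
    have hd1 : 1 ≤ (zdeg (orbDeg φ) D + 1 - g).toNat := by omega
    beta_reduce
    generalize (zdeg (orbDeg φ) D + 1 - g).toNat = d at hfr' hd1 ⊢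
    have hqd : q ≤ q ^ d := by
      calc q = q ^ 1 := (pow_one q).symm
        _ ≤ q ^ d := Nat.pow_le_pow_right (by omega) hd1
    -- the fixed vectors
    have hstab : ∀ w ∈ Lsp (e D : Place 𝕜 E → ℤ), φ w ∈ Lsp (e D : Place 𝕜 E → ℤ) := by
      intro w hw v
      have h7 := hw (v.comap φ)
      rw [he, orb_comap, ← he, Place.comap_ord] at h7
      exact h7
    have hX := h1 𝕜 E q φ hφ _ (hR1 (e D)) hstab
    rw [hfr'] at hX
    have hX' := card_sub_one (fun w : E => w ∈ Lsp (e D : Place 𝕜 E → ℤ) ∧ φ w = w) 0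
      ⟨Submodule.zero_mem _, map_zero φ⟩ (q ^ d) (by positivity) hX
    have hC := card_sub_one (fun c : 𝕜 => c ^ q = c) 0 (zero_pow (by omega)) q (by omega)
      (h2 𝕜 q hq hφ.card)
    -- the section
    have hs : ∀ A : {A : Orb 𝕜 φ →₀ ℕ // toZ A - D ∈ PrinOrb 𝕜 φ},
        ∃ f : E, f ≠ 0 ∧ φ f = f ∧ ∀ v : Place 𝕜 E,
          (A.1 (orb φ v) : ℤ) - D (orb φ v) = v.pord f := by
      rintro ⟨A, f, hf, hf', hA⟩
      exact ⟨f, hf, hf', fun v => by
        have := hA v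
        rwa [Finsupp.sub_apply, toZ_apply] at this⟩
    choose s hs0 hsφ hsv using hs
    let G : {A : Orb 𝕜 φ →₀ ℕ // toZ A - D ∈ PrinOrb 𝕜 φ} × {c : 𝕜 // c ^ q = c ∧ c ≠ 0} →
        {w : E // (w ∈ Lsp (e D : Place 𝕜 E → ℤ) ∧ φ w = w) ∧ w ≠ 0} := fun z =>
      ⟨algebraMap 𝕜 E z.2.1 * s z.1, ⟨by
        have hc : algebraMap 𝕜 E z.2.1 ≠ 0 := (map_ne_zero _).2 z.2.2.2
        rw [mem_Lsp_iff (mul_ne_zero hc (hs0 z.1))]
        intro v
        rw [v.pord_mul hc (hs0 z.1), v.pord_const, ← hsv, he]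
        omega, by
        rw [map_mul, hφ.frob, z.2.2.1, hsφ]⟩,
        mul_ne_zero ((map_ne_zero _).2 z.2.2.2) (hs0 z.1)⟩
    have hGinj : Function.Injective G := by
      rintro ⟨A, c⟩ ⟨A', c'⟩ h
      have h7 : algebraMap 𝕜 E c.1 * s A = algebraMap 𝕜 E c'.1 * s A' := congrArg Subtype.val h
      have hA : A = A' := by
        apply Subtype.ext
        ext p
        obtain ⟨v, rfl⟩ := orb_surjective φ p
        have h8 : ∀ (B : {A : Orb 𝕜 φ →₀ ℕ // toZ A - D ∈ PrinOrb 𝕜 φ})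
            (b : {c : 𝕜 // c ^ q = c ∧ c ≠ 0}),
            v.pord (algebraMap 𝕜 E b.1 * s B) = (B.1 (orb φ v) : ℤ) - D (orb φ v) := by
          intro B b
          rw [v.pord_mul ((map_ne_zero _).2 b.2.2) (hs0 B), v.pord_const, ← hsv, zero_add]
        have h9 := h8 A c
        rw [h7, h8 A' c'] at h9
        omega
      subst hA
      have hc : c = c' := by
        apply Subtype.ext
        exact (algebraMap 𝕜 E).injective (mul_right_cancel₀ (hs0 A) h7)
      rw [hc]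
    have hGsurj : Function.Surjective G := by
      rintro ⟨w, ⟨hwL, hwφ⟩, hw0⟩
      -- the divisor on orbits
      obtain ⟨B, hB⟩ := hinv (dv 𝕜 w) (fun v => by
        rw [dv_apply, dv_apply, Place.comap_pord, hwφ])
      have hB' : ∀ v : Place 𝕜 E, B (orb φ v) = v.pord w := by
        intro v
        rw [← he, hB, dv_apply]
      have hnn : ∀ v : Place 𝕜 E, 0 ≤ (D + B) (orb φ v) := by
        intro v
        have := (mem_Lsp_iff hw0).1 hwL v
        rw [he] at this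
        rw [Finsupp.add_apply, hB']
        exact this
      let A : Orb 𝕜 φ →₀ ℕ := (D + B).mapRange Int.toNat (by simp)
      have hA : ∀ v : Place 𝕜 E, (A (orb φ v) : ℤ) = D (orb φ v) + v.pord w := by
        intro v
        change (((D + B) (orb φ v)).toNat : ℤ) = _
        rw [Int.toNat_of_nonneg (hnn v), Finsupp.add_apply, hB']
      have hAmem : toZ A - D ∈ PrinOrb 𝕜 φ := by
        refine ⟨w, hw0, hwφ, fun v => ?_⟩
        rw [Finsupp.sub_apply, toZ_apply, hA]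
        omega
      have hsw : ∀ v : Place 𝕜 E, v.pord (s ⟨A, hAmem⟩) = v.pord w := by
        intro v
        rw [← hsv, hA]
        omega
      have hs0' := hs0 ⟨A, hAmem⟩
      obtain ⟨c, hc0, hc⟩ := exists_const_of_dv_eq_zero (𝕜 := 𝕜)
        (f := w * (s ⟨A, hAmem⟩)⁻¹) (mul_ne_zero hw0 (inv_ne_zero hs0')) (by
          ext v
          rw [dv_apply, v.pord_mul hw0 (inv_ne_zero hs0'), v.pord_inv hs0', hsw,
            Finsupp.zero_apply]
          omega)
      have hw' : w = algebraMap 𝕜 E c * s ⟨A, hAmem⟩ := by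
        rw [← hc, mul_assoc, inv_mul_cancel₀ hs0', mul_one]
      have hcq : c ^ q = c := by
        have h7 := hwφ
        rw [hw', map_mul, hφ.frob, hsφ] at h7
        exact (algebraMap 𝕜 E).injective (mul_right_cancel₀ hs0' h7)
      refine ⟨⟨⟨A, hAmem⟩, ⟨c, hcq, hc0⟩⟩, ?_⟩
      apply Subtype.ext
      exact hw'.symm
    have hcard := Nat.card_congr (Equiv.ofBijective G ⟨hGinj, hGsurj⟩)
    rw [Nat.card_prod, hX', hC] at hcard
    have hq1 : 0 < q - 1 := by omega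
    refine ⟨Nat.div_pos (by omega) hq1, ?_⟩
    rw [← hcard, Nat.mul_div_cancel _ hq1]

end MP7Z
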