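import Pool.Agent.Lib.MP_7f581e_Z.FF.ZEff
import Pool.Agent.Lib.MP_7f581e_Z.FF.ZRec
import Pool.Agent.Lib.MP_7f581e_Z.FF.ZRem
import Pool.Agent.Lib.MP_7f581e_Z.FF.ZPos
import Pool.Agent.Lib.MP_7f581e_Z.FF.ZVan
import Pool.Agent.Lib.MP_7f581e_Z.FF.ZGen
import Pool.Agent.Lib.MP_7f581e_Z.FF.ZChar
import Pool.Agent.Lib.MP_7f581e_Z.FF.ZNS
import Pool.Agent.Lib.MP_7f581e_Z.FF.ZTwo
import Pool.Agent.Lib.MP_7f581e_Z.FF.ZHerb
import Pool.Agent.Lib.MP_7f581e_Z.FF.Mono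
import Pool.Agent.Lib.MP_7f581e_Z.FF.Shift
import Pool.Agent.Lib.MP_7f581e_Z.FF.Clear
import Pool.Agent.Lib.MP_7f581e_Z.FF.Grow
import Pool.Agent.Lib.MP_7f581e_Z.FF.Pol
import Pool.Agent.Lib.MP_7f581e_Z.FF.Ineq
import Pool.Agent.Lib.MP_7f581e_Z.FF.Prod
import Pool.Agent.Lib.MP_7f581e_Z.FF.RMain
import Pool.Agent.Lib.MP_7f581e_Z.FF.FixCard
import Pool.Agent.Lib.MP_7f581e_Z.FF.Span
import Pool.Agent.Lib.MP_7f581e_Z.FF.Card
import Pool.Agent.Lib.MP_7f581e_Z.FF.Const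
import Pool.Agent.Lib.MP_7f581e_Z.FF.Pow
import Pool.Agent.Lib.MP_7f581e_Z.FF.Fin
import Pool.Agent.Lib.MP_7f581e_Z.FF.OrbLen
import Pool.Agent.Lib.MP_7f581e_Z.FF.Pull
import Pool.Agent.Lib.MP_7f581e_Z.FF.ZetaF
import Pool.Agent.Lib.MP_7f581e_Z.FF.Move
import Pool.Agent.Lib.MP_7f581e_Z.FF.LocN
import Pool.Agent.Lib.MP_7f581e_Z.FF.H90
import Pool.Agent.Lib.MP_7f581e_Z.FF.InvClass
import Pool.Agent.Lib.MP_7f581e_Z.FF.ClFin
import Pool.Agent.Lib.MP_7f581e_Z.FF.NSurj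
import Pool.Agent.Lib.MP_7f581e_Z.FF.HN
import Pool.Agent.Lib.MP_7f581e_Z.FF.BadDisj
import Pool.Agent.Lib.MP_7f581e_Z.FF.PMain
import Pool.Agent.Lib.MP_7f581e_Z.FF.Tsen

/-!
# Package FF: the four statements of the interface
-/

namespace MP7Z

theorem ff_ineq : FStmtIneq := tIneq tMono tShift (tGrow tClear) tPol

/-- **Riemann's theorem.** -/
theorem ff_riemann : RiemannStmt := tRMain tMono tShift ff_ineq (tProd ff_ineq tShift)

theorem ff_span : FStmtSpan := tSpan tFixCard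

theorem ff_card : FStmtCard := tCard ff_span tFixCard

theorem ff_fin : FStmtFin := tFFin tFixCard tPow

theorem ff_orbLen : FStmtOrbLen := tOrbLen ff_fin

theorem ff_pull : FStmtPull := tPull ff_orbLen

/-- The orbits of places form a degree theory with finiteness. -/
theorem ff_zeta : FStmtZeta := tZeta ff_riemann ff_card tFixCard ff_fin ff_orbLen ff_pull

theorem ff_move : FStmtMove := tMove ff_riemann ff_span ff_fin

theorem ff_gen : ZStmtGen := tZGen tZEff (tZRec tZEff) (tZRem tZEff) tZPos (tZVan tZEff)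

theorem ff_ns : ZStmtNS := tZNS ff_gen tZChar

theorem ff_two : ZStmtTwo := tZTwo ff_gen

theorem ff_locN : FStmtLocN := tLocN ff_orbLen ff_pull

theorem ff_h90 : FStmtH90 := tH90 tFixCard

theorem ff_nsurj : FStmtNSurj := tNSurj ff_ns ff_zeta ff_pull ff_orbLen ff_locN

/-- **The Hasse norm theorem** for constant field extensions. -/
theorem ff_hn : HNStmt :=
  tHN tZHerb ff_nsurj ff_locN (tClFin ff_riemann ff_span ff_fin) (tInvClass ff_h90) tPow ff_h90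
    ff_riemann

/-- **(P')**, prescribed orders modulo `ℓ` at all the bad places. -/
theorem ff_p : PStmt := tPMain ff_two tZChar ff_zeta ff_pull ff_orbLen ff_move tBadDisj ff_fin

/-- **Tsen's theorem**, in the form used. -/
theorem ff_tsen : TsenStmt := Tsen.tsen

end MP7Z
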