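import Pool.Agent.Lib.MP_7f581e_Z.FF.Spec

/-!
# Mono: monotonicity of `l(D)`
-/

set_option autoImplicit false

namespace MP7Z

theorem MonoM.step {𝕜 E : Type} [Field 𝕜] [IsAlgClosed 𝕜] [Field E] [Algebra 𝕜 E]
    [IsCurveField 𝕜 E] (D : Place 𝕜 E →₀ ℤ) (v : Place 𝕜 E) :
    ell D ≤ ell (D + Finsupp.single v 1) ∧ ell (D + Finsupp.single v 1) ≤ ell D + 1 := by
  classical
  have hv : (D + Finsupp.single v 1 : Place 𝕜 E →₀ ℤ) v = D v + 1 := by simp
  have h : ∀ w, w ≠ v → (D + Finsupp.single v 1 : Place 𝕜 E →₀ ℤ) w = D w := by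
    intro w hw
    simp [Finsupp.single_eq_of_ne hw]
  rcases step_cases hv h with h1 | ⟨g, hg, hg'⟩
  · have : ell (D + Finsupp.single v 1) = ell D := by unfold ell; rw [h1]
    omega
  · have : ell (D + Finsupp.single v 1) = ell D + 1 :=
      step_finrank hv h (finite_Lsp_aux D) hg hg'
    omega

theorem tMono : FStmtMono := by
  classical
  intro 𝕜 E _ _ _ _ _ D D' h
  obtain ⟨n, hn⟩ : ∃ n : ℕ, dg D' = dg D + n := by
    have h1 : 0 ≤ dg (D' - D) := by
      rw [dg_eq]
      refine Finset.sum_nonneg fun v _ => ?_
      have := h v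
      simp only [Finsupp.coe_sub, Pi.sub_apply]
      omega
    rw [map_sub] at h1
    obtain ⟨n, hn⟩ := Int.eq_ofNat_of_zero_le h1
    exact ⟨n, by omega⟩
  induction n generalizing D' with
  | zero =>
    have h1 : D' = D := by
      by_contra hne
      obtain ⟨v, hv⟩ : ∃ v, D' v ≠ D v := by
        by_contra hcon
        push Not at hcon
        exact hne (Finsupp.ext hcon)
      have h2 : 0 < dg (D' - D) := by
        rw [dg_eq]
        refine Finset.sum_pos' (fun v _ => ?_) ⟨v, ?_, ?_⟩
        · have := h v
          simp only [Finsupp.coe_sub, Pi.sub_apply]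
          omega
        · rw [Finsupp.mem_support_iff]
          simp only [Finsupp.coe_sub, Pi.sub_apply]
          omega
        · have := h v
          simp only [Finsupp.coe_sub, Pi.sub_apply]
          omega
      rw [map_sub] at h2
      omega
    subst h1
    constructor
    · exact le_rfl
    · omega
  | succ n ih =>
    obtain ⟨v, hv⟩ : ∃ v, D v < D' v := by
      by_contra hcon
      push Not at hcon
      have h1 : D' = D := by
        ext v
        exact le_antisymm (hcon v) (h v)
      rw [h1] at hn
      omega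
    have h1 : D ≤ D' - Finsupp.single v 1 := by
      intro w
      by_cases hw : w = v
      · subst hw
        simp only [Finsupp.coe_sub, Pi.sub_apply, Finsupp.single_eq_same]
        omega
      · have := h w
        simp only [Finsupp.coe_sub, Pi.sub_apply, Finsupp.single_eq_of_ne hw]
        omega
    have h2 : dg (D' - Finsupp.single v 1) = dg D + n := by
      rw [map_sub, dg_single, hn]
      push_cast
      ring
    obtain ⟨h3, h4⟩ := ih (D' - Finsupp.single v 1) h1 h2
    obtain ⟨h5, h6⟩ := MonoM.step (D' - Finsupp.single v 1) v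
    rw [sub_add_cancel] at h5 h6
    constructor
    · exact h3.trans h5
    · omega

end MP7Z
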