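import Pool.Agent.Lib.MP_7f581e_Z.FF.Spec

/-!
# `FStmtNSurj`
-/

namespace MP7Z

theorem tNSurj (h0 : ZStmtNS) (h1 : FStmtZeta) (h2 : FStmtPull) (h3 : FStmtOrbLen)
    (h4 : FStmtLocN) : FStmtNSurj := by
  intro 𝕜 E _ _ _ _ _ q φ hφ M hM D hD hD0
  obtain ⟨e, he, hdeg, hsurj⟩ := h2 𝕜 E q φ hφ
  obtain ⟨A, rfl⟩ := hsurj D hD
  have hZ := h1 𝕜 E q φ hφ
  have hA0 : zdeg (orbDeg φ) A = 0 := by rw [← hdeg, hD0]
  obtain ⟨A', ⟨f, hf, hf', hA'⟩, hdvd⟩ := h0 _ _ _ hZ M hM A hA0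
  have hdv : e A' = dv 𝕜 f := by
    ext v
    rw [he, hA', dv_apply]
  have hInv : Inv φ (e A - dv 𝕜 f) := by
    intro v
    rw [← hdv, Finsupp.sub_apply, Finsupp.sub_apply, he, he, he, he]
    have : orb φ (v.comap φ) = orb φ v := by
      symm
      rw [orb_eq_iff]
      exact ⟨1, by rw [zpow_one]⟩
    rw [this]
  obtain ⟨B, hB, hBsum⟩ := h4 𝕜 E q φ hφ M hM (e A - dv 𝕜 f) hInv (by
    intro v
    have h5 := hdvd (orb φ v)
    rw [(h3 𝕜 E q φ hφ v).2.2.2] at h5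
    rw [← hdv, Finsupp.sub_apply, he, he]
    exact h5)
  refine ⟨B, f, hf, hf', hB, ?_, hBsum⟩
  have h6 : dg (∑ i ∈ Finset.range M, cm (φ ^ i) B) = 0 := by
    rw [hBsum, map_sub, hD0, ← hdv, hdeg, hZ.prin A' ⟨f, hf, hf', hA'⟩, sub_zero]
  rw [map_sum] at h6
  simp only [dg_cm, Finset.sum_const, Finset.card_range, nsmul_eq_mul] at h6
  rcases mul_eq_zero.1 h6 with h7 | h7
  · exact absurd h7 (by exact_mod_cast hM.ne')
  · exact h7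

end MP7Z
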