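import Mathlib

/-!
# Package FF, abstract part: L-series of a degree theory with finiteness (no geometry)

All statements are about a type `P` of primes with degrees `deg : P → ℕ`, divisors `P →₀ ℤ`,
effective divisors `P →₀ ℕ`, and a subgroup `Prin` of principal divisors.
The statements `ZStmt...` are tasks; the proofs are in the docstrings.  A task may use all the
statements mentioned as hypotheses of its theorem.
-/

namespace MP7Z

open PowerSeries

section
variable {P : Type}

/-- The degree of a divisor. -/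
def zdeg (deg : P → ℕ) (D : P →₀ ℤ) : ℤ := D.sum fun p n => n * (deg p : ℤ)

/-- The degree of an effective divisor. -/
def edeg (deg : P → ℕ) (A : P →₀ ℕ) : ℕ := A.sum fun p n => n * deg p

/-- An effective divisor as a divisor. -/
noncomputable def toZ (A : P →₀ ℕ) : P →₀ ℤ := A.mapRange (Nat.cast : ℕ → ℤ) (by simp)

@[simp] theorem toZ_apply (A : P →₀ ℕ) (p : P) : toZ A p = (A p : ℤ) := rfl

theorem zdeg_toZ (deg : P → ℕ) (A : P →₀ ℕ) : zdeg deg (toZ A) = (edeg deg A : ℤ) := by
  rw [zdeg, toZ, Finsupp.sum_mapRange_index (by simp), edeg, Finsupp.sum, Finsupp.sum]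
  push_cast
  rfl

theorem zdeg_add (deg : P → ℕ) (D D' : P →₀ ℤ) : zdeg deg (D + D') = zdeg deg D + zdeg deg D' :=
  Finsupp.sum_add_index' (by simp) (fun p a b => by ring)

@[simp] theorem zdeg_zero (deg : P → ℕ) : zdeg deg (0 : P →₀ ℤ) = 0 := Finsupp.sum_zero_index

theorem zdeg_neg (deg : P → ℕ) (D : P →₀ ℤ) : zdeg deg (-D) = - zdeg deg D := by
  have h := zdeg_add deg D (-D)
  rw [add_neg_cancel, zdeg_zero] at h
  omega

theorem zdeg_sub (deg : P → ℕ) (D D' : P →₀ ℤ) : zdeg deg (D - D') = zdeg deg D - zdeg deg D' := by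
  rw [sub_eq_add_neg, zdeg_add, zdeg_neg, sub_eq_add_neg]

@[simp] theorem zdeg_single (deg : P → ℕ) (p : P) (n : ℤ) :
    zdeg deg (Finsupp.single p n) = n * deg p := Finsupp.sum_single_index (by simp)

end

/-- A degree theory with finiteness: finitely many primes of each degree, principal divisors of
degree zero, and, for divisors of large degree, the number of effective divisors equivalent to a
divisor is positive and depends only on its degree. -/
structure ZetaData (P : Type) (deg : P → ℕ) (Prin : AddSubgroup (P →₀ ℤ)) : Prop where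
  deg_pos : ∀ p, 0 < deg p
  fin : ∀ n, {p | deg p = n}.Finite
  inf : Infinite P
  prin : ∀ D ∈ Prin, zdeg deg D = 0
  count : ∃ (N : ℤ) (c : ℤ → ℕ), ∀ D : P →₀ ℤ, N ≤ zdeg deg D →
    0 < c (zdeg deg D) ∧ Nat.card {A : P →₀ ℕ // toZ A - D ∈ Prin} = c (zdeg deg D)

/-- The Euler product `∏_p (1 - χ p u^(deg p))⁻¹`: the coefficient of `u^n` is the sum over the
effective divisors of degree `n` of the product of the `χ p ^ (multiplicity)`. -/
noncomputable def eul {P : Type} (deg : P → ℕ) (χ : P → ℂ) : PowerSeries ℂ :=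
  PowerSeries.mk fun n => ∑ᶠ A ∈ {A : P →₀ ℕ | edeg deg A = n}, A.prod fun p k => χ p ^ k

/-- `u d/du log` of the Euler product: the coefficient of `u^m`, `m > 0`, is the sum over the primes
`p` of degree dividing `m` of `deg p * χ p ^ (m / deg p)`. -/
noncomputable def lgd {P : Type} (deg : P → ℕ) (χ : P → ℂ) : PowerSeries ℂ :=
  PowerSeries.mk fun m => if m = 0 then 0 else
    ∑ᶠ p ∈ {p : P | deg p ∣ m}, (deg p : ℂ) * χ p ^ (m / deg p)

/-- **ZEff** (30 lines).  Finitely many effective divisors of each degree.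
Proof.  An effective divisor `A` of degree `n` is supported on the finite set of primes of degree
`≤ n` (since `deg p > 0` for all `p`, `A p * deg p ≤ n`), with multiplicities `≤ n`.  So `A` is
`≤` the divisor `B` with `B p = n` on this finite set and `0` elsewhere; `Set.finite_Iic B`
(locally finite order on `P →₀ ℕ`). -/
def ZStmtEff : Prop :=
  ∀ (P : Type) (deg : P → ℕ), (∀ p, 0 < deg p) → (∀ n, {p | deg p = n}.Finite) →
    ∀ n, {A : P →₀ ℕ | edeg deg A = n}.Finite

/-- **ZRec** (150 lines), may use `ZStmtEff`.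
`u L'(u) = lgd · L(u)` for the Euler product `L = eul deg χ`, and `L(0) = 1`.
Proof.  Write `χ(A) = A.prod (χ p ^ k)`, so `χ(A + k • single p 1) = χ(A) χ(p)^k`.  The coefficient
of `u^n` of `u L'` is `n ∑_{deg A = n} χ(A) = ∑_A ∑_p A(p) deg p χ(A)`
`= ∑_A ∑_p ∑_{1 ≤ k ≤ A p} deg p χ(A)`; for given `p` and `k ≥ 1` the map `A ↦ A - k p` is a
bijection of `{A | deg A = n, A p ≥ k}` onto `{B | deg B = n - k deg p}` (empty unless
`k deg p ≤ n`), with `χ(A) = χ(p)^k χ(B)`.  With `m = k deg p` (`1 ≤ m ≤ n`, `deg p ∣ m`,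
`k = m / deg p`) the sum is `∑_{m=1}^n (∑_{deg p ∣ m} deg p χ(p)^(m / deg p)) L_{n-m}`, the
coefficient of the product.  (All sums are finite: work with the finite set of primes of degree
`≤ n` and with the finite sets of `ZStmtEff`.)  The only divisor of degree `0` is `0`, so `L(0) = 1`. -/
def ZStmtRec : Prop :=
  ∀ (P : Type) (deg : P → ℕ), (∀ p, 0 < deg p) → (∀ n, {p | deg p = n}.Finite) →
    ∀ χ : P → ℂ, constantCoeff (eul deg χ) = 1 ∧
      X * derivativeFun (eul deg χ) = lgd deg χ * eul deg χ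

/-- **ZRem** (80 lines), may use `ZStmtEff`.  Removing finitely many primes from an Euler product
which is a polynomial leaves a polynomial.
Proof.  Induction on `S`; it suffices to remove one prime `p₀`: if `χ' = χ` except `χ' p₀ = 0` then
the coefficient `L'_n = ∑_{deg A = n, A p₀ = 0} χ(A) = ∑_{deg A = n} χ(A) - ∑_{deg A = n, A p₀ ≥ 1} χ(A)
= L_n - χ(p₀) L_{n - deg p₀}` (for `n ≥ deg p₀`), by the bijection `A ↦ A - p₀`. -/
def ZStmtRem : Prop :=
  ∀ (P : Type) (deg : P → ℕ), (∀ p, 0 < deg p) → (∀ n, {p | deg p = n}.Finite) →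
    ∀ (χ : P → ℂ) (S : Finset P) (χ' : P → ℂ), (∀ p ∈ S, χ' p = 0) → (∀ p, p ∉ S → χ' p = χ p) →
    (∃ N, ∀ n ≥ N, coeff n (eul deg χ) = 0) → ∃ N, ∀ n ≥ N, coeff n (eul deg χ') = 0

/-- **ZPos** (60 lines).  A power series `F` with `F(0) = 1`, `u F' = C F`, where `C` has real
nonnegative coefficients, one of them (of positive degree) nonzero, is not a polynomial.
Proof.  The coefficients of `F` satisfy `n F_n = ∑_{m=0}^{n} C_m F_{n-m}`; `C_0 = 0` (compare
constant coefficients: `0 = C_0`).  By strong induction all `F_n` are real and nonnegative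
(`F_0 = 1`).  If `C_m > 0`, `m > 0`, then `(n + m) F_{n+m} ≥ C_m F_n`, so `F_n > 0` implies
`F_{n+m} > 0`, hence `F_{k m} > 0` for all `k`. -/
def ZStmtPos : Prop :=
  ∀ (F C : PowerSeries ℂ), constantCoeff F = 1 → X * derivativeFun F = C * F →
    (∀ m, ∃ r : ℝ, 0 ≤ r ∧ coeff m C = (r : ℂ)) → (∃ m > 0, coeff m C ≠ 0) →
    ¬ ∃ N, ∀ n ≥ N, coeff n F = 0

/-- **ZVan** (120 lines), may use `ZStmtEff`.  The L-series of a character nontrivial on divisors of
degree zero is a polynomial.
Proof.  Here `χ : (P →₀ ℤ) →+ ZMod M` kills `Prin`, `ζ` is a primitive `M`-th root of unity and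
`χ₁ p = ζ ^ (χ (single p 1)).val`.  For an effective divisor `A`, `∏ χ₁ p ^ A p = ζ ^ (χ (toZ A)).val
=: ψ(toZ A)`, where `ψ D = ζ ^ (χ D).val` is multiplicative and invariant under `Prin`.
Let `N, c` be as in `count`, `n ≥ N` (as integers), and let `D₀` be a divisor of degree `0` with
`χ D₀ ≠ 0`; so `ψ D₀ ≠ 1`.  The set `𝓔_n` of effective divisors of degree `n` is finite.  Each class
`D + Prin` with `zdeg D = n` contains exactly `c n` effective divisors (for any effective `A'`,
`{A | toZ A - toZ A' ∈ Prin}` has `c n > 0` elements).  Hence `∑_{A ∈ 𝓔_n} ψ(A) = c(n) · ∑_{K} ψ(K)`,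
`K` running over the finite set of the classes of degree `n` (elements of the quotient group
`(P →₀ ℤ) ⧸ Prin`, on which degree and `ψ` are defined).  Translation by `D₀` permutes this set, so
the sum is multiplied by `ψ(D₀) ≠ 1` when ... and is not changed: it is `0`.
(Alternative without quotients: count the pairs `(A, A')` in `𝓔_n × 𝓔_n` with
`toZ A - toZ A' - D₀ ∈ Prin`: for each `A` there are `c n` such `A'` and for each `A'` there are
`c n` such `A`, and `ψ A = ψ A' ψ D₀` for such pairs; so `c n ∑_A ψ A = ψ(D₀) c n ∑_{A'} ψ A'`.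
This is short: `∑_{pairs} ψ A = c n ∑_A ψ A` and `∑_{pairs} ψ(A') ψ(D₀) = ψ(D₀) c n ∑_{A'} ψ A'`,
recommended.) -/
def ZStmtVan : Prop :=
  ∀ (P : Type) (deg : P → ℕ) (Prin : AddSubgroup (P →₀ ℤ)), ZetaData P deg Prin →
    ∀ (M : ℕ), 0 < M → ∀ ζ : ℂ, IsPrimitiveRoot ζ M → ∀ χ : (P →₀ ℤ) →+ ZMod M,
    (∀ D ∈ Prin, χ D = 0) → (∃ D, zdeg deg D = 0 ∧ χ D ≠ 0) →
    ∃ N, ∀ n ≥ N, coeff n (eul deg fun p => ζ ^ (χ (Finsupp.single p 1)).val) = 0

/-- **ZGen** (120 lines), may use `ZStmtEff, ZStmtRec, ZStmtRem, ZStmtPos, ZStmtVan`.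
There is no nonempty finite family of characters `χ_i` (with values in `ZMod M`, killing `Prin`),
each nontrivial on divisors of degree `0`, such that, for all primes `p` outside a finite set and
all `k ≥ 1`, the sum of the `ζ^(k χ_i p)` is a nonnegative real number.
Proof.  Let `χ_i' p = ζ^(χ_i p)` for `p ∉ S` and `0` for `p ∈ S`, `F = ∏_i eul deg χ_i'`.  Each factor
is a polynomial by `ZStmtVan` and `ZStmtRem`, so `F` is a polynomial (coefficients vanish from some
point on).  `u F' = C F` with `C = ∑_i lgd deg χ_i'` (product rule for `derivativeFun`, by induction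
on the family) and `F(0) = 1`.  The coefficient of `u^m` in `C`, `m > 0`, is
`∑_{p ∉ S, deg p ∣ m} deg p · ∑_i ζ^(χ_i(p) (m / deg p))`, real and nonnegative (for `p ∈ S` the
terms vanish, as `m / deg p ≥ 1`).  As `P` is infinite there is `p ∉ S`; for `m = M deg p` the
contribution of `p` is `deg p · card I > 0`.  This contradicts `ZStmtPos`. -/
def ZStmtGen : Prop :=
  ∀ (P : Type) (deg : P → ℕ) (Prin : AddSubgroup (P →₀ ℤ)), ZetaData P deg Prin →
    ∀ (M : ℕ), 0 < M → ∀ ζ : ℂ, IsPrimitiveRoot ζ M →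
    ∀ (I : Type) [Fintype I] [Nonempty I] (χ : I → (P →₀ ℤ) →+ ZMod M),
    (∀ i, ∀ D ∈ Prin, χ i D = 0) → (∀ i, ∃ D, zdeg deg D = 0 ∧ χ i D ≠ 0) →
    ∀ S : Finset P,
    (∀ p, p ∉ S → ∀ k, 0 < k → ∃ r : ℝ, 0 ≤ r ∧
      ∑ i, (ζ ^ (χ i (Finsupp.single p 1)).val) ^ k = (r : ℂ)) → False

/-- **ZChar** (60 lines).  An element outside a subgroup `H` of an abelian group `G`, where `H`
contains all the multiples `M • g`, is detected by a homomorphism to `ZMod M` killing `H`.
Proof.  `CharacterModule.exists_character_apply_ne_zero_of_ne_zero` for `G ⧸ H` gives a homomorphism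
to `AddCircle (1 : ℚ)` nonzero at the class of `a`; its values are killed by `M`, so lie in the
subgroup of elements killed by `M`, which is isomorphic to `ZMod M` (it is cyclic of order `M`:
generated by the class of `1 / M`).  Or directly: `G ⧸ H` is a module over `ZMod M`, which is an
injective module over itself. -/
def ZStmtChar : Prop :=
  ∀ (G : Type) [AddCommGroup G] (H : AddSubgroup G) (M : ℕ), 0 < M → (∀ g : G, M • g ∈ H) →
    ∀ a : G, a ∉ H → ∃ χ : G →+ ZMod M, (∀ h ∈ H, χ h = 0) ∧ χ a ≠ 0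

/-- **ZNS** (120 lines), may use `ZStmtGen, ZStmtChar`.  (Surjectivity of the norm on classes of
degree zero for the constant extension of degree `M`.)  Every divisor of degree `0` is the sum of a
principal divisor and of a divisor whose multiplicity at `p`, multiplied by `deg p`, is divisible by
`M`, for all `p`.
Proof.  Let `H` be the subgroup of all sums `D' + D''`, `D' ∈ Prin`, `M ∣ deg p * D'' p` for all `p`.
It contains all `M • D`.  If `D ∉ H`, `zdeg D = 0`, let `χ` be as in `ZStmtChar`: `χ` kills `H`, so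
it kills `Prin`, and `(M / gcd(M, deg p)) χ(p) = 0` for all `p` (the divisor
`(M / gcd(M, deg p)) • p` is in `H`), and `χ D ≠ 0`.  Take `I = Fin M`, `χ_j = χ + j • (degree)`, where
degree is the homomorphism `D ↦ (zdeg D : ZMod M)` (it kills `Prin`), `S = ∅`.  Each `χ_j` is nonzero
at `D`, of degree `0`.  For a prime `p` of degree `d` and `k ≥ 1`:
`∑_j (ζ^(χ(p) + j d))^k = ζ^(k χ(p)) ∑_{j<M} (ζ^(k d))^j`, which is `0` if `M ∤ k d`, and if
`M ∣ k d` then `M / gcd(M, d) ∣ k`, so `k χ(p) = 0` in `ZMod M` and the sum is `M`.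
So `ZStmtGen` gives a contradiction (`ζ = exp(2 π i / M)`, `Complex.isPrimitiveRoot_exp`). -/
def ZStmtNS : Prop :=
  ∀ (P : Type) (deg : P → ℕ) (Prin : AddSubgroup (P →₀ ℤ)), ZetaData P deg Prin →
    ∀ (M : ℕ), 0 < M → ∀ D : P →₀ ℤ, zdeg deg D = 0 →
    ∃ D' ∈ Prin, ∀ p, (M : ℤ) ∣ (deg p : ℤ) * (D - D') p

/-- **ZTwo** (120 lines), may use `ZStmtGen`.  Let `χ, χ'` be two characters of prime order `ℓ` of the
class group such that for all primes `p` outside a finite set `χ(p) = 0` or `χ'(p) = 0`.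
Then one of them is trivial on divisors of degree zero.
Proof.  If not, apply `ZStmtGen` (`M = ℓ`) to the family `i χ, i χ'` (`i = 1, ..., ℓ - 1`; index type
`Bool × Fin (ℓ - 1)` or `Bool × (ZMod ℓ)ˣ`), each nontrivial on divisors of degree `0` (`i` is prime
to `ℓ`).  For `p ∉ S`, say `χ'(p) = 0`: the sum is `(ℓ - 1) + ∑_{i=1}^{ℓ-1} ζ^(i k χ(p))`, where the
last sum is `ℓ - 1` if `k χ(p) = 0` and `-1` otherwise; the total is `2(ℓ-1)` or `ℓ - 2`, in both
cases `≥ 0`. -/
def ZStmtTwo : Prop :=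
  ∀ (P : Type) (deg : P → ℕ) (Prin : AddSubgroup (P →₀ ℤ)), ZetaData P deg Prin →
    ∀ (ℓ : ℕ), ℓ.Prime → ∀ χ χ' : (P →₀ ℤ) →+ ZMod ℓ,
    (∀ D ∈ Prin, χ D = 0) → (∀ D ∈ Prin, χ' D = 0) →
    ∀ S : Finset P, (∀ p, p ∉ S → χ (Finsupp.single p 1) = 0 ∨ χ' (Finsupp.single p 1) = 0) →
    (∀ D, zdeg deg D = 0 → χ D = 0) ∨ (∀ D, zdeg deg D = 0 → χ' D = 0)

/-- **ZHerb** (60 lines).  The Herbrand quotient of a finite module is one (in the form used).
Proof.  `card (im (a - 1)) = card G / card (ker (a - 1))`, `card (ker N) = card G / card (im N)`.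
`im N ≤ ker (a - 1)` since `a^M = 1`, and `ker (a - 1) ≤ im N` by hypothesis, so
`card (ker N) = card (im (a - 1))`, and `im (a - 1) ≤ ker N` since `a^M = 1`: equality. -/
def ZStmtHerb : Prop :=
  ∀ (G : Type) [AddCommGroup G] [Finite G] (a : G →+ G) (M : ℕ), (∀ g, a^[M] g = g) →
    (∀ g, a g = g → ∃ h, ∑ i ∈ Finset.range M, a^[i] h = g) →
    ∀ g, ∑ i ∈ Finset.range M, a^[i] g = 0 → ∃ h, a h - h = g

end MP7Z
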