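import Pool.Agent.Lib.MP_7f581e_Z.InterfaceFF
import Pool.Agent.Lib.MP_7f581e_Z.FF.Defs
import Pool.Agent.Lib.MP_7f581e_Z.FF.Zeta

/-!
# Package FF: statements (tasks) and their proofs

`𝕜` algebraically closed, `E` function field of a curve over `𝕜`.  Divisors are
`Place 𝕜 E →₀ ℤ`, `dg D` the degree, `ell D = dim L(D)`, `dv 𝕜 f` the divisor of `f`
(`FF/Defs.lean`; `FF/Base.lean` has `step_sup`, `step_finrank`, `Lsp_mono`, `finrank_Lsp_zero`,
`finite_Lsp_aux` (all `L(D)` finite dimensional); `Crv/*` has `exists_const` (residues),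
`finite_ord_ne`, `sum_zeros`, `exists_const_of_nonneg`, `places_approx`, `strong_approx`,
`exists_places_over`).
Each `FStmt...` is one task; a task may use the statements named in its docstring as hypotheses.
Part R: Riemann's theorem.  Part F: Frobenius structures.  Part H: (HN) and (P').
-/

namespace MP7Z

open scoped IntermediateField

/-! ## Definitions -/

section

variable {𝕜 E : Type} [Field 𝕜] [IsAlgClosed 𝕜] [Field E] [Algebra 𝕜 E]

variable (𝕜) in
/-- The divisor of poles. -/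
noncomputable def pol [IsCurveField 𝕜 E] (f : E) : Place 𝕜 E →₀ ℤ :=
  (dv 𝕜 f).mapRange (fun n => max (-n) 0) (by simp)

@[simp] theorem pol_apply [IsCurveField 𝕜 E] (f : E) (v : Place 𝕜 E) :
    pol 𝕜 f v = max (-v.pord f) 0 := rfl

variable (𝕜 E) in
/-- There is a separating transcendental element. -/
def Sep : Prop := ∃ x : E, Transcendental 𝕜 x ∧ Algebra.IsSeparable 𝕜⟮x⟯ E

/-- The group of `φ`-invariant divisors of degree zero. -/
def Inv0 (𝕜 : Type) {E : Type} [Field 𝕜] [IsAlgClosed 𝕜] [Field E] [Algebra 𝕜 E]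
    (φ : E ≃+* E) : AddSubgroup (Place 𝕜 E →₀ ℤ) where
  carrier := {D | cm φ D = D ∧ dg D = 0}
  zero_mem' := ⟨map_zero _, map_zero _⟩
  add_mem' := by
    rintro A B ⟨hA, hA'⟩ ⟨hB, hB'⟩
    exact ⟨by rw [map_add, hA, hB], by rw [map_add, hA', hB', add_zero]⟩
  neg_mem' := by
    rintro A ⟨hA, hA'⟩
    exact ⟨by rw [map_neg, hA], by rw [map_neg, hA', neg_zero]⟩

/-- The group of divisors of functions fixed by `φ`. -/
def Prn (𝕜 : Type) {E : Type} [Field 𝕜] [IsAlgClosed 𝕜] [Field E] [Algebra 𝕜 E]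
    [IsCurveField 𝕜 E] (φ : E ≃+* E) : AddSubgroup (Place 𝕜 E →₀ ℤ) where
  carrier := {D | ∃ f : E, f ≠ 0 ∧ φ f = f ∧ D = dv 𝕜 f}
  zero_mem' := ⟨1, one_ne_zero, map_one φ, dv_one.symm⟩
  add_mem' := by
    rintro A B ⟨f, hf, hf', rfl⟩ ⟨g, hg, hg', rfl⟩
    exact ⟨f * g, mul_ne_zero hf hg, by rw [map_mul, hf', hg'], (dv_mul hf hg).symm⟩
  neg_mem' := by
    rintro A ⟨f, hf, hf', rfl⟩
    exact ⟨f⁻¹, inv_ne_zero hf, by rw [map_inv₀, hf'], (dv_inv hf).symm⟩

/-- The group of classes of degree zero of the fixed field of `φ`. -/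
abbrev Cl0 (𝕜 : Type) {E : Type} [Field 𝕜] [IsAlgClosed 𝕜] [Field E] [Algebra 𝕜 E]
    [IsCurveField 𝕜 E] (φ : E ≃+* E) : Type :=
  Inv0 𝕜 φ ⧸ (Prn 𝕜 φ).addSubgroupOf (Inv0 𝕜 φ)

end

/-! ## Part R: Riemann's theorem -/

/-- **RMono** (60 lines).  For `D ≤ D'`: `l(D) ≤ l(D') ≤ l(D) + deg D' - deg D`.
Proof.  Induction on `deg (D' - D)`, or on the multiset: it suffices to treat
`D' = D + single v 1`: `step_cases`: either `Lsp D' = Lsp D`, or `step_finrank` (with
`finite_Lsp_aux`) gives `ell D' = ell D + 1`. -/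
def FStmtMono : Prop :=
  ∀ (𝕜 E : Type) [Field 𝕜] [IsAlgClosed 𝕜] [Field E] [Algebra 𝕜 E] [IsCurveField 𝕜 E]
    (D D' : Place 𝕜 E →₀ ℤ), D ≤ D' → ell D ≤ ell D' ∧ (ell D' : ℤ) ≤ ell D + dg D' - dg D

/-- **RShift** (40 lines).  `l(D + div f) = l(D)`.
Proof.  `h ↦ h * f` is a linear isomorphism from `L(D + div f)` onto `L(D)`
(`v(h) ≥ -D v - v(f)` iff `v(h f) ≥ -D v`; compare `finrank_Lsp_mul` in
`MP_966ccb_ag/Curve/RR.lean`). -/
def FStmtShift : Prop :=
  ∀ (𝕜 E : Type) [Field 𝕜] [IsAlgClosed 𝕜] [Field E] [Algebra 𝕜 E] [IsCurveField 𝕜 E]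
    (D : Place 𝕜 E →₀ ℤ) (f : E), f ≠ 0 → ell (D + dv 𝕜 f) = ell D

/-- **RClear** (60 lines).  Every function becomes regular outside the poles of `x` when multiplied by
a nonzero polynomial in `x`.
Proof.  `z ≠ 0` wlog.  Let `S` be the finite set of poles of `z` that are not poles of `x`.  For
`v ∈ S` let `a_v` be the residue of `x` (`exists_const`), so `v(x - a_v) ≥ 1`, and
`k_v = -v(z) ≥ 0`.  Take `d = ∏_{v ∈ S} (X - a_v)^{k_v}`; `aeval x d ≠ 0` as `x` is transcendental.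
At a place `w` which is not a pole of `x`, `w(aeval x d) ≥ 0`, and `≥ k_w` if `w ∈ S`. -/
def FStmtClear : Prop :=
  ∀ (𝕜 E : Type) [Field 𝕜] [IsAlgClosed 𝕜] [Field E] [Algebra 𝕜 E] [IsCurveField 𝕜 E]
    (x : E), Transcendental 𝕜 x → ∀ z : E, ∃ d : Polynomial 𝕜, d ≠ 0 ∧
      ∀ v : Place 𝕜 E, v.pord (z * Polynomial.aeval x d) < 0 → v.pord x < 0

/-- **RGrow** (120 lines), may use `FStmtClear`.  With `n = [E : 𝕜(x)]` and `B` the divisor of poles of
`x`: there is `c` with `l((m + c) B) ≥ n (m + 1)` for all `m ≥ 0`.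
Proof.  Take a basis of `E` over `𝕜(x)` (`finite_adjoin`) and multiply its elements by the polynomials
of `FStmtClear`: a basis `ω_1, ..., ω_n` whose elements have poles only at poles of `x`.  As the
poles of `ω_j` are finitely many and `B v ≥ 1` at the poles of `x`, there is `c` with all `ω_j` in
`L(c B)`.  The `n (m + 1)` elements `x^i ω_j`, `i ≤ m`, are in `L((m + c) B)` and are linearly
independent over `𝕜` (`x` is transcendental, the `ω_j` are independent over `𝕜(x)`). -/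
def FStmtGrow : Prop :=
  ∀ (𝕜 E : Type) [Field 𝕜] [IsAlgClosed 𝕜] [Field E] [Algebra 𝕜 E] [IsCurveField 𝕜 E]
    (x : E), Transcendental 𝕜 x → ∃ c : ℕ, ∀ m : ℕ,
      Module.finrank 𝕜⟮x⟯ E * (m + 1) ≤ ell ((m + c) • pol 𝕜 x)

/-- **RPol** (80 lines).  The degree of the divisor of poles of `x` is `[E : 𝕜(x)]`, and `div (x - c)` has
degree zero.
Proof.  `sum_zeros` for `x⁻¹` (`𝕜(x⁻¹) = 𝕜(x)`, transport separability and degree along the equality
of intermediate fields; `0 < v(x⁻¹)` iff `v(x) < 0`) and for `x - c` (`adjoin_sub_const`); the poles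
of `x - c` are those of `x` with the same order; `deg div (x - c)` = zeros minus poles. -/
def FStmtPol : Prop :=
  ∀ (𝕜 E : Type) [Field 𝕜] [IsAlgClosed 𝕜] [Field E] [Algebra 𝕜 E] [IsCurveField 𝕜 E]
    (x : E), Transcendental 𝕜 x → Algebra.IsSeparable 𝕜⟮x⟯ E →
      dg (pol 𝕜 x) = (Module.finrank 𝕜⟮x⟯ E : ℤ) ∧
      ∀ c : 𝕜, dg (dv 𝕜 (x - algebraMap 𝕜 E c)) = 0

/-- **RIneq** (120 lines), may use `FStmtMono, FStmtShift, FStmtGrow, FStmtPol`.  Riemann's inequality.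
Proof.  Put `r(D) = deg D - l(D)`, nondecreasing by `FStmtMono`, `r(D + div f) = r(D)` if
`deg div f = 0` (`FStmtShift`).  With `B` the pole divisor of the separating `x`:
`r((m + c) B) ≤ n (m + c) - n (m + 1) = n (c - 1)` for all `m ≥ 0` (`deg B = n`).  Let `D` be any
divisor.  For each `v` in the support of `D` with `D v > 0` which is not a pole of `x` let `a_v` be the
residue of `x` and `f = ∏ (x - a_v)^(D v)`; `deg div f = 0`, `div f ≥ D` at all places that are not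
poles of `x`; so for `m` large `D ≤ div f + (m + c) B` (finitely many poles of `x`, where
`B ≥ 1`), and `r(D) ≤ r(div f + (m + c) B) = r((m + c) B) ≤ n (c - 1)`.  So `g = n (c - 1) + 1`
works (an integer; here no sign condition). -/
def FStmtIneq : Prop :=
  ∀ (𝕜 E : Type) [Field 𝕜] [IsAlgClosed 𝕜] [Field E] [Algebra 𝕜 E] [IsCurveField 𝕜 E],
    Sep 𝕜 E → ∃ g : ℤ, ∀ D : Place 𝕜 E →₀ ℤ, dg D + 1 - g ≤ ell D

/-- **RProd** (30 lines), may use `FStmtIneq, FStmtShift`.  The divisor of a function has degree zero.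
Proof.  Let `δ = deg div f`.  `l(m div f) = l(0) = 1` for all integers `m` (apply `FStmtShift` to
`f^m` and, for negative `m`, to `f^(-m)`; `finrank_Lsp_zero`), and `1 ≥ m δ + 1 - g` for all `m`, so
`δ = 0`. -/
def FStmtProd : Prop :=
  ∀ (𝕜 E : Type) [Field 𝕜] [IsAlgClosed 𝕜] [Field E] [Algebra 𝕜 E] [IsCurveField 𝕜 E],
    Sep 𝕜 E → ∀ f : E, f ≠ 0 → dg (dv 𝕜 f) = 0

/-- **RMain** (100 lines), may use `FStmtMono, FStmtShift, FStmtIneq, FStmtProd`: Riemann's theorem
`RiemannStmt` of the interface.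
Proof.  Finiteness is `finite_Lsp_aux`; the second part is `FStmtProd` (a finitely supported `D` with
`D v = v.pord f` is `dv 𝕜 f`).  Third part: the set of the integers `deg D + 1 - l(D)` is bounded
above by `FStmtIneq` and contains `0` (`D = 0`); let `g ≥ 0` be its maximum, attained at `D₀`.  Let
`N = deg D₀ + g`.  If `deg D ≥ N` then `l(D - D₀) ≥ deg D - deg D₀ + 1 - g ≥ 1`, so there is
`0 ≠ f ∈ L(D - D₀)`, `div f + D - D₀ ≥ 0`, and by `FStmtMono, FStmtShift, FStmtProd`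
`deg D + 1 - l(D) ≥ deg D' + 1 - l(D') = g` with `D' = D₀ - div f ≤ D`.  So it is `g`. -/
def FStmtRMain : Prop := RiemannStmt

/-! ## Part F: Frobenius structures -/

/-- **FixCard** (50 lines).  `x ^ q = x` has `q` solutions.
Proof.  `X^q - X` has derivative `-1` (`(q : 𝕜) = 0`), so it is separable and has `q = natDegree`
distinct roots in the algebraically closed field `𝕜` (`Polynomial.card_rootSet_eq_natDegree`,
`IsAlgClosed.splits`; compare `FiniteField.X_pow_card_sub_X_...`). -/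
def FStmtFixCard : Prop :=
  ∀ (𝕜 : Type) [Field 𝕜] [IsAlgClosed 𝕜] (q : ℕ), 1 < q → (q : 𝕜) = 0 →
    Nat.card {c : 𝕜 // c ^ q = c} = q

/-- **Span** (120 lines).  A finite dimensional `φ`-stable `𝕜`-subspace is spanned by vectors fixed by
`φ`.
Proof.  Let `w ∈ W`, `w` fixed by `φ^n`, `n > 0`.  Let `F` be the set of the `c ∈ 𝕜` with
`c^(q^n) = c`; for `c ∈ F`, `t_c = ∑_{i<n} φ^i(c w) = ∑_{i<n} c^(q^i) φ^i(w)` is in `W` and fixed by
`φ`.  It suffices that `w` is in the `𝕜`-span of the `t_c`.  The `n` maps `c ↦ c^(q^i)`, `i < n`,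
from `Fˣ` to `𝕜` are distinct characters of the monoid `F` (if `c^(q^i) = c^(q^j)` for all
`c ∈ F` with `0 ≤ i < j < n` then all the `q^n` elements of `F` (`FStmtFixCard` for `q^n`) are roots
of the nonzero polynomial `X^(q^j) - X^(q^i)` of degree `q^j < q^n`), so by Dedekind's theorem
(`linearIndependent_monoidHom`) the vectors `(c^(q^i))_{i<n} ∈ 𝕜^n`, `c ∈ F`, span `𝕜^n` (otherwise
a nonzero linear form `∑ a_i x_i` kills them all), so some linear combination
`∑ b_c (c^(q^i))_i` is the first basis vector, and `∑ b_c t_c = w`. -/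
def FStmtSpan : Prop :=
  ∀ (𝕜 E : Type) [Field 𝕜] [IsAlgClosed 𝕜] [Field E] [Algebra 𝕜 E] (q : ℕ) (φ : E ≃+* E),
    IsFrob 𝕜 q φ → ∀ W : Submodule 𝕜 E, (∀ w ∈ W, φ w ∈ W) →
      W ≤ Submodule.span 𝕜 {w | w ∈ W ∧ φ w = w}

/-- **Card** (80 lines), may use `FStmtSpan, FStmtFixCard`.  The number of fixed vectors in a finite
dimensional `φ`-stable subspace is `q ^ dim`.
Proof.  `W` is spanned by fixed vectors, so it has a basis `b_1, ..., b_n` of fixed vectors
(`exists_linearIndependent`, `Module.Basis` from a spanning set).  `φ(∑ c_i b_i) = ∑ c_i^q b_i`, so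
`∑ c_i b_i` is fixed iff `c_i^q = c_i` for all `i`: the fixed vectors are in bijection with
`Fin n → {c // c ^ q = c}`. -/
def FStmtCard : Prop :=
  ∀ (𝕜 E : Type) [Field 𝕜] [IsAlgClosed 𝕜] [Field E] [Algebra 𝕜 E] (q : ℕ) (φ : E ≃+* E),
    IsFrob 𝕜 q φ → ∀ W : Submodule 𝕜 E, Module.Finite 𝕜 W → (∀ w ∈ W, φ w ∈ W) →
      Nat.card {w : E // w ∈ W ∧ φ w = w} = q ^ Module.finrank 𝕜 W

/-- **Const** (30 lines).  If `φ f` and `f` have the same divisor then a constant multiple of `f` is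
fixed by `φ`.
Proof.  `φ f / f` has no zeros and no poles, so it is a constant `a ≠ 0`
(`exists_const_of_dv_eq_zero`).  Choose `c` with `c^(q-1) = a⁻¹` (`q ≥ 2`).  Then
`φ(c f) = c^q a f = c f`. -/
def FStmtConst : Prop :=
  ∀ (𝕜 E : Type) [Field 𝕜] [IsAlgClosed 𝕜] [Field E] [Algebra 𝕜 E] [IsCurveField 𝕜 E]
    (q : ℕ) (φ : E ≃+* E), IsFrob 𝕜 q φ → ∀ f : E, f ≠ 0 →
    (∀ v : Place 𝕜 E, v.pord (φ f) = v.pord f) →
    ∃ c : 𝕜, c ≠ 0 ∧ φ (algebraMap 𝕜 E c * f) = algebraMap 𝕜 E c * f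

/-- **Pow** (30 lines).  `φ^M` is a Frobenius for `q^M`.
Proof.  Clear: `(φ^M)(c) = c^(q^M)` by induction; the same separating `x`; if `φ^n f = f` then
`(φ^M)^n f = f`. -/
def FStmtPow : Prop :=
  ∀ (𝕜 E : Type) [Field 𝕜] [IsAlgClosed 𝕜] [Field E] [Algebra 𝕜 E]
    (q : ℕ) (φ : E ≃+* E), IsFrob 𝕜 q φ → ∀ M : ℕ, 0 < M → IsFrob 𝕜 (q ^ M) (φ ^ M)

/-- **Fin** (120 lines), may use `FStmtFixCard, FStmtPow`.  Finitely many places are fixed by `φ^n`,
every place is fixed by some `φ^n`, and there are infinitely many places.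
Proof.  Let `x` be the separating element fixed by `φ`.  If `0 ≤ v(x)` let `a` be its residue:
`v(x - a) > 0` (`exists_const`).  If `v.comap (φ^n) = v` then `v(φ^n (x - a)) = v(x - a^(q^n)) > 0`,
so `v(a - a^(q^n)) > 0`, `a = a^(q^n)`: finitely many `a` (roots of `X^(q^n) - X`), and for each `a`
finitely many `v` (`finite_ord_ne` for `x - a`), and finitely many poles of `x`.
For the second claim: `a` is fixed by some `c ↦ c^(q^n)` (`IsFrob.fin` for the constant
`algebraMap a`, and `frob`).  Then `w ↦ w.comap (φ^n)` maps the finite set of the zeros of `x - a`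
(resp. of the poles of `x`) injectively to itself, so `v` is periodic.
Infinitely many places: `exists_ord_pos` gives a zero of `x - a` for every `a`, distinct for
distinct `a`; `𝕜` is infinite. -/
def FStmtFin : Prop :=
  ∀ (𝕜 E : Type) [Field 𝕜] [IsAlgClosed 𝕜] [Field E] [Algebra 𝕜 E] [IsCurveField 𝕜 E]
    (q : ℕ) (φ : E ≃+* E), IsFrob 𝕜 q φ →
    (∀ n : ℕ, 0 < n → {v : Place 𝕜 E | v.comap (φ ^ n) = v}.Finite) ∧
    (∀ v : Place 𝕜 E, ∃ n : ℕ, 0 < n ∧ v.comap (φ ^ n) = v) ∧ Infinite (Place 𝕜 E)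

/-- **OrbLen** (60 lines), may use `FStmtFin`.  `orbLen` (the minimal period) is the number of places
in the orbit; it is positive; `v.comap (φ^n) = v` iff `orbLen φ v ∣ n`; orbits are finite.
Proof.  `Function.minimalPeriod` facts; `(fun w => w.comap φ)^[n] v = v.comap (φ ^ n)` by induction
(`Place.comap_mul`); the orbit is `{v.comap (φ^i) | i < orbLen φ v}` without repetition. -/
def FStmtOrbLen : Prop :=
  ∀ (𝕜 E : Type) [Field 𝕜] [IsAlgClosed 𝕜] [Field E] [Algebra 𝕜 E] [IsCurveField 𝕜 E]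
    (q : ℕ) (φ : E ≃+* E), IsFrob 𝕜 q φ → ∀ v : Place 𝕜 E,
    0 < orbLen φ v ∧ (∀ n : ℕ, v.comap (φ ^ n) = v ↔ orbLen φ v ∣ n) ∧
    {w : Place 𝕜 E | orb φ w = orb φ v}.Finite ∧ orbDeg φ (orb φ v) = orbLen φ v

/-- **Pull** (100 lines), may use `FStmtOrbLen`.  Invariant divisors are the divisors on orbits.
Proof.  `e A v = A (orb φ v)`, of finite support since orbits are finite; the degree is the sum over
the orbits of `A p` times the number of its places.  An invariant `D` is constant on orbits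
(`D (v.comap (φ^n)) = D v` for all integers `n`), so it is `e A` with `A` defined by
`Quotient.lift`, of finite support (image of the support of `D`). -/
def FStmtPull : Prop :=
  ∀ (𝕜 E : Type) [Field 𝕜] [IsAlgClosed 𝕜] [Field E] [Algebra 𝕜 E] [IsCurveField 𝕜 E]
    (q : ℕ) (φ : E ≃+* E), IsFrob 𝕜 q φ →
    ∃ e : (Orb 𝕜 φ →₀ ℤ) →+ (Place 𝕜 E →₀ ℤ), (∀ A v, e A v = A (orb φ v)) ∧
      (∀ A, dg (e A) = zdeg (orbDeg φ) A) ∧ (∀ D, Inv φ D → ∃ A, e A = D)

/-- **Zeta** (200 lines), may use `RiemannStmt, FStmtCard, FStmtFixCard, FStmtConst, FStmtFin,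
FStmtOrbLen, FStmtPull`.  The orbits of places form a degree theory with finiteness.
Proof.  `deg_pos`: orbit lengths are positive.  `fin`: an orbit with `n` elements consists of places
fixed by `φ^n`.  `inf`: infinitely many places in finite orbits.  `prin`: `RiemannStmt` (second part)
and `Pull`.  `count`: let `g, N₀` be as in `RiemannStmt`, `N = max N₀ (g + 1)`, `D' = e D` for a
divisor `D` on orbits with `n = zdeg D ≥ N`.  `L(D')` is `φ`-stable (`v(φ f) = (v.comap φ)(f)`) of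
dimension `n + 1 - g`, so it has `q^(n+1-g)` fixed elements (`FStmtCard`), one of them `0`.  To a
nonzero fixed `f ∈ L(D')` belongs the effective invariant divisor `D' + div f`, and every effective
`A` with `toZ A - D ∈ PrinOrb` is of this form; `f` and `f'` give the same divisor iff `f'/f` is a
constant fixed by `φ`, i.e. one of the `q - 1` nonzero solutions of `c^q = c`.  So the number of the
`A` is `(q^(n+1-g) - 1)/(q - 1) =: c(n)`: formally, (number of `A`) `* (q - 1) = q^(n+1-g) - 1`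
(fibres of a map), positive as `n + 1 - g ≥ 1`. -/
def FStmtZeta : Prop :=
  ∀ (𝕜 E : Type) [Field 𝕜] [IsAlgClosed 𝕜] [Field E] [Algebra 𝕜 E] [IsCurveField 𝕜 E]
    (q : ℕ) (φ : E ≃+* E), IsFrob 𝕜 q φ → ZetaData (Orb 𝕜 φ) (orbDeg φ) (PrinOrb 𝕜 φ)

/-- **Move** (120 lines), may use `RiemannStmt, FStmtSpan, FStmtFin`.  Functions fixed by `φ` with
prescribed orders on a finite `φ`-stable set of places.
Proof.  `T` finite, `φ`-stable.  It suffices, for every `v ∈ T`, to find a fixed `f_O` (depending only on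
the orbit `O ⊆ T` of `v`) with order exactly `D w` at the `w ∈ O` and order `≥ D w + 1` at the
`w ∈ T ∖ O`; then `f = ∑_O f_O`.  Choose a place outside `T`, its (finite) `φ`-orbit `O'` is disjoint
from `T`.  For large `m` let `A` be the divisor with `A w = -D w` on `O`, `-D w - 1` on `T ∖ O`, `m` on
`O'`, `0` elsewhere, `A' = A - (sum of the w in O)`.  Both are `φ`-invariant; for `m` large Riemann's
theorem gives `l(A) = l(A') + card O > l(A')`, so `L(A') ≠ L(A)`; `L(A)` is spanned by its fixed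
vectors (`FStmtSpan`), so there is a fixed `f_O ∈ L(A) ∖ L(A')`: at some `w ∈ O` its order is
exactly `D w`, hence, `f_O` and `D` being invariant, at all `w ∈ O`. -/
def FStmtMove : Prop :=
  ∀ (𝕜 E : Type) [Field 𝕜] [IsAlgClosed 𝕜] [Field E] [Algebra 𝕜 E] [IsCurveField 𝕜 E]
    (q : ℕ) (φ : E ≃+* E), IsFrob 𝕜 q φ → ∀ T : Set (Place 𝕜 E), T.Finite →
    (∀ v ∈ T, v.comap φ ∈ T) → ∀ D : Place 𝕜 E → ℤ, (∀ v, D (v.comap φ) = D v) →
    ∃ f : E, f ≠ 0 ∧ φ f = f ∧ ∀ v ∈ T, v.pord f = D v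

/-! ## Part H: (HN) and (P') -/

/-- **LocN** (120 lines), may use `FStmtOrbLen, FStmtPull`.  An invariant divisor with
`M ∣ orbLen(v) D(v)` for all `v` is a norm from the constant extension of degree `M`.
Proof.  By additivity and finiteness it suffices to treat `D = a · (sum of the w in O)` for one
`φ`-orbit `O` of length `d`, `M ∣ d a` (sum over the orbits in the support of `D`).  Choose `v ∈ O`,
`γ = gcd(M, d)`.  Let `B = b · (sum of the w in the orbit O' of v under φ^M)`; `O'` has `d / γ`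
elements.  `∑_{i<M} cm (φ^i) B`: its value at `w ∈ O` is `b · #{i < M : w.comap (φ^i) ∈ O'}`; with
`O ≅ ZMod d` (`v.comap (φ^j) ↔ j`), `O'` is the subgroup `γ ZMod d`, and the number of `i < M` with
`i ≡ const mod γ` is `M / γ`.  Take `b = a γ / M` (an integer: `M ∣ d a` implies `(M/γ) ∣ a`). -/
def FStmtLocN : Prop :=
  ∀ (𝕜 E : Type) [Field 𝕜] [IsAlgClosed 𝕜] [Field E] [Algebra 𝕜 E] [IsCurveField 𝕜 E]
    (q : ℕ) (φ : E ≃+* E), IsFrob 𝕜 q φ → ∀ M : ℕ, 0 < M → ∀ D : Place 𝕜 E →₀ ℤ, Inv φ D →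
    (∀ v, (M : ℤ) ∣ (orbLen φ v : ℤ) * D v) →
    ∃ B : Place 𝕜 E →₀ ℤ, Inv (φ ^ M) B ∧ ∑ i ∈ Finset.range M, cm (φ ^ i) B = D

/-- **H90** (100 lines), may use `FStmtFixCard, FStmtPow`.  Hilbert 90 for the constant extension, in
the form used: if `φ^M h = h` and `∏_{i<M} φ^i h` is a constant `a` (necessarily fixed by `φ`), then
`h = c φ(g) / g` for a constant `c` and `g` with `φ^M c = c`, `φ^M g = g`, and `c = 1` if `a = 1`.
Proof.  `φ a = a · φ^M(h)/h = a`, so `a^q = a`.  Let `s = 1 + q + ... + q^(M-1)`, choose `c ∈ 𝕜`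
with `c^s = a` (`c = 1` if `a = 1`): `c^(q^M - 1) = a^(q-1) = 1`, so `c^(q^M) = c`, and
`∏_{i<M} φ^i(c) = c^s = a`.  Replace `h` by `h / c`: now `∏_{i<M} φ^i(h) = 1`.  Let
`b_0 = 1, b_i = ∏_{j<i} φ^j(h)`, so `φ(b_i) = b_{i+1}/h`, `b_M = 1`.  The automorphisms
`φ^i`, `i < M`, of the field `K` fixed by `φ^M` are distinct (already on the constants `c^(q^M) = c`,
of which there are `q^M` by `FStmtFixCard`), so by Dedekind (`linearIndependent_monoidHom` or the
Hilbert 90 of Mathlib) there is `u ∈ K` with `y := ∑_{i<M} b_i φ^i(u) ≠ 0`.  Then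
`φ(y) = ∑ b_{i+1} φ^{i+1}(u) / h = y / h`, since `b_M φ^M(u) = u = b_0 u`.  So `h = y / φ(y)`,
`g = y⁻¹`. -/
def FStmtH90 : Prop :=
  ∀ (𝕜 E : Type) [Field 𝕜] [IsAlgClosed 𝕜] [Field E] [Algebra 𝕜 E]
    (q : ℕ) (φ : E ≃+* E), IsFrob 𝕜 q φ → ∀ M : ℕ, 0 < M → ∀ h : E, h ≠ 0 → (φ ^ M) h = h →
    ∀ a : 𝕜, ∏ i ∈ Finset.range M, (φ ^ i) h = algebraMap 𝕜 E a →
    ∃ (c : 𝕜) (g : E), c ≠ 0 ∧ g ≠ 0 ∧ c ^ q ^ M = c ∧ (φ ^ M) g = g ∧ (a = 1 → c = 1) ∧
      ∏ i ∈ Finset.range M, (φ ^ i) (algebraMap 𝕜 E c) = algebraMap 𝕜 E a ∧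
      h * g = algebraMap 𝕜 E c * φ g

/-- **InvClass** (60 lines), may use `FStmtH90`.  A class of the constant extension which is invariant
under `φ` contains an invariant divisor.
Proof.  Let `D` be `φ^M`-invariant, `cm φ D - D = div h`, `φ^M h = h`.  The divisor of
`∏_{i<M} φ^i h` is `∑_{i<M} cm (φ^i) (cm φ D - D) = cm (φ^M) D - D = 0`, so it is a constant.  By
`FStmtH90` `h g = c φ(g)`, `φ^M g = g`, so `div h = div φ(g) - div g` and
`cm φ (D - div g) = D + div h - div φ(g) = D - div g`. -/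
def FStmtInvClass : Prop :=
  ∀ (𝕜 E : Type) [Field 𝕜] [IsAlgClosed 𝕜] [Field E] [Algebra 𝕜 E] [IsCurveField 𝕜 E]
    (q : ℕ) (φ : E ≃+* E), IsFrob 𝕜 q φ → ∀ M : ℕ, 0 < M → ∀ D : Place 𝕜 E →₀ ℤ, Inv (φ ^ M) D →
    ∀ h : E, h ≠ 0 → (φ ^ M) h = h → cm φ D - D = dv 𝕜 h →
    ∃ g : E, g ≠ 0 ∧ (φ ^ M) g = g ∧ Inv φ (D - dv 𝕜 g)

/-- **ClFin** (150 lines), may use `RiemannStmt, FStmtSpan, FStmtFin`.  The class group of degree zero is
finite.
Proof.  Let `x` be the separating element fixed by `φ`, `B = pol 𝕜 x`, invariant, of positive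
degree (`x` has a pole: otherwise it is constant), and `m` such that `b = m deg B ≥ N, g` (`N, g` of
`RiemannStmt`).  For `D ∈ Inv0 φ`, `l(D + m B) = b + 1 - g ≥ 1`, the space `L(D + m B)` is
`φ`-stable and spanned by fixed vectors, so it contains a nonzero fixed `f`, and
`A = D + m B + div f` is effective, invariant, of degree `b`; the class of `D` is the class of
`A - m B`.  There are finitely many effective invariant divisors of degree `b`: if `A v > 0` then the
orbit of `v` has at most `b` elements, so `v` is fixed by `φ^(b!)` — finitely many such `v`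
(`FStmtFin`) — and `A v ≤ b`. -/
def FStmtClFin : Prop :=
  ∀ (𝕜 E : Type) [Field 𝕜] [IsAlgClosed 𝕜] [Field E] [Algebra 𝕜 E] [IsCurveField 𝕜 E]
    (q : ℕ) (φ : E ≃+* E), IsFrob 𝕜 q φ → Finite (Cl0 𝕜 φ)

/-- **NSurj** (80 lines), may use `ZStmtNS, FStmtZeta, FStmtPull, FStmtOrbLen, FStmtLocN`.  Surjectivity of
the norm on classes of degree zero.
Proof.  Write the invariant divisor `D` of degree `0` as `e A` (`FStmtPull`).  `ZStmtNS` for `A`:
`A - A'` has multiplicities with `M ∣ deg p * (A - A') p`, `A' ∈ PrinOrb`, given by `f`.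
`e (A - A') = D - div f` is a norm `∑ cm (φ^i) B` by `FStmtLocN`.  (`M deg B = deg (D - div f) = 0`
by `ZetaData.prin`, so `deg B = 0`.) -/
def FStmtNSurj : Prop :=
  ∀ (𝕜 E : Type) [Field 𝕜] [IsAlgClosed 𝕜] [Field E] [Algebra 𝕜 E] [IsCurveField 𝕜 E]
    (q : ℕ) (φ : E ≃+* E), IsFrob 𝕜 q φ → ∀ M : ℕ, 0 < M → ∀ D : Place 𝕜 E →₀ ℤ, Inv φ D →
    dg D = 0 → ∃ (B : Place 𝕜 E →₀ ℤ) (f : E), f ≠ 0 ∧ φ f = f ∧ Inv (φ ^ M) B ∧ dg B = 0 ∧
      ∑ i ∈ Finset.range M, cm (φ ^ i) B = D - dv 𝕜 f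

/-- **HN** (200 lines), may use `ZStmtHerb, FStmtNSurj, FStmtLocN, FStmtClFin, FStmtInvClass, FStmtPow,
FStmtH90, RiemannStmt`: the Hasse norm theorem `HNStmt` of the interface.
Proof.  Put `ψ = φ^M` (a Frobenius, `FStmtPow`), `G = Cl0 𝕜 ψ`, finite, `a : G →+ G` induced by
`cm φ` (well defined: `cm φ` commutes with `cm ψ`, preserves degrees, and `cm φ (div f) = div (φ f)`,
`ψ (φ f) = φ f`).  `a^M = 1`, since `cm ψ D = D`.  If `a [D] = [D]` then `cm φ D - D = div h`,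
`ψ h = h`, so by `FStmtInvClass` `[D] = [D₁]` with `D₁ = D - div g` `φ`-invariant, of degree `0`
(principal divisors have degree `0`), and by `FStmtNSurj` `D₁ - div f = ∑_{i<M} cm (φ^i) B`: `[D]`
is a norm.  So the hypotheses of `ZStmtHerb` hold.  Now let `f` be as in `HNStmt`.  By `FStmtLocN`
`div f = ∑_{i<M} cm (φ^i) B` with `B` `ψ`-invariant; `M deg B = 0`; the norm of the class of `B` is
the class of `div f`, zero (`ψ f = f`).  By `ZStmtHerb` `B = cm φ D - D + div h`, `D ∈ Inv0 ψ`,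
`ψ h = h`.  Hence `div f = ∑ cm (φ^i) B = 0 + div ∏_{i<M} φ^i h`, and
`f = c ∏_{i<M} φ^i h` with a constant `c ≠ 0`, fixed by `φ` (both `f` and the product are), so
`c^q = c`.  By `FStmtH90` (applied to `h = algebraMap c₁`, or directly: choose `c₁ ∈ 𝕜` with
`c₁^(1+q+...+q^(M-1)) = c`) `c = ∏_{i<M} φ^i c₁`, `ψ c₁ = c₁`.  So `t = c₁ h`. -/
def FStmtHN : Prop := HNStmt

/-- **BadDisj** (60 lines).  Bad places and their translates: if `v` and `v.comap σ` are both `ℓ`-bad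
then `v` is a zero of `x`.
Proof.  `(v.comap σ)(f) = v(σ f)`, `σ x = ζ x`.  If `v(x) > 0` we are done.  Otherwise there is `m`
prime to `ℓ` with `v(x^m - 1) > 0` (so `v(x) = 0`), hence `(v.comap σ)(x) = v(ζ x) = 0` and there is
`m'` prime to `ℓ` with `v((ζ x)^m' - 1) > 0`.  Raise to powers: `v(x^(m m') - 1) > 0` and
`v(ζ^(m m') x^(m m') - 1) > 0`, so `v(ζ^(m m') - 1) > 0`, so `ζ^(m m') = 1`, `ℓ ∣ m m'`:
contradiction. -/
def FStmtBadDisj : Prop :=
  ∀ (𝕜 E : Type) [Field 𝕜] [IsAlgClosed 𝕜] [Field E] [Algebra 𝕜 E] [IsCurveField 𝕜 E]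
    (ℓ : ℕ), ℓ.Prime → ∀ ζ : 𝕜, IsPrimitiveRoot ζ ℓ → ∀ x : E, ∀ σ : E ≃ₐ[𝕜] E,
    σ x = algebraMap 𝕜 E ζ * x → ∀ v : Place 𝕜 E, Bad ℓ x v →
    Bad ℓ x (v.comap (σ : E ≃+* E)) → 0 < v.ord x

/-- **PMain** (250 lines), may use `ZStmtTwo, ZStmtChar, FStmtZeta, FStmtPull, FStmtOrbLen, FStmtMove,
FStmtBadDisj, FStmtFin`: the statement `PStmt` of the interface.
Proof.  Let `𝔅` be the set of bad places and `T₁` the union of the `φ`-orbits of the elements of
`T` (finite); `𝔅` is stable under `φ` (`φ x = x`).  Let `G = (Orb 𝕜 φ →₀ ℤ)`, `H` the subgroup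
generated by `ℓ G`, `PrinOrb`, and the primes (orbits) outside `𝔅 ∪ T₁`.  Let `A ∈ G` be the divisor
on orbits with `e A = D`.  If `A ∈ H` then `D = ℓ D₁ + div y + D₂` with `D₂` supported outside
`𝔅 ∪ T₁`, `φ y = y`, done.  Otherwise let `χ : G →+ ZMod ℓ` kill `H`, `χ A ≠ 0` (`ZStmtChar`).
`σ` commutes with `φ`, so it permutes the orbits (`orb φ v ↦ orb φ (v.comap σ)`) preserving their
degrees; let `σ_* : G →+ G` be the corresponding map, `(single p 1) ↦ (single (σ p) 1)`; it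
preserves degrees and maps `PrinOrb` to itself (`f ↦ σ⁻¹ f`).  `χ' = χ ∘ σ_*`.  Let `S` be the
finite set of the orbits that are in `T₁`, or whose image under `σ_*` is in `T₁`, or consist of zeros
of `x`.  For `p ∉ S` with `χ p ≠ 0`, `χ' p ≠ 0`: `p` and `σ p` are bad, contradicting `FStmtBadDisj`.
By `ZStmtTwo` `χ` or `χ'` vanishes on degree zero, hence (`σ_*` is a degree-preserving bijection)
`χ` does.  Now let `f` be fixed by `φ` with `div f = D` on the finite `φ`-stable set of the places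
whose orbit is in `S` (`FStmtMove`); `χ A = χ A'`, `A' = A -` (the principal divisor of `f`), whose
support avoids `S`.  Write `A' = A₁ + A₂`, `A₁` supported on bad primes, `A₂` on primes that are not
bad and not in `T₁` (as not in `S`): `χ A₂ = 0`.  `χ A₁ = χ (σ_* A₁)`, same degree; for a bad prime
`p ∉ S` the prime `σ p` is not bad (`FStmtBadDisj`; `p ∉ S`) and not in `T₁`, so `χ (σ p) = 0`.
So `χ A = 0`, contradiction. -/
def FStmtPMain : Prop := PStmt

end MP7Z
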