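import Pool.Agent.Lib.MP_7f581e_Z.FF.Zeta

/-!
# ZEff: finitely many effective divisors of each degree
-/

set_option autoImplicit false

namespace MP7Z.ZEffM

open MP7Z

theorem le_of_deg {P : Type} {deg : P → ℕ} (hpos : ∀ p, 0 < deg p) {n : ℕ} {A : P →₀ ℕ}
    (h : edeg deg A = n) {p : P} (hp : p ∈ A.support) : A p ≤ n ∧ deg p ≤ n := by
  have h1 : A p * deg p ≤ n := by
    rw [← h, edeg, Finsupp.sum]
    exact Finset.single_le_sum (f := fun q => A q * deg q) (fun q _ => Nat.zero_le _) hp
  have h2 : 1 ≤ A p := Nat.one_le_iff_ne_zero.2 (Finsupp.mem_support_iff.1 hp)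
  have h3 := hpos p
  constructor
  · nlinarith
  · nlinarith

end MP7Z.ZEffM

namespace MP7Z

theorem tZEff : ZStmtEff := by
  classical
  intro P deg hpos hfin n
  have hS : {p : P | deg p ≤ n}.Finite := by
    have h1 : {p : P | deg p ≤ n} ⊆ ⋃ m ∈ Finset.range (n + 1), {p | deg p = m} := by
      intro p hp
      have hp' : deg p ≤ n := hp
      simp only [Finset.mem_range, Set.mem_iUnion]
      exact ⟨deg p, by omega, rfl⟩
    refine Set.Finite.subset ?_ h1
    exact Set.Finite.biUnion (Finset.finite_toSet _) fun m _ => hfin m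
  set B : P →₀ ℕ := Finsupp.onFinset hS.toFinset (fun p => if deg p ≤ n then n else 0)
    (by
      intro p hp
      rw [Set.Finite.mem_toFinset]
      by_contra hcon
      have : ¬ deg p ≤ n := hcon
      exact hp (if_neg this)) with hB
  refine (Set.finite_Iic B).subset ?_
  intro A hA
  have hA' : edeg deg A = n := hA
  intro p
  by_cases hp : p ∈ A.support
  · obtain ⟨h1, h2⟩ := ZEffM.le_of_deg hpos hA' hp
    rw [hB, Finsupp.onFinset_apply, if_pos h2]
    exact h1
  · rw [Finsupp.notMem_support_iff.1 hp]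
    exact Nat.zero_le _

end MP7Z
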